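import Pool.Agent.ZPP.NFa
import Pool.Agent.SNW.F1

/-!
# ZPP, module NFb (helper91): the almost full case for groups of order `p ^ 2`, `p ≥ 5`
-/

set_option autoImplicit false

noncomputable section

open Finset Pool.Agent.Helper64.Rho
open scoped Classical Pointwise

namespace Pool.Agent.ZPP

open Pool.Agent.SDG Pool.Agent.SNW

theorem NFb_cf (g k : ℕ) (hg : 1 ≤ g) (hk : k ≤ g) : cf g k = k + 1 := by
  have h := thm_Nm1.2.1 g 0 k hg hk
  simp only [mul_zero, zero_add, mul_one, add_zero] at h
  omega

/-- the value of a subgroup of order `p` -/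
theorem NFb_bd {p : ℕ} [hp : Fact p.Prime] (G : Type) [AddCommGroup G] [Finite G]
    (hc : Nat.card G = p ^ 2) (m : ℕ) (hm : m ≤ 2 * p) :
    bd2 G m ≤ p * (max 1 (m + 1 - p) + 1) := by
  obtain ⟨H, hH⟩ := Sylow.exists_subgroup_card_pow_prime (G := Multiplicative G) p (n := 1)
    (by
      have : Nat.card (Multiplicative G) = Nat.card G := rfl
      rw [this, hc]
      exact pow_dvd_pow p (by norm_num))
  rw [pow_one] at hH
  have hK : Nat.card (Subgroup.toAddSubgroup' H : AddSubgroup G) = p := hH
  have h1 := AddSubgroup.card_eq_card_quotient_mul_card_addSubgroup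
    (Subgroup.toAddSubgroup' H : AddSubgroup G)
  rw [hc, hK, sq] at h1
  have h2 : Nat.card (G ⧸ (Subgroup.toAddSubgroup' H : AddSubgroup G)) = p :=
    (Nat.eq_of_mul_eq_mul_right hp.out.pos h1).symm
  have hcyc : IsAddCyclic (G ⧸ (Subgroup.toAddSubgroup' H : AddSubgroup G)) :=
    isAddCyclic_of_prime_card h2
  have hne : (Subgroup.toAddSubgroup' H : AddSubgroup G) ≠ ⊤ := by
    intro h
    have h3 : Nat.card (Subgroup.toAddSubgroup' H : AddSubgroup G) = Nat.card G := by
      rw [h]
      exact AddSubgroup.card_top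
    rw [hK, hc] at h3
    have := hp.out.two_le
    nlinarith
  have h4 := bd2_le_cyc m _ hne hcyc
  have hpp := hp.out.pos
  rw [hK, NFb_cf (2 * p) _ (by omega) (by omega)] at h4
  exact h4

/-- **The almost full case for noncyclic groups of order `p ^ 2`, `p ≥ 5`.** -/
theorem NFP_sq (hLow : LowC) (hFin : FinC) {p : ℕ} [hp : Fact p.Prime] (hp5 : 5 ≤ p) (G : Type)
    [AddCommGroup G] [Finite G] (hc : Nat.card G = p ^ 2) (hn : ¬ IsAddCyclic G) : NFP G := by
  intro A h0 h1 _ _ hpn hnf
  rcases Nat.lt_or_ge A.card (2 * p - 2) with ht | ht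
  · rcases Nat.lt_or_ge A.card (p - 1) with ht' | ht'
    · exfalso
      rw [hc] at hnf
      have h2 : pn A.card ≤ 2 * cf 2 (A.card - 1) := by
        unfold pn
        have c3 : cf 2 3 = 5 := (thm_Nm1.2.2.1 3).trans (by norm_num)
        have c5 : cf 2 5 = 10 := (thm_Nm1.2.2.1 5).trans (by norm_num)
        split_ifs with h4 h6
        · rw [h4]
          norm_num [c3]
        · rw [h6]
          norm_num [c5]
        · exact le_rfl
      rw [thm_Nm1.2.2.1, Nat.sub_add_cancel h1] at h2
      have h3 : A.card ^ 2 / 4 * 4 ≤ A.card ^ 2 := Nat.div_mul_le_self _ _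
      have h5 : jj A.card * (jj A.card - 1) * 4 ≤ A.card ^ 2 + 2 * A.card := by
        unfold jj
        have h6 : (A.card + 1) / 2 * 2 ≤ A.card + 1 := Nat.div_mul_le_self _ _
        rcases Nat.eq_zero_or_pos ((A.card + 1) / 2) with h7 | h7
        · rw [h7]
          simp
        · obtain ⟨k, hk⟩ : ∃ k, (A.card + 1) / 2 = k + 1 := ⟨_, (Nat.sub_add_cancel h7).symm⟩
          rw [hk] at h6 ⊢
          rw [Nat.add_sub_cancel]
          nlinarith
      obtain ⟨c, hcp⟩ : ∃ c, p = A.card + 2 + c := ⟨p - 2 - A.card, by omega⟩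
      have h8 : p ^ 2 = A.card ^ 2 + 4 * A.card + 4 + c * c + 2 * c * (A.card + 2) := by
        rw [hcp]
        ring
      nlinarith
    · have h2 := NFa_low hLow (p := p) (by omega) G hc hn A h0 ht' (by omega)
      have h3 := NFb_bd (p := p) G hc A.card (by omega)
      rcases Nat.eq_or_lt_of_le ht' with h4 | h4
      · -- `|A| = p - 1`
        have h5 : max 1 (A.card + 1 - p) + 1 = 2 := by omega
        rw [h5] at h3
        refine h3.trans ?_
        rw [hc] at hnf
        have h6 : jj A.card * (jj A.card - 1) * 4 ≤ p ^ 2 := by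
          unfold jj
          have h7 : (A.card + 1) / 2 * 2 ≤ p := by omega
          rcases Nat.eq_zero_or_pos ((A.card + 1) / 2) with h8 | h8
          · rw [h8]
            simp
          · obtain ⟨k, hk⟩ : ∃ k, (A.card + 1) / 2 = k + 1 := ⟨_, (Nat.sub_add_cancel h8).symm⟩
            rw [hk] at h7 ⊢
            rw [Nat.add_sub_cancel]
            nlinarith
        nlinarith
      · have h5 : max 1 (A.card + 1 - p) + 1 = A.card + 2 - p := by omega
        rw [h5] at h3
        exact h3.trans h2
  · rw [NFa_fin hFin hp5 G hc hn A h0 ht]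
    exact bd2_le_card _

end Pool.Agent.ZPP
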