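import Pool.Agent.ZPP.All
import Pool.Agent.ZPP.NFb

/-!
# ZPP: the near-full case for noncyclic groups with `p ^ 2` elements, `p ≥ 5` (helper91)
-/

set_option autoImplicit false

namespace Pool.Agent.ZPP

/-- The near-full case for noncyclic groups of order `p ^ 2`, `p ≥ 5`. -/
theorem NFP_all (G : Type) [AddCommGroup G] [Finite G] (p : ℕ) (hp : p.Prime) (hp5 : 5 ≤ p)
    (hc : Nat.card G = p ^ 2) (hn : ¬ IsAddCyclic G) : SNW.NFP G := by
  haveI : Fact p.Prime := ⟨hp⟩
  exact NFP_sq low_all fin_all hp5 G hc hn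

/-- Sets of `2 p - 2` nonzero vectors: every vector is a signed sum. -/
theorem SS_full {p : ℕ} [Fact p.Prime] (hp5 : 5 ≤ p) (A : Finset (V p)) (h0 : (0 : V p) ∉ A)
    (hc : A.card = 2 * p - 2) (g : V p) : g ∈ SS A :=
  fin_all hp5 A h0 hc g

end Pool.Agent.ZPP
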