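import Pool.Agent.ZPP.St

/-!
# Campaign ZPP: special root systems

Proof of the statement `St_Al`.
-/

set_option autoImplicit false

open Finset Polynomial

namespace Pool.Agent.ZPP

private theorem Al_add {p : ℕ} (M N : Multiset (ZMod p)) : Pm (M + N) = Pm M * Pm N := by
  simp [Pm]

private theorem Al_univ {p : ℕ} [Fact p.Prime] :
    Pm (Finset.univ.val : Multiset (ZMod p)) = X ^ p - X := by
  have hp : 1 < p := (Fact.out : p.Prime).one_lt
  have h1 : (X ^ Fintype.card (ZMod p) - X : (ZMod p)[X]).roots = Finset.univ.val :=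
    FiniteField.roots_X_pow_card_sub_X (ZMod p)
  rw [ZMod.card] at h1
  unfold Pm
  rw [← h1]
  apply Polynomial.prod_multiset_X_sub_C_of_monic_of_roots_card_eq
  · exact monic_X_pow_sub (by rw [degree_X]; exact_mod_cast hp)
  · rw [h1, FiniteField.X_pow_card_sub_X_natDegree_eq (ZMod p) hp]
    simp [ZMod.card]

private theorem Al_monic {p : ℕ} (M : Multiset (ZMod p)) : (Pm M).Monic := by
  unfold Pm
  exact monic_multiset_prod_of_monic _ _ (fun a _ => monic_X_sub_C a)

private theorem Al_deg {p : ℕ} [Fact p.Prime] (M : Multiset (ZMod p)) :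
    (Pm M).natDegree = M.card := by
  unfold Pm
  exact natDegree_multiset_prod_X_sub_C_eq_card M

/-- The coefficients of `(X ^ p - X) * q` below `p`. -/
private theorem Al_coeff {p : ℕ} (q : (ZMod p)[X]) (i : ℕ) (hi : i + 1 < p) :
    ((X ^ p - X) * q).coeff (i + 1) = - q.coeff i := by
  rw [sub_mul, coeff_sub, coeff_X_pow_mul', if_neg (by omega), coeff_X_mul, zero_sub]

private theorem Al_split {p : ℕ} [Fact p.Prime] (M : Multiset (ZMod p)) (h : ∀ c, c ∈ M) :
    ∃ N : Multiset (ZMod p), N.card + p = M.card ∧ Pm M = (X ^ p - X) * Pm N := by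
  have hle : (Finset.univ.val : Multiset (ZMod p)) ≤ M := by
    rw [Multiset.le_iff_subset Finset.univ.nodup]
    intro c _
    exact h c
  obtain ⟨N, hN⟩ := Multiset.le_iff_exists_add.1 hle
  refine ⟨N, ?_, ?_⟩
  · rw [hN, Multiset.card_add]
    have : (Finset.univ.val : Multiset (ZMod p)).card = p := by
      simp [ZMod.card]
    omega
  · rw [hN, Al_add, Al_univ]

/-- (Al) Special root systems. -/
theorem thm_Al : St_Al := by
  intro p hp M
  have hp2 : 2 ≤ p := (Fact.out : p.Prime).two_le
  refine ⟨?_, ?_, ?_⟩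
  · intro hM hcard hgap
    obtain ⟨N, hN, hPm⟩ := Al_split M hM
    have h1 := hgap (N.card + 1) (by omega) (by omega)
    rw [hPm, Al_coeff _ _ (by omega)] at h1
    have h2 : (Pm N).coeff N.card = 1 := by
      have := (Al_monic N).coeff_natDegree
      rwa [Al_deg] at this
    rw [h2] at h1
    exact one_ne_zero (neg_eq_zero.1 h1)
  · intro hM hcard i hi hi'
    obtain ⟨N, hN, hPm⟩ := Al_split M hM
    obtain ⟨j, rfl⟩ : ∃ j, i = j + 1 := ⟨i - 1, by omega⟩
    rw [hPm, Al_coeff _ _ hi, neg_eq_zero]
    apply coeff_eq_zero_of_natDegree_lt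
    rw [Al_deg]
    omega
  · intro hne hcount hcard hgap
    have hp3 : 3 ≤ p := by
      rcases Nat.lt_or_ge 2 p with h | h
      · exact h
      · exact absurd (le_antisymm h hp2) hne
    have hle : M ≤ 2 • (Finset.univ.val : Multiset (ZMod p)) := by
      rw [Multiset.le_iff_count]
      intro c
      rw [Multiset.count_nsmul, Multiset.count_eq_one_of_mem Finset.univ.nodup (Finset.mem_univ c)]
      simpa using hcount c
    obtain ⟨N, hN⟩ := Multiset.le_iff_exists_add.1 hle
    have hNc : N.card = 2 := by
      have h1 := congrArg Multiset.card hN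
      rw [Multiset.card_nsmul, Multiset.card_add, hcard] at h1
      have : (Finset.univ.val : Multiset (ZMod p)).card = p := by
        simp [ZMod.card]
      rw [this] at h1
      omega
    obtain ⟨β, β', rfl⟩ := Multiset.card_eq_two.1 hNc
    have hF : (X ^ p - X : (ZMod p)[X]) ^ 2 = Pm M * ((X - C β) * (X - C β')) := by
      have h1 : Pm (2 • (Finset.univ.val : Multiset (ZMod p))) = (X ^ p - X) ^ 2 := by
        rw [two_nsmul, Al_add, Al_univ, sq]
      rw [← h1, hN, Al_add]
      simp [Pm]
    set q : (ZMod p)[X] := (X - C β) * (X - C β') with hq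
    set P : (ZMod p)[X] := Pm M with hP
    have hXm : (X ^ p : (ZMod p)[X]).Monic := monic_X_pow p
    set g : (ZMod p)[X] := P /ₘ X ^ p with hg
    set h : (ZMod p)[X] := P %ₘ X ^ p with hh
    have hdiv : h + X ^ p * g = P := modByMonic_add_div P (X ^ p)
    have hhdeg : h.degree < p := by
      have := degree_modByMonic_lt P hXm
      rwa [degree_X_pow] at this
    have hhc : ∀ i, p - 1 ≤ i → h.coeff i = 0 := by
      intro i hi
      by_cases hip : p ≤ i
      · exact coeff_eq_zero_of_degree_lt (lt_of_lt_of_le hhdeg (by exact_mod_cast hip))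
      · have h1 := hgap i (by omega) (by omega)
        rw [← hdiv, coeff_add, coeff_X_pow_mul', if_neg (by omega), add_zero] at h1
        exact h1
    set η : ZMod p := h.coeff (p - 2) with hη
    have hqe : q = X ^ 2 - C (β + β') * X + C (β * β') := by
      rw [hq]
      simp only [C_add, C_mul]
      ring
    have hqh : ∀ i, p ≤ i → (q * h - C η * X ^ p).coeff i = 0 := by
      intro i hi
      obtain ⟨j, rfl⟩ : ∃ j, i = j + 2 := ⟨i - 2, by omega⟩
      have e1 : (q * h).coeff (j + 2) = h.coeff j := by
        rw [hqe, add_mul, sub_mul, coeff_add, coeff_sub, coeff_X_pow_mul, mul_assoc, coeff_C_mul,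
          coeff_X_mul, coeff_C_mul, hhc (j + 1) (by omega), hhc (j + 2) (by omega)]
        ring
      rw [coeff_sub, e1, coeff_C_mul, coeff_X_pow]
      by_cases hj : j + 2 = p
      · rw [if_pos hj]
        have : j = p - 2 := by omega
        rw [this]
        ring
      · rw [if_neg hj, hhc j (by omega)]
        ring
    have hdeg2 : (q * h - C η * X ^ p).degree < (X ^ p : (ZMod p)[X]).degree := by
      rw [degree_X_pow, degree_lt_iff_coeff_zero]
      exact hqh
    have hFe : (q * h - C η * X ^ p) + X ^ p * (q * g + C η) = (X ^ p - X) ^ 2 := by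
      rw [hF, ← hdiv]
      ring
    have hFe2 : (X ^ 2 : (ZMod p)[X]) + X ^ p * (X ^ p - 2 * X) = (X ^ p - X) ^ 2 := by ring
    have hu1 := (div_modByMonic_unique _ _ hXm ⟨hFe, hdeg2⟩).1
    have hu2 := (div_modByMonic_unique _ _ hXm ⟨hFe2, by
      rw [degree_X_pow, degree_X_pow]; exact_mod_cast hp3⟩).1
    have hkey : q * g + C η = X ^ p - 2 * X := hu1.symm.trans hu2
    have hev : ∀ x : ZMod p, q.eval x = 0 → η = - x := by
      intro x hx
      have h1 := congrArg (eval x) hkey
      simp only [eval_add, eval_mul, hx, eval_C, eval_sub, eval_pow, eval_X, eval_ofNat,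
        ZMod.pow_card] at h1
      rw [zero_mul, zero_add] at h1
      rw [h1]
      ring
    have hb : η = - β := hev β (by simp [hq])
    have hb' : η = - β' := hev β' (by simp [hq])
    have hbb : β = β' := neg_injective (hb.symm.trans hb')
    have hder := congrArg (fun f => eval β (derivative f)) hkey
    have hqβ : q.eval β = 0 := by simp [hq]
    have hqd : q.derivative.eval β = 0 := by
      rw [hq, ← hbb]
      simp
    simp only [derivative_add, derivative_mul, derivative_C, derivative_sub, derivative_X_pow,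
      eval_add, eval_mul, hqβ, hqd, eval_sub, derivative_X, eval_C, CharP.cast_eq_zero,
      derivative_ofNat] at hder
    simp at hder
    have h2 : (2 : ZMod p) ≠ 0 := by
      intro h
      have h3 : ((2 : ℕ) : ZMod p) = 0 := by exact_mod_cast h
      rw [ZMod.natCast_eq_zero_iff] at h3
      have := Nat.le_of_dvd (by norm_num) h3
      omega
    exact h2 hder

end Pool.Agent.ZPP
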