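import Pool.Agent.ZPP.St

/-!
# Campaign ZPP: parallel elements are equal up to sign (helper81)

Statement of helper91, `ZPP.St_Alp`.
-/

set_option autoImplicit false

open Finset Polynomial

namespace Pool.Agent.ZPP

private theorem Alp_two {p : ℕ} [Fact p.Prime] (hp : 5 ≤ p) : (2 : ZMod p) ≠ 0 := by
  intro h
  have h1 : ((2 : ℕ) : ZMod p) = 0 := by exact_mod_cast h
  rw [ZMod.natCast_eq_zero_iff] at h1
  have := Nat.le_of_dvd (by norm_num) h1
  omega

private theorem Alp_par {p : ℕ} [Fact p.Prime] (a a' : V p) (ha : a ≠ 0) (h : dt a a' = 0) :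
    ∃ l : ZMod p, a' = l • a := by
  unfold dt at h
  obtain ⟨a1, a2⟩ := a
  obtain ⟨b1, b2⟩ := a'
  simp only at h
  by_cases h1 : a1 = 0
  · have h2 : a2 ≠ 0 := by
      rintro rfl
      apply ha
      rw [h1]
      rfl
    refine ⟨b2 / a2, Prod.ext ?_ ?_⟩
    · show b1 = b2 / a2 * a1
      rw [h1, zero_mul, zero_sub, neg_eq_zero] at h
      rw [h1, mul_zero]
      exact (mul_eq_zero.1 h).resolve_left h2
    · show b2 = b2 / a2 * a2
      field_simp
  · refine ⟨b1 / a1, Prod.ext ?_ ?_⟩
    · show b1 = b1 / a1 * a1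
      field_simp
    · show b2 = b1 / a1 * a2
      field_simp
      linear_combination h

private theorem Alp_span {p : ℕ} [Fact p.Prime] (a b : V p) (h : dt a b ≠ 0) (g : V p) :
    ∃ x y : ZMod p, g = x • a + y • b := by
  refine ⟨dt g b / dt a b, dt a g / dt a b, Prod.ext ?_ ?_⟩
  · show g.1 = dt g b / dt a b * a.1 + dt a g / dt a b * b.1
    have h1 : g.1 * dt a b = dt g b * a.1 + dt a g * b.1 := by
      unfold dt
      ring
    field_simp
    exact h1
  · show g.2 = dt g b / dt a b * a.2 + dt a g / dt a b * b.2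
    have h1 : g.2 * dt a b = dt g b * a.2 + dt a g * b.2 := by
      unfold dt
      ring
    field_simp
    exact h1

private theorem Alp_dt {p : ℕ} [Fact p.Prime] (a w w' : V p) (ha : a ≠ 0) (h : dt a w = 0)
    (h' : dt a w' = 0) : dt w w' = 0 := by
  obtain ⟨l, rfl⟩ := Alp_par a w ha h
  obtain ⟨l', rfl⟩ := Alp_par a w' ha h'
  unfold dt
  show l * a.1 * (l' * a.2) - l * a.2 * (l' * a.1) = 0
  ring

private theorem Alp_per {p : ℕ} [Fact p.Prime] (hp : 5 ≤ p) (F : V p → ZMod p) (b : V p)
    (h : ∀ g, F (g + b) = F (g - b)) (y : ZMod p) (g : V p) : F (g + y • b) = F g := by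
  have h1 : ∀ (n : ℕ) (g : V p), F (g + (n : ZMod p) • ((2 : ZMod p) • b)) = F g := by
    intro n
    induction n with
    | zero =>
      intro g
      simp
    | succ n ih =>
      intro g
      have e : g + ((n + 1 : ℕ) : ZMod p) • ((2 : ZMod p) • b) =
          (g + (n : ZMod p) • ((2 : ZMod p) • b) + b) + b := by
        push_cast
        rw [add_smul, one_smul, two_smul]
        abel
      rw [e, h, add_sub_cancel_right, ih]
  have h2 := h1 (y / 2).val g
  rw [ZMod.natCast_val, ZMod.cast_id', id, smul_smul, div_mul_cancel₀ _ (Alp_two hp)] at h2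
  exact h2

theorem thm_Alp : St_Alp := by
  intro hRec hPfC hLin hDir p _ hp A h0 hcard h0S hfc a haA a' haA' hpar
  by_contra hcon
  push Not at hcon
  obtain ⟨hne1, hne2⟩ := hcon
  obtain ⟨_, hR2, hR3, _, _, hR6, _, _⟩ := hRec (p := p)
  have h2 := Alp_two (p := p) hp
  have ha0 : a ≠ 0 := fun h => h0 (h ▸ haA)
  have ha'0 : a' ≠ 0 := fun h => h0 (h ▸ haA')
  obtain ⟨l, hl⟩ := Alp_par a a' ha0 hpar
  have hl0 : l ≠ 0 := by
    rintro rfl
    rw [zero_smul] at hl
    exact ha'0 hl
  have hl1 : l ≠ 1 := by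
    rintro rfl
    rw [one_smul] at hl
    exact hne1 hl
  have hl2 : l ≠ -1 := by
    rintro rfl
    rw [neg_smul, one_smul] at hl
    exact hne2 hl
  -- the direction `b`
  obtain ⟨W, hWA, hW1, hW2, hW3⟩ := hDir (p := p) (by omega) A h0 (by omega) hfc
  have hWc : 1 < W.card := by omega
  obtain ⟨w, hw, w', hw', hww⟩ := Finset.one_lt_card.1 hWc
  obtain ⟨b, hbW, hab⟩ : ∃ b ∈ W, dt a b ≠ 0 := by
    by_cases h : dt a w = 0
    · refine ⟨w', hw', fun h' => hW1 w hw w' hw' hww (Alp_dt a w w' ha0 h h')⟩
    · exact ⟨w, hw, h⟩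
  have hbA : b ∈ A := hWA hbW
  obtain ⟨g₀, hg₀⟩ := hW2 b hbW
  have hba : b ≠ a := by
    rintro rfl
    apply hab
    unfold dt
    ring
  have hba' : b ≠ a' := by
    intro h
    exact hab (by rw [h]; exact hpar)
  -- the set `S`
  set S := ((A.erase b).erase a).erase a' with hS
  have ha'1 : a' ∈ (A.erase b).erase a :=
    mem_erase.2 ⟨hne1, mem_erase.2 ⟨hba'.symm, haA'⟩⟩
  have ha1 : a ∈ A.erase b := mem_erase.2 ⟨hba.symm, haA⟩
  have e1 : insert a' S = (A.erase b).erase a := insert_erase ha'1
  have e2 : insert a (insert a' S) = A.erase b := by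
    rw [e1]
    exact insert_erase ha1
  have e3 : insert b (insert a (insert a' S)) = A := by
    rw [e2]
    exact insert_erase hbA
  have n1 : a' ∉ S := notMem_erase _ _
  have n2 : a ∉ insert a' S := by
    rw [e1]
    exact notMem_erase _ _
  have n3 : b ∉ insert a (insert a' S) := by
    rw [e2]
    exact notMem_erase _ _
  have hScard : S.card = 2 * p - 5 := by
    rw [hS, card_erase_of_mem ha'1, card_erase_of_mem ha1, card_erase_of_mem hbA, hcard]
    omega
  -- the sums which do not occur
  have hns : ∀ g : V p, g ∈ SS S → g + a' + a + b ≠ 0 ∧ g - a' + a + b ≠ 0 ∧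
      g + a' - a + b ≠ 0 ∧ g - a' - a + b ≠ 0 := by
    intro g hg
    have k1 : ∀ x : V p, x ∈ SS S → x + a' ∈ SS (insert a' S) ∧ x - a' ∈ SS (insert a' S) := by
      intro x hx
      constructor
      · exact (hR3 S a' n1 _).2 (Or.inr (by rwa [add_sub_cancel_right]))
      · exact (hR3 S a' n1 _).2 (Or.inl (by rwa [sub_add_cancel]))
    have k2 : ∀ x : V p, x ∈ SS (insert a' S) → x + a ∈ SS (insert a (insert a' S)) ∧
        x - a ∈ SS (insert a (insert a' S)) := by
      intro x hx
      constructor
      · exact (hR3 _ a n2 _).2 (Or.inr (by rwa [add_sub_cancel_right]))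
      · exact (hR3 _ a n2 _).2 (Or.inl (by rwa [sub_add_cancel]))
    have k3 : ∀ x : V p, x ∈ SS (insert a (insert a' S)) → x + b ≠ 0 := by
      intro x hx h
      apply h0S
      rw [← e3]
      rw [← h]
      exact (hR3 _ b n3 _).2 (Or.inr (by rwa [add_sub_cancel_right]))
    exact ⟨k3 _ (k2 _ (k1 _ hg).1).1, k3 _ (k2 _ (k1 _ hg).2).1, k3 _ (k2 _ (k1 _ hg).1).2,
      k3 _ (k2 _ (k1 _ hg).2).2⟩
  have hneg : ∀ g : V p, g ∈ SS S → -g ∈ SS S := by
    obtain ⟨_, _, _, _, hR5, _⟩ := hRec (p := p)
    exact fun g hg => hR5 S g hg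
  have hz : ∀ g : V p, (-g) + a' + a + b = 0 ∨ (-g) - a' + a + b = 0 ∨ (-g) + a' - a + b = 0 ∨
      (-g) - a' - a + b = 0 → fc S g = 0 := by
    intro g hg
    by_contra hne
    obtain ⟨m1, m2, m3, m4⟩ := hns _ (hneg _ (hR6 S g hne))
    rcases hg with h | h | h | h
    · exact m1 h
    · exact m2 h
    · exact m3 h
    · exact m4 h
  -- the polynomial
  have hPf : fc S ∈ Pf p 3 := by
    have h := hPfC S (by omega)
    have e : 2 * p - 2 - S.card = 3 := by omega
    rwa [e] at h
  obtain ⟨q, hq1, hq2⟩ := (hLin 3 (fc S) hPf).1 b a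
  have hq0 : q = 0 := by
    have r1 : q.eval (1 + l) = 0 := by
      rw [← hq2]
      apply hz
      left
      rw [hl, add_smul, one_smul]
      abel
    have r2 : q.eval (1 - l) = 0 := by
      rw [← hq2]
      apply hz
      right; left
      rw [hl, sub_smul, one_smul]
      abel
    have r3 : q.eval (-1 + l) = 0 := by
      rw [← hq2]
      apply hz
      right; right; left
      rw [hl, add_smul, neg_smul, one_smul]
      abel
    have r4 : q.eval (-1 - l) = 0 := by
      rw [← hq2]
      apply hz
      right; right; right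
      rw [hl, sub_smul, neg_smul, one_smul]
      abel
    have d1 : (1 + l : ZMod p) ≠ 1 - l := by
      intro h
      have : 2 * l = 0 := by linear_combination h
      rcases mul_eq_zero.1 this with h' | h'
      · exact h2 h'
      · exact hl0 h'
    have d2 : (1 + l : ZMod p) ≠ -1 + l := by
      intro h
      exact h2 (by linear_combination h)
    have d3 : (1 + l : ZMod p) ≠ -1 - l := by
      intro h
      have : 2 * (1 + l) = 0 := by linear_combination h
      rcases mul_eq_zero.1 this with h' | h'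
      · exact h2 h'
      · exact hl2 (by linear_combination h')
    have d4 : (1 - l : ZMod p) ≠ -1 + l := by
      intro h
      have : 2 * (1 - l) = 0 := by linear_combination h
      rcases mul_eq_zero.1 this with h' | h'
      · exact h2 h'
      · exact hl1 (by linear_combination -h')
    have d5 : (1 - l : ZMod p) ≠ -1 - l := by
      intro h
      exact h2 (by linear_combination h)
    have d6 : (-1 + l : ZMod p) ≠ -1 - l := by
      intro h
      have : 2 * l = 0 := by linear_combination h
      rcases mul_eq_zero.1 this with h' | h'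
      · exact h2 h'
      · exact hl0 h'
    have hc : ({1 + l, 1 - l, -1 + l, -1 - l} : Finset (ZMod p)).card = 4 := by
      rw [card_insert_of_notMem, card_insert_of_notMem, card_pair d6]
      · simp only [mem_insert, mem_singleton, not_or]
        exact ⟨d4, d5⟩
      · simp only [mem_insert, mem_singleton, not_or]
        exact ⟨d1, d2, d3⟩
    refine Polynomial.eq_zero_of_natDegree_lt_card_of_eval_eq_zero' q
      {1 + l, 1 - l, -1 + l, -1 - l} ?_ ?_
    · intro z hz
      simp only [mem_insert, mem_singleton] at hz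
      rcases hz with rfl | rfl | rfl | rfl
      · exact r1
      · exact r2
      · exact r3
      · exact r4
    · rw [hc]
      omega
  have hzero : ∀ z : ZMod p, fc S (b + z • a) = 0 := by
    intro z
    rw [hq2, hq0, Polynomial.eval_zero]
  -- the function of `A.erase b`
  have hF : ∀ z : ZMod p, fc (A.erase b) (b + z • a) = 0 := by
    intro z
    rw [← e2, hR2 _ a n2, hR2 S a' n1, hR2 S a' n1]
    have s1 : b + z • a + a + a' = b + (z + 1 + l) • a := by
      rw [hl, add_smul, add_smul, one_smul]
      abel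
    have s2 : b + z • a + a - a' = b + (z + 1 - l) • a := by
      rw [hl, sub_smul, add_smul, one_smul]
      abel
    have s3 : b + z • a - a + a' = b + (z - 1 + l) • a := by
      rw [hl, add_smul, sub_smul, one_smul]
      abel
    have s4 : b + z • a - a - a' = b + (z - 1 - l) • a := by
      rw [hl, sub_smul, sub_smul, one_smul]
      abel
    rw [s1, s2, s3, s4, hzero, hzero, hzero, hzero]
    ring
  have hper : ∀ g, fc (A.erase b) (g + b) = fc (A.erase b) (g - b) := by
    intro g
    have h := hfc g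
    rw [← e3, hR2 _ b n3, e2, sub_eq_zero] at h
    exact h
  apply hg₀
  obtain ⟨x, y, hxy⟩ := Alp_span a b hab g₀
  have h1 := Alp_per hp _ b hper (y - 1) (b + x • a)
  have e : b + x • a + (y - 1) • b = g₀ := by
    rw [hxy, sub_smul, one_smul]
    abel
  rw [e, hF] at h1
  exact h1

end Pool.Agent.ZPP
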