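import Pool.Agent.ZPP.St

/-!
# ZPP / Cen: the missing sum is zero (helper95)

Statement of helper91, `ZPP.St_Cen`.
-/

set_option autoImplicit false

open Finset Polynomial

namespace Pool.Agent.ZPP

private theorem Cen_two {p : ℕ} [Fact p.Prime] (h2 : p ≠ 2) : (2 : ZMod p) ≠ 0 := by
  intro h
  have h1 : ((2 : ℕ) : ZMod p) = 0 := by exact_mod_cast h
  rw [ZMod.natCast_eq_zero_iff] at h1
  exact h2 ((Nat.prime_dvd_prime_iff_eq Fact.out Nat.prime_two).1 h1)

/-- one direction -/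
private theorem Cen_dir (hR : St_Rec) (hP : PfCC) (hL : LinC) {p : ℕ} [Fact p.Prime]
    (h2 : p ≠ 2) (A : Finset (V p)) (h0 : (0 : V p) ∉ A) (hA : A.card = 2 * p - 2)
    (g₀ : V p) (hg₀ : g₀ ∉ SS A) (hz : ∀ g, fc A g = 0) (w : V p) (hw : w ∈ A)
    (hne : ∃ g, fc (A.erase w) g ≠ 0) : dt w g₀ = 0 := by
  obtain ⟨-, hR2, hR3, hR4, -, hR6, -, -⟩ := hR (p := p)
  have hp : 2 ≤ p := (Fact.out : p.Prime).two_le
  have hcard : (A.erase w).card = 2 * p - 3 := by
    rw [Finset.card_erase_of_mem hw, hA]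
    omega
  have hmem := hP (p := p) (A.erase w) (by omega)
  have hd : 2 * p - 2 - (A.erase w).card = 1 := by omega
  rw [hd] at hmem
  have hins : insert w (A.erase w) = A := Finset.insert_erase hw
  have hnot : w ∉ A.erase w := Finset.notMem_erase w A
  have hw0 : w ≠ 0 := fun h => h0 (h ▸ hw)
  have hww : w + w ≠ 0 := by
    intro h
    apply hw0
    have e1 : (2 : ZMod p) * w.1 = 0 := by
      have := congrArg Prod.fst h
      rw [Prod.fst_add, Prod.fst_zero] at this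
      rw [two_mul]
      exact this
    have e2 : (2 : ZMod p) * w.2 = 0 := by
      have := congrArg Prod.snd h
      rw [Prod.snd_add, Prod.snd_zero] at this
      rw [two_mul]
      exact this
    exact Prod.ext ((mul_eq_zero.1 e1).resolve_left (Cen_two h2))
      ((mul_eq_zero.1 e2).resolve_left (Cen_two h2))
  have hper : ∀ g, fc (A.erase w) (g + (w + w)) = fc (A.erase w) g := by
    intro g
    have h := hR2 (A.erase w) w hnot (g + w)
    rw [hins, hz, add_sub_cancel_right, add_assoc] at h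
    exact (sub_eq_zero.1 h.symm)
  obtain ⟨q, hq, hqe⟩ := (hL (p := p) 1 _ hmem).2 (w + w) hww hper
  have hform : ∀ x, q.eval x = q.coeff 0 + q.coeff 1 * x := by
    intro x
    rw [Polynomial.eval_eq_sum_range' (Nat.lt_succ_of_le hq) x, Finset.sum_range_succ,
      Finset.sum_range_one]
    ring
  -- the function is odd
  have hodd : fc (A.erase w) 0 = 0 := by
    have h := hR4 (A.erase w) 0
    rw [neg_zero, hcard] at h
    have ho : Odd (2 * p - 3) := ⟨p - 2, by omega⟩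
    rw [ho.neg_one_pow, neg_one_mul] at h
    have h3 : (2 : ZMod p) * fc (A.erase w) 0 = 0 := by
      rw [two_mul]
      nth_rewrite 1 [h]
      exact neg_add_cancel _
    exact (mul_eq_zero.1 h3).resolve_left (Cen_two h2)
  have hdt0 : dt (w + w) (0 : V p) = 0 := by
    unfold dt
    simp
  have hc0 : q.coeff 0 = 0 := by
    rw [hqe, hdt0, hform, mul_zero, add_zero] at hodd
    exact hodd
  have hc1 : q.coeff 1 ≠ 0 := by
    intro h
    obtain ⟨g, hg⟩ := hne
    apply hg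
    rw [hqe, hform, hc0, h, zero_mul, add_zero]
  -- the value at `g₀ + w`
  have hval : fc (A.erase w) (g₀ + w) = 0 := by
    by_contra hc
    apply hg₀
    rw [← hins, hR3 _ _ hnot]
    exact Or.inl (hR6 _ _ hc)
  rw [hqe, hform, hc0, zero_add] at hval
  have h4 := (mul_eq_zero.1 hval).resolve_left hc1
  have h5 : dt (w + w) (g₀ + w) = 2 * dt w g₀ := by
    unfold dt
    simp only [Prod.fst_add, Prod.snd_add]
    ring
  rw [h5] at h4
  exact (mul_eq_zero.1 h4).resolve_left (Cen_two h2)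

/-- (Cen) -/
theorem thm_Cen : St_Cen := by
  intro hR hP hL hD h0c p _ h2 A h0 hA g₀ hg₀
  have hp : 2 ≤ p := (Fact.out : p.Prime).two_le
  have hmem := hP (p := p) A (by omega)
  have hd : 2 * p - 2 - A.card = 0 := by omega
  rw [hd] at hmem
  have hz0 : fc A g₀ = 0 := by
    by_contra hc
    exact hg₀ ((hR (p := p)).2.2.2.2.2.1 A g₀ hc)
  have hz : ∀ g, fc A g = 0 := fun g => (h0c (p := p) _ hmem g g₀).trans hz0
  refine ⟨?_, hz⟩
  obtain ⟨W, hWA, hWp, hWn, hWc⟩ := hD h2 A h0 (by omega) hz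
  have hcard : 1 < W.card := by omega
  obtain ⟨w₁, hw₁, w₂, hw₂, hne⟩ := Finset.one_lt_card.1 hcard
  have e1 := Cen_dir hR hP hL h2 A h0 hA g₀ hg₀ hz w₁ (hWA hw₁) (hWn w₁ hw₁)
  have e2 := Cen_dir hR hP hL h2 A h0 hA g₀ hg₀ hz w₂ (hWA hw₂) (hWn w₂ hw₂)
  have hD := hWp w₁ hw₁ w₂ hw₂ hne
  have f1 : dt w₁ w₂ * g₀.1 = 0 := by
    have : dt w₁ w₂ * g₀.1 = w₂.1 * dt w₁ g₀ - w₁.1 * dt w₂ g₀ := by
      unfold dt
      ring
    rw [this, e1, e2, mul_zero, mul_zero, sub_zero]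
  have f2 : dt w₁ w₂ * g₀.2 = 0 := by
    have : dt w₁ w₂ * g₀.2 = w₂.2 * dt w₁ g₀ - w₁.2 * dt w₂ g₀ := by
      unfold dt
      ring
    rw [this, e1, e2, mul_zero, mul_zero, sub_zero]
  exact Prod.ext ((mul_eq_zero.1 f1).resolve_left hD) ((mul_eq_zero.1 f2).resolve_left hD)

end Pool.Agent.ZPP
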