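import Pool.Agent.ZPP.St

/-!
# Campaign ZPP: module Cub, an identity for cubic functions
-/

set_option autoImplicit false

open Finset Polynomial

namespace Pool.Agent.ZPP

/-- the algebra, in coordinates -/
private theorem Cub_alg {K : Type*} [Field K] (h2 : (2 : K) ≠ 0) (H : K → K → K)
    (k1 k2 k3 k4 k5 k6 α β : K)
    (hH : ∀ x y, H x y = k1 * x ^ 3 + k2 * x ^ 2 * y + k3 * x * y ^ 2 + k4 * y ^ 3 + k5 * x + k6 * y)
    (hα : α ≠ 0)
    (e1 : H (1 + α) (1 + β) = 0) (e2 : H (1 + α) (-1 + β) = 0)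
    (e3 : H (-1 + α) (1 + β) = 0) (e4 : H (-1 + α) (-1 + β) = 0)
    (dvw : ∀ x y, H (x + α) (y + 1 + β) - H (x - α) (y + 1 - β) - H (x + α) (y - 1 + β) +
      H (x - α) (y - 1 - β) = 0)
    (duw : ∀ x y, H (x + 1 + α) (y + β) - H (x + 1 - α) (y - β) - H (x - 1 + α) (y + β) +
      H (x - 1 - α) (y - β) = 0) :
    (k2 = 0 ∧ k3 = 0) ∨ β = α ∨ β = -α := by
  have h8 : (8 : K) ≠ 0 := by
    have : (8 : K) = 2 * (2 * 2) := by norm_num
    rw [this]
    exact mul_ne_zero h2 (mul_ne_zero h2 h2)
  have A1 : α * k2 + β * k3 = 0 := by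
    have h := dvw 1 0
    rw [hH, hH, hH, hH] at h
    have h' := dvw 0 0
    rw [hH, hH, hH, hH] at h'
    have : 8 * (α * k2 + β * k3) = 0 := by linear_combination h - h'
    exact (mul_eq_zero.1 this).resolve_left h8
  have A2 : α * k3 + 3 * β * k4 = 0 := by
    have h := dvw 0 1
    rw [hH, hH, hH, hH] at h
    have h' := dvw 0 0
    rw [hH, hH, hH, hH] at h'
    have : 8 * (α * k3 + 3 * β * k4) = 0 := by linear_combination h - h'
    exact (mul_eq_zero.1 this).resolve_left h8
  have A3 : β * k2 + 3 * α * k1 = 0 := by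
    have h := duw 1 0
    rw [hH, hH, hH, hH] at h
    have h' := duw 0 0
    rw [hH, hH, hH, hH] at h'
    have : 8 * (β * k2 + 3 * α * k1) = 0 := by linear_combination h - h'
    exact (mul_eq_zero.1 this).resolve_left h8
  rw [hH] at e1 e2 e3 e4
  have E : α * (1 - α ^ 2) * k1 + β * (1 - β ^ 2) * k4 = 0 := by
    have : 8 * (α * (1 - α ^ 2) * k1 + β * (1 - β ^ 2) * k4) = 0 := by
      linear_combination (1 - α - β) * e1 + (1 - α + β) * e2 + (1 + α - β) * e3 +
        (1 + α + β) * e4 + 8 * α * β * A1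
    exact (mul_eq_zero.1 this).resolve_left h8
  have hk : k3 * ((β - α) * (β + α)) = 0 := by
    linear_combination (3 * α) * E - α * (1 - α ^ 2) * A3 - α * (1 - β ^ 2) * A2 +
      β * (1 - α ^ 2) * A1
  rcases mul_eq_zero.1 hk with h | h
  · left
    refine ⟨?_, h⟩
    rw [h, mul_zero, add_zero] at A1
    exact (mul_eq_zero.1 A1).resolve_left hα
  · right
    rcases mul_eq_zero.1 h with h | h
    · left
      exact sub_eq_zero.1 h
    · right
      exact eq_neg_of_add_eq_zero_left h

theorem thm_Cub : St_Cub := by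
  intro hPfA p _ hp5 F hF hodd u v w huv huw hvw v1 v2 v3 v4 dvw duw _
  have h2 : (2 : ZMod p) ≠ 0 := by
    intro h
    have h' : ((2 : ℕ) : ZMod p) = 0 := by exact_mod_cast h
    rw [ZMod.natCast_eq_zero_iff] at h'
    have := Nat.le_of_dvd (by norm_num) h'
    omega
  obtain ⟨-, -, hc, -⟩ := hPfA (p := p) 3 3
  have hG := hc F hF u v 0
  obtain ⟨-, -, -, hd⟩ := hPfA (p := p) 3 3
  obtain ⟨c, hcc⟩ := hd _ hG
  set H : ZMod p → ZMod p → ZMod p := fun x y => F (x • u + y • v) with hHdef
  have hHc : ∀ x y, H x y = ∑ i ∈ range (3 + 1), ∑ j ∈ range (3 + 1 - i), c i j * x ^ i * y ^ j := by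
    intro x y
    have := hcc (x, y)
    simp only [add_zero] at this
    exact this
  have hHodd : ∀ x y, H (-x) (-y) = - H x y := by
    intro x y
    show F (-x • u + -y • v) = - F (x • u + y • v)
    rw [← hodd]
    congr 1
    rw [neg_smul, neg_smul, neg_add]
  have hH : ∀ x y, H x y = c 3 0 * x ^ 3 + c 2 1 * x ^ 2 * y + c 1 2 * x * y ^ 2 + c 0 3 * y ^ 3 +
      c 1 0 * x + c 0 1 * y := by
    intro x y
    have h1 := hHodd x y
    rw [hHc, hHc] at h1
    have h3 : 2 * H x y = 2 * (c 3 0 * x ^ 3 + c 2 1 * x ^ 2 * y + c 1 2 * x * y ^ 2 + c 0 3 * y ^ 3 +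
      c 1 0 * x + c 0 1 * y) := by
      rw [hHc]
      simp only [Finset.sum_range_succ, Finset.sum_range_zero, Nat.reduceAdd, Nat.reduceSub] at h1 ⊢
      linear_combination h1
    exact mul_left_cancel₀ h2 h3
  have hrep : ∀ g : V p, g = (dt g v / dt u v) • u + (dt u g / dt u v) • v := by
    intro g
    refine Prod.ext ?_ ?_
    · show g.1 = (dt g v / dt u v) * u.1 + (dt u g / dt u v) * v.1
      rw [div_mul_eq_mul_div, div_mul_eq_mul_div, ← add_div, eq_div_iff huv]
      unfold dt
      ring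
    · show g.2 = (dt g v / dt u v) * u.2 + (dt u g / dt u v) * v.2
      rw [div_mul_eq_mul_div, div_mul_eq_mul_div, ← add_div, eq_div_iff huv]
      unfold dt
      ring
  set α : ZMod p := dt w v / dt u v with hαdef
  set β : ZMod p := dt u w / dt u v with hβdef
  have hw : w = α • u + β • v := hrep w
  have hα : α ≠ 0 := by
    rw [hαdef]
    refine div_ne_zero ?_ huv
    intro h
    apply hvw
    unfold dt at h ⊢
    linear_combination -h
  have key : ∀ a b : ZMod p, ∀ g : V p, g = a • u + b • v → F g = H a b := by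
    intro a b g hg
    rw [hg]
  have hmain := Cub_alg h2 H (c 3 0) (c 2 1) (c 1 2) (c 0 3) (c 1 0) (c 0 1) α β hH hα
    (by rw [← key (1 + α) (1 + β) (u + v + w) (by rw [hw]; module)]; exact v1)
    (by rw [← key (1 + α) (-1 + β) (u - v + w) (by rw [hw]; module)]; exact v2)
    (by rw [← key (-1 + α) (1 + β) (-u + v + w) (by rw [hw]; module)]; exact v3)
    (by rw [← key (-1 + α) (-1 + β) (-u - v + w) (by rw [hw]; module)]; exact v4)
    (by
      intro x y
      have h := dvw (x • u + y • v)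
      rw [key (x + α) (y + 1 + β) _ (by rw [hw]; module),
        key (x - α) (y + 1 - β) _ (by rw [hw]; module),
        key (x + α) (y - 1 + β) _ (by rw [hw]; module),
        key (x - α) (y - 1 - β) _ (by rw [hw]; module)] at h
      exact h)
    (by
      intro x y
      have h := duw (x • u + y • v)
      rw [key (x + 1 + α) (y + β) _ (by rw [hw]; module),
        key (x + 1 - α) (y - β) _ (by rw [hw]; module),
        key (x - 1 + α) (y + β) _ (by rw [hw]; module),
        key (x - 1 - α) (y - β) _ (by rw [hw]; module)] at h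
      exact h)
  rcases hmain with ⟨hk2, hk3⟩ | h | h
  · left
    intro g
    set x : ZMod p := dt g v / dt u v
    set y : ZMod p := dt u g / dt u v
    have hg : g = x • u + y • v := hrep g
    rw [key (x + 1) (y + 1) _ (by rw [hg]; module), key (x + 1) (y - 1) _ (by rw [hg]; module),
      key (x - 1) (y + 1) _ (by rw [hg]; module), key (x - 1) (y - 1) _ (by rw [hg]; module),
      hH, hH, hH, hH, hk2, hk3]
    ring
  · right
    left
    rw [hw, h]
    unfold dt
    simp only [Prod.fst_add, Prod.snd_add, Prod.smul_fst, Prod.smul_snd, smul_eq_mul]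
    ring
  · right
    right
    rw [hw, h]
    unfold dt
    simp only [Prod.fst_add, Prod.snd_add, Prod.fst_sub, Prod.snd_sub, Prod.smul_fst, Prod.smul_snd, smul_eq_mul]
    ring

end Pool.Agent.ZPP
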