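import Pool.Agent.ZPP.St

/-!
# ZPP, module Dir: many directions whose removal makes the function nonzero
-/

set_option autoImplicit false

open Finset Polynomial

namespace Pool.Agent.ZPP

section aux

variable {p : ℕ} [Fact p.Prime]

theorem Dir_swap (a b : V p) : dt a b = - dt b a := by
  unfold dt
  ring

theorem Dir_zero_comm {a b : V p} (h : dt a b = 0) : dt b a = 0 := by
  rw [Dir_swap, h, neg_zero]

/-- every nonzero vector has a complement -/
theorem Dir_compl (m : V p) (hm : m ≠ 0) : ∃ m' : V p, dt m m' ≠ 0 := by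
  by_cases h : m.1 = 0
  · refine ⟨(1, 0), ?_⟩
    have h2 : m.2 ≠ 0 := fun h2 => hm (Prod.ext h h2)
    unfold dt
    simpa [h] using h2
  · refine ⟨(0, 1), ?_⟩
    unfold dt
    simpa using h

/-- the normal form of a direction -/
def Dir_nf (a : V p) : V p := if a.1 = 0 then (0, 1) else (1, a.2 / a.1)

theorem Dir_nf_iff (a b : V p) (ha : a ≠ 0) (hb : b ≠ 0) : Dir_nf a = Dir_nf b ↔ dt a b = 0 := by
  unfold Dir_nf dt
  by_cases h1 : a.1 = 0
  · have h2 : a.2 ≠ 0 := fun h2 => ha (Prod.ext h1 h2)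
    by_cases h3 : b.1 = 0
    · simp [h1, h3]
    · simp [h1, h3, h2]
  · by_cases h3 : b.1 = 0
    · have h4 : b.2 ≠ 0 := fun h4 => hb (Prod.ext h3 h4)
      simp [h1, h3, h4]
    · rw [if_neg h1, if_neg h3, Prod.mk.injEq, div_eq_div_iff h1 h3]
      constructor
      · rintro ⟨-, h⟩
        linear_combination -h
      · intro h
        exact ⟨rfl, by linear_combination -h⟩

/-- the set of the normal forms -/
def Dir_R (p : ℕ) [Fact p.Prime] : Finset (V p) :=
  insert (0, 1) ((univ : Finset (ZMod p)).image fun c => ((1 : ZMod p), c))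

theorem Dir_R_card : (Dir_R p).card = p + 1 := by
  unfold Dir_R
  rw [card_insert_of_notMem, card_image_of_injective, card_univ, ZMod.card]
  · intro a b h
    exact (Prod.mk.inj h).2
  · intro h
    obtain ⟨c, _, hc⟩ := mem_image.1 h
    exact one_ne_zero (Prod.mk.inj hc).1

theorem Dir_nf_mem (a : V p) : Dir_nf a ∈ Dir_R p := by
  unfold Dir_nf Dir_R
  split_ifs with h
  · exact mem_insert_self _ _
  · exact mem_insert_of_mem (mem_image.2 ⟨_, mem_univ _, rfl⟩)

theorem Dir_R_ne {r : V p} (hr : r ∈ Dir_R p) : r ≠ 0 := by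
  unfold Dir_R at hr
  rintro rfl
  rcases mem_insert.1 hr with h | h
  · exact one_ne_zero (Prod.mk.inj h).2.symm
  · obtain ⟨c, _, hc⟩ := mem_image.1 h
    exact one_ne_zero (Prod.mk.inj hc).1

theorem Dir_nf_self {r : V p} (hr : r ∈ Dir_R p) : Dir_nf r = r := by
  unfold Dir_R at hr
  rcases mem_insert.1 hr with h | h
  · subst h
    unfold Dir_nf
    rw [if_pos rfl]
  · obtain ⟨c, _, hc⟩ := mem_image.1 h
    subst hc
    unfold Dir_nf
    rw [if_neg one_ne_zero, div_one]

/-- the elements which are alone in their direction -/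
theorem Dir_count (A : Finset (V p)) (h0 : (0 : V p) ∉ A)
    (hall : ∀ m : V p, m ≠ 0 → ∃ a ∈ A, dt m a = 0) :
    2 * p + 2 ≤ (A.filter fun w => ∀ a ∈ A, dt w a = 0 → a = w).card + A.card := by
  classical
  set W := A.filter fun w => ∀ a ∈ A, dt w a = 0 → a = w with hW
  have hne : ∀ a ∈ A, a ≠ 0 := fun a ha h => h0 (h ▸ ha)
  have h1 := card_eq_sum_card_fiberwise (s := A) (t := Dir_R p) (f := Dir_nf)
    fun x _ => Dir_nf_mem x
  have h2 := card_eq_sum_card_fiberwise (s := W) (t := Dir_R p) (f := Dir_nf)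
    fun x _ => Dir_nf_mem x
  rw [h1, h2, ← sum_add_distrib]
  have h3 : ∀ r ∈ Dir_R p, 2 ≤ (W.filter fun a => Dir_nf a = r).card +
      (A.filter fun a => Dir_nf a = r).card := by
    intro r hr
    obtain ⟨a, ha, hra⟩ := hall r (Dir_R_ne hr)
    have har : Dir_nf a = r := by
      rw [← Dir_nf_self hr]
      exact (Dir_nf_iff a r (hne a ha) (Dir_R_ne hr)).2 (Dir_zero_comm hra)
    have ham : a ∈ A.filter fun a => Dir_nf a = r := mem_filter.2 ⟨ha, har⟩
    have hpos : 1 ≤ (A.filter fun a => Dir_nf a = r).card := card_pos.2 ⟨a, ham⟩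
    by_cases hc : 2 ≤ (A.filter fun a => Dir_nf a = r).card
    · omega
    · have hc1 : (A.filter fun a => Dir_nf a = r).card = 1 := by omega
      obtain ⟨b, hb⟩ := card_eq_one.1 hc1
      have hab : a = b := by
        rw [hb] at ham
        exact mem_singleton.1 ham
      have haW : a ∈ W.filter fun a => Dir_nf a = r := by
        refine mem_filter.2 ⟨mem_filter.2 ⟨ha, fun a' ha' h => ?_⟩, har⟩
        have h4 : Dir_nf a' = r := by
          rw [← har]
          exact (Dir_nf_iff a' a (hne a' ha') (hne a ha)).2 (Dir_zero_comm h)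
        have h5 : a' ∈ A.filter fun a => Dir_nf a = r := mem_filter.2 ⟨ha', h4⟩
        rw [hb] at h5
        rw [mem_singleton.1 h5, hab]
      have hposW : 1 ≤ (W.filter fun a => Dir_nf a = r).card := card_pos.2 ⟨a, haW⟩
      omega
  have h4 := sum_le_sum h3
  rw [sum_const, Dir_R_card, smul_eq_mul] at h4
  omega

/-- `Ro` if no element is removed -/
theorem Dir_Ro (m m' : V p) (S : Finset (V p)) (h : ∀ a ∈ S, dt m a ≠ 0) :
    Ro m m' S = S.val.map fun a => - dt m' a / dt m a := by
  unfold Ro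
  rw [filter_true_of_mem h]

theorem Dir_Ro_card (m m' : V p) (S : Finset (V p)) (h : ∀ a ∈ S, dt m a ≠ 0) :
    (Ro m m' S).card = S.card := by
  rw [Dir_Ro m m' S h, Multiset.card_map]
  rfl

theorem Dir_gap {t : ℕ} {κ : ZMod p} {f : (ZMod p)[X]} (hκ : κ ≠ 0) (h : Gap p t (C κ * f)) :
    Gap p t f := by
  intro i h1 h2
  have h3 := h i h1 h2
  rw [coeff_C_mul] at h3
  exact (mul_eq_zero.1 h3).resolve_left hκ

end aux

theorem thm_Dir : St_Dir := by
  classical
  intro hNz hWr hGp hAl hPl p _ hp2 A h0 hcard hfc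
  have hne : ∀ a ∈ A, a ≠ 0 := fun a ha h => h0 (h ▸ ha)
  by_cases hcase : ∃ m : V p, m ≠ 0 ∧ ∀ a ∈ A, dt m a ≠ 0
  · obtain ⟨m, hm, hmA⟩ := hcase
    obtain ⟨m', hmm⟩ := Dir_compl m hm
    obtain ⟨⟨κ, hκ, hPlA⟩, -, hcnt, hroot⟩ := hPl m m' A hmm h0
    have hMc := Dir_Ro_card m m' A hmA
    have hG : Gap p (Ro m m' A).card (Pm (Ro m m' A)) := by
      rw [hMc]
      refine Dir_gap hκ ?_
      rw [← hPlA]
      exact hNz hp2 m m' A hfc
    obtain ⟨W₀, hW₀, hW₀c⟩ := hGp hWr (Ro m m' A) hcnt (by rw [hMc]; exact hcard) hG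
    have hch : ∀ c ∈ W₀, ∃ a ∈ A, - dt m' a / dt m a = c := by
      intro c hc
      have h1 := (hW₀ c hc).1
      rw [Dir_Ro m m' A hmA] at h1
      obtain ⟨a, ha, hac⟩ := Multiset.mem_map.1 h1
      exact ⟨a, ha, hac⟩
    choose! α hα hαc using hch
    refine ⟨W₀.image α, ?_, ?_, ?_, ?_⟩
    · intro w hw
      obtain ⟨c, hc, rfl⟩ := mem_image.1 hw
      exact hα c hc
    · intro w hw w' hw' hww h
      obtain ⟨c, hc, rfl⟩ := mem_image.1 hw
      obtain ⟨c', hc', rfl⟩ := mem_image.1 hw'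
      have h1 := (hroot (α c) (α c') (hmA _ (hα c hc)) (hmA _ (hα c' hc'))).2 h
      rw [hαc c hc, hαc c' hc'] at h1
      exact hww (by rw [h1])
    · intro w hw
      obtain ⟨c, hc, rfl⟩ := mem_image.1 hw
      by_contra hcon
      push Not at hcon
      have hmE : ∀ a ∈ A.erase (α c), dt m a ≠ 0 := fun a ha => hmA a (mem_of_mem_erase ha)
      have h0E : (0 : V p) ∉ A.erase (α c) := fun h => h0 (mem_of_mem_erase h)
      obtain ⟨⟨κ', hκ', hPlE⟩, -, -, -⟩ := hPl m m' (A.erase (α c)) hmm h0E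
      have h1 := hNz hp2 m m' (A.erase (α c)) hcon
      rw [hPlE] at h1
      have h2 := Dir_gap hκ' h1
      have h3 : Ro m m' (A.erase (α c)) = (Ro m m' A).erase c := by
        rw [Dir_Ro m m' _ hmE, Dir_Ro m m' A hmA, erase_val,
          Multiset.map_erase_of_mem _ _ (hα c hc), hαc c hc]
      rw [h3, card_erase_of_mem (hα c hc), ← hMc] at h2
      exact (hW₀ c hc).2 h2
    · rw [card_image_of_injOn, ← hMc]
      · exact hW₀c
      · intro c hc c' hc' h
        rw [← hαc c hc, ← hαc c' hc', h]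
  · push Not at hcase
    refine ⟨A.filter fun w => ∀ a ∈ A, dt w a = 0 → a = w, filter_subset _ _, ?_, ?_,
      Dir_count A h0 hcase⟩
    · intro w hw w' hw' hww h
      exact hww ((mem_filter.1 hw).2 w' (mem_filter.1 hw').1 h).symm
    · intro w hw
      obtain ⟨hwA, hwu⟩ := mem_filter.1 hw
      by_contra hcon
      push Not at hcon
      obtain ⟨w', hww⟩ := Dir_compl w (hne w hwA)
      have hE : ∀ a ∈ A.erase w, dt w a ≠ 0 := by
        intro a ha h
        exact (mem_erase.1 ha).1 (hwu a (mem_erase.1 ha).2 h)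
      have h0E : (0 : V p) ∉ A.erase w := fun h => h0 (mem_of_mem_erase h)
      obtain ⟨⟨κ, hκ, hPlE⟩, hroot, -, -⟩ := hPl w w' (A.erase w) hww h0E
      have h1 := hNz hp2 w w' (A.erase w) hcon
      rw [hPlE] at h1
      have h2 := Dir_gap hκ h1
      have hRc := Dir_Ro_card w w' (A.erase w) hE
      rw [← hRc] at h2
      refine (hAl (Ro w w' (A.erase w))).1 ?_ ?_ h2
      · intro c
        have h3 : w' + c • w ≠ 0 := by
          intro h3
          apply hww
          have h4 : w' = - (c • w) := eq_neg_of_add_eq_zero_left h3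
          rw [h4]
          unfold dt
          simp only [Prod.fst_neg, Prod.snd_neg, Prod.smul_fst, Prod.smul_snd, smul_eq_mul]
          ring
        obtain ⟨a, ha, h4⟩ := hcase _ h3
        have h5 : a ≠ w := by
          rintro rfl
          apply hww
          have h6 : dt (w' + c • a) a = - dt a w' := by
            unfold dt
            simp only [Prod.fst_add, Prod.snd_add, Prod.smul_fst, Prod.smul_snd, smul_eq_mul]
            ring
          rw [h6] at h4
          exact neg_eq_zero.1 h4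
        have h6 : a ∈ A.erase w := mem_erase.2 ⟨h5, ha⟩
        rw [Dir_Ro _ _ _ hE]
        exact Multiset.mem_map.2 ⟨a, h6, (hroot a c (hE a h6)).2 h4⟩
      · rw [hRc, card_erase_of_mem hwA]
        omega

end Pool.Agent.ZPP
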