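import Pool.Agent.ZPP.St

/-!
# [ZPP Fin] `t = 2 p - 2`: everything is a sum (MP_ec93d3_co)
-/

set_option autoImplicit false

open Finset Polynomial

namespace Pool.Agent.ZPP

private theorem Fin_par {p : ℕ} [Fact p.Prime] {w w' x : V p} (hx : x ≠ 0) (h : dt w x = 0)
    (h' : dt w' x = 0) : dt w w' = 0 := by
  unfold dt at *
  have h1 : (w.1 * w'.2 - w.2 * w'.1) * x.1 = 0 := by
    linear_combination w'.1 * h - w.1 * h'
  have h2 : (w.1 * w'.2 - w.2 * w'.1) * x.2 = 0 := by
    linear_combination w'.2 * h - w.2 * h'
  by_contra h3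
  apply hx
  have e1 : x.1 = 0 := (mul_eq_zero.1 h1).resolve_left h3
  have e2 : x.2 = 0 := (mul_eq_zero.1 h2).resolve_left h3
  exact Prod.ext e1 e2

private theorem Fin_neg {p : ℕ} (a b : V p) : dt a (-b) = - dt a b := by
  unfold dt
  simp only [Prod.fst_neg, Prod.snd_neg]
  ring

private theorem Fin_self {p : ℕ} (a : V p) : dt a a = 0 := by
  unfold dt
  ring

private theorem Fin_lin {p : ℕ} (a b x : V p) (c : ZMod p) : dt (a + c • b) x = dt a x + c * dt b x := by
  unfold dt
  simp only [Prod.fst_add, Prod.snd_add, Prod.smul_fst, Prod.smul_snd, smul_eq_mul]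
  ring

/-- pairwise nonparallel vectors -/
private theorem Fin_dir {p : ℕ} [Fact p.Prime] (T : Finset (V p)) (_h0 : (0 : V p) ∉ T)
    (h : ∀ a ∈ T, ∀ b ∈ T, dt a b = 0 → a = b) : T.card ≤ p + 1 := by
  have h1 : T.card ≤ (univ : Finset (Option (ZMod p))).card := by
    apply card_le_card_of_injOn (fun a => if a.1 = 0 then none else some (a.2 / a.1))
      (fun a _ => mem_coe.2 (mem_univ _))
    intro a ha b hb hab
    apply h a ha b hb
    have hab' : (if a.1 = 0 then none else some (a.2 / a.1)) =
        (if b.1 = 0 then none else some (b.2 / b.1)) := hab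
    unfold dt
    by_cases e1 : a.1 = 0
    · by_cases e2 : b.1 = 0
      · rw [e1, e2]
        ring
      · rw [if_pos e1, if_neg e2] at hab'
        exact absurd hab'.symm (Option.some_ne_none _)
    · by_cases e2 : b.1 = 0
      · rw [if_neg e1, if_pos e2] at hab'
        exact absurd hab' (Option.some_ne_none _)
      · rw [if_neg e1, if_neg e2] at hab'
        have e3 := Option.some.inj hab'
        rw [div_eq_div_iff e1 e2] at e3
        linear_combination -e3
  rwa [card_univ, Fintype.card_option, ZMod.card] at h1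

private theorem Fin_gap {p t : ℕ} [Fact p.Prime] {κ : ZMod p} (hκ : κ ≠ 0) (f : (ZMod p)[X]) :
    Gap p t (C κ * f) ↔ Gap p t f := by
  unfold Gap
  constructor
  · intro h i h1 h2
    have := h i h1 h2
    rw [coeff_C_mul] at this
    exact (mul_eq_zero.1 this).resolve_left hκ
  · intro h i h1 h2
    rw [coeff_C_mul, h i h1 h2, mul_zero]

private theorem Fin_negne {p : ℕ} [Fact p.Prime] (hp : 5 ≤ p) {u : V p} (hu : u ≠ 0) : u ≠ -u := by
  intro h
  apply hu
  have h2 : (2 : ZMod p) ≠ 0 := by
    intro h3
    have h4 : ((2 : ℕ) : ZMod p) = 0 := by exact_mod_cast h3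
    rw [ZMod.natCast_eq_zero_iff] at h4
    have := Nat.le_of_dvd (by omega) h4
    omega
  have h3 : u.1 = -u.1 := congrArg Prod.fst h
  have h4 : u.2 = -u.2 := congrArg Prod.snd h
  have e1 : 2 * u.1 = 0 := by linear_combination h3
  have e2 : 2 * u.2 = 0 := by linear_combination h4
  exact Prod.ext ((mul_eq_zero.1 e1).resolve_left h2) ((mul_eq_zero.1 e2).resolve_left h2)

theorem thm_Fin : St_Fin := by
  intro hRec hNz hAl hPl hDir hCen hAlp hBet p _ hp A h0 hA g
  by_contra hg
  have hp2 : p ≠ 2 := by omega
  obtain ⟨rfl, hfc⟩ := hCen hp2 A h0 hA g hg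
  obtain ⟨W, hWA, hW1, hW2, hW3⟩ := hDir hp2 A h0 (le_of_eq hA) hfc
  have alp := hAlp hp A h0 hA hg hfc
  have hne : ∀ a ∈ A, a ≠ 0 := by
    rintro a ha rfl
    exact h0 ha
  by_cases hc : ∃ m : V p, m ≠ 0 ∧ ∀ a ∈ A, dt m a ≠ 0
  · -- case 1
    obtain ⟨m, hm0, hm⟩ := hc
    obtain ⟨m', hm'⟩ : ∃ m' : V p, dt m m' ≠ 0 := by
      by_contra h
      push Not at h
      have e1 := h (0, 1)
      have e2 := h (1, 0)
      unfold dt at e1 e2
      apply hm0
      apply Prod.ext
      · show m.1 = 0
        linear_combination e1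
      · show m.2 = 0
        linear_combination -e2
    obtain ⟨⟨κ, hκ, hPlk⟩, -, -, hPl4⟩ := hPl m m' A hm' h0
    have hG := (hNz hp2).1 m m' A hfc
    rw [hPlk, Fin_gap hκ] at hG
    have hf : (A.filter fun a => dt m a ≠ 0) = A := by
      rw [filter_eq_self]
      exact hm
    have hcard : (Ro m m' A).card = A.card := by
      unfold Ro
      rw [hf, Multiset.card_map]
      rfl
    rw [← hcard] at hG
    apply (hAl (Ro m m' A)).2.2 hp2 _ (by rw [hcard, hA]) hG
    intro c
    unfold Ro
    rw [hf, Multiset.count_map]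
    have h1 : (A.filter fun a => c = - dt m' a / dt m a).card ≤ 2 := by
      rcases (A.filter fun a => c = - dt m' a / dt m a).eq_empty_or_nonempty with h | ⟨a0, ha0⟩
      · rw [h]
        simp
      · rw [mem_filter] at ha0
        have h2 : (A.filter fun a => c = - dt m' a / dt m a) ⊆ {a0, -a0} := by
          intro a ha
          rw [mem_filter] at ha
          rw [mem_insert, mem_singleton]
          apply alp a0 ha0.1 a ha.1
          rw [← hPl4 a0 a (hm a0 ha0.1) (hm a ha.1), ← ha0.2, ← ha.2]
        exact (card_le_card h2).trans card_le_two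
    exact h1
  · -- case 2
    have hc' : ∀ m : V p, m ≠ 0 → ∃ a ∈ A, dt m a = 0 := by
      intro m hm
      by_contra h
      apply hc
      refine ⟨m, hm, fun a ha h1 => h ⟨a, ha, h1⟩⟩
    -- `u`, `v`
    obtain ⟨u, v, hu, hv, hu', hv', huv⟩ : ∃ u v : V p, u ∈ A ∧ v ∈ A ∧ -u ∈ A ∧ -v ∈ A ∧
        dt u v ≠ 0 := by
      by_contra h
      have hB : ∀ u v : V p, u ∈ A → v ∈ A → -u ∈ A → -v ∈ A → dt u v = 0 := by
        intro u v h1 h2 h3 h4
        by_contra h5
        exact h ⟨u, v, h1, h2, h3, h4, h5⟩
      by_cases hBe : ∃ u, u ∈ A ∧ -u ∈ A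
      · obtain ⟨u, hu, hu'⟩ := hBe
        have h1 := Fin_dir (A.erase (-u)) (fun h1 => h0 (mem_of_mem_erase h1)) (by
          intro a ha b hb hab
          rw [mem_erase] at ha hb
          rcases alp a ha.2 b hb.2 hab with h1 | h1
          · exact h1.symm
          · exfalso
            have h2 : -a ∈ A := by
              rw [← h1]
              exact hb.2
            have h3 := hB u a hu ha.2 hu' h2
            rcases alp u hu a ha.2 h3 with h4 | h4
            · apply hb.1
              rw [h1, h4]
            · exact ha.1 h4)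
        rw [card_erase_of_mem hu', hA] at h1
        omega
      · have h1 := Fin_dir A h0 (by
          intro a ha b hb hab
          rcases alp a ha b hb hab with h1 | h1
          · exact h1.symm
          · exfalso
            apply hBe
            refine ⟨a, ha, ?_⟩
            rw [← h1]
            exact hb)
        rw [hA] at h1
        omega
    -- `fc (A.erase u) = 0`
    have hz : ∀ u : V p, u ∈ A → -u ∈ A → ∀ g, fc (A.erase u) g = 0 := by
      intro u hu hu'
      have hune := Fin_negne hp (hne u hu)
      have hmeet : ∀ m : V p, m ≠ 0 → ∃ a ∈ A.erase u, dt m a = 0 := by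
        intro m hm
        obtain ⟨a, ha, ha'⟩ := hc' m hm
        by_cases h : a = u
        · refine ⟨-u, mem_erase.2 ⟨hune.symm, hu'⟩, ?_⟩
          rw [Fin_neg, ← h, ha', neg_zero]
        · exact ⟨a, mem_erase.2 ⟨h, ha⟩, ha'⟩
      have h0' : (0 : V p) ∉ A.erase u := fun h1 => h0 (mem_of_mem_erase h1)
      have hSc : (A.erase u).card = 2 * p - 3 := by
        rw [card_erase_of_mem hu, hA]
        omega
      have hdt : dt ((0, -1) : V p) (1, 0) ≠ 0 := by
        unfold dt
        simp
      obtain ⟨⟨κ, hκ, hPlk⟩, hPl2, -, -⟩ := hPl (0, -1) (1, 0) (A.erase u) hdt h0'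
      apply (hNz hp2).2 (A.erase u) hSc
      rw [hPlk, Fin_gap hκ, hSc]
      apply (hAl _).2.1
      · intro c
        have hm : (((1, 0) : V p) + c • ((0, -1) : V p)) ≠ 0 := by
          intro h
          have h1 := congrArg Prod.fst h
          simp at h1
        obtain ⟨a, ha, ha'⟩ := hmeet _ hm
        have h1 : dt ((0, -1) : V p) a ≠ 0 := by
          intro h2
          rw [Fin_lin, h2, mul_zero, add_zero] at ha'
          apply h0'
          have h3 : a = 0 := by
            unfold dt at h2 ha'
            simp only at h2 ha'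
            apply Prod.ext
            · show a.1 = 0
              linear_combination h2
            · show a.2 = 0
              linear_combination ha'
          rw [← h3]
          exact ha
        have h2 := (hPl2 a c h1).2 ha'
        unfold Ro
        rw [Multiset.mem_map]
        exact ⟨a, mem_filter.2 ⟨ha, h1⟩, h2⟩
      · obtain ⟨a, ha, ha'⟩ := hmeet ((0, -1) : V p) (by
          intro h
          have h1 := congrArg Prod.snd h
          simp at h1)
        have h1 : (Ro ((0, -1) : V p) (1, 0) (A.erase u)).card =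
            ((A.erase u).filter fun a => dt ((0, -1) : V p) a ≠ 0).card := by
          unfold Ro
          rw [Multiset.card_map]
          rfl
        have h2 : ((A.erase u).filter fun a => dt ((0, -1) : V p) a ≠ 0) ⊆ (A.erase u).erase a := by
          intro b hb
          rw [mem_filter] at hb
          rw [mem_erase]
          refine ⟨?_, hb.1⟩
          rintro rfl
          exact hb.2 ha'
        have h3 := card_le_card h2
        rw [card_erase_of_mem ha, hSc] at h3
        rw [h1]
        omega
    have hzu := hz u hu hu'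
    have hzv := hz v hv hv'
    have hdw : ∀ x : V p, x ∈ A → -x ∈ A → ∀ w ∈ W, dt x w ≠ 0 := by
      intro x hx hx' w hw h
      obtain ⟨g, hg'⟩ := hW2 w hw
      rcases alp x hx w (hWA hw) h with h1 | h1
      · rw [h1] at hg'
        exact hg' (hz x hx hx' g)
      · rw [h1, (hRec (p := p)).2.2.2.2.2.2.2 A x hx hx' (Fin_negne hp (hne x hx)), hz x hx hx' g,
          neg_zero] at hg'
        exact hg' rfl
    have hbet : ∀ w ∈ W, dt w (u + v) = 0 ∨ dt w (u - v) = 0 := fun w hw =>
      hBet hp A hA hg hfc u hu v hv w (hWA hw) huv (hdw u hu hu' w hw) (hdw v hv hv' w hw) hzu hzv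
        (hW2 w hw)
    have hup : u + v ≠ 0 := by
      intro h
      apply huv
      have h1 : v = -u := by
        rw [← sub_eq_zero, sub_neg_eq_add, add_comm]
        exact h
      rw [h1, Fin_neg, Fin_self, neg_zero]
    have hum : u - v ≠ 0 := by
      intro h
      apply huv
      have h1 : u = v := sub_eq_zero.1 h
      rw [h1, Fin_self]
    have hone : ∀ x : V p, x ≠ 0 → (W.filter fun w => dt w x = 0).card ≤ 1 := by
      intro x hx
      rw [card_le_one]
      intro a ha b hb
      rw [mem_filter] at ha hb
      by_contra hab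
      exact hW1 a ha.1 b hb.1 hab (Fin_par hx ha.2 hb.2)
    have h1 : W ⊆ (W.filter fun w => dt w (u + v) = 0) ∪ (W.filter fun w => dt w (u - v) = 0) := by
      intro w hw
      rw [mem_union, mem_filter, mem_filter]
      rcases hbet w hw with h | h
      · exact Or.inl ⟨hw, h⟩
      · exact Or.inr ⟨hw, h⟩
    have h2 := (card_le_card h1).trans (card_union_le _ _)
    have h3 := hone _ hup
    have h4 := hone _ hum
    omega

end Pool.Agent.ZPP
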