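import Pool.Agent.ZPP.St

set_option autoImplicit false

open Finset Polynomial

namespace Pool.Agent.ZPP

private lemma Gp_low {p : ℕ} [Fact p.Prime] (f : (ZMod p)[X]) (i : ℕ) (hi : i < p) :
    (f %ₘ (X ^ p)).coeff i = f.coeff i := by
  have h := modByMonic_add_div f (X ^ p : (ZMod p)[X])
  have h2 := congrArg (fun q : (ZMod p)[X] => q.coeff i) h
  simp only [coeff_add, coeff_X_pow_mul'] at h2
  rw [if_neg (by omega)] at h2
  simpa using h2

private lemma Gp_high {p : ℕ} [Fact p.Prime] (f : (ZMod p)[X]) (i : ℕ) (hi : p ≤ i) :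
    (f %ₘ (X ^ p)).coeff i = 0 := by
  have hm : (X ^ p : (ZMod p)[X]).Monic := monic_X_pow p
  have h := degree_modByMonic_lt f hm
  apply coeff_eq_zero_of_degree_lt
  refine lt_of_lt_of_le h ?_
  rw [degree_X_pow]
  exact_mod_cast hi

private lemma Gp_deg {p : ℕ} [Fact p.Prime] (t : ℕ) (f : (ZMod p)[X]) (ht : p ≤ t)
    (hf : Gap p t f) : (f %ₘ (X ^ p)).natDegree ≤ t - p := by
  rw [natDegree_le_iff_coeff_eq_zero]
  intro i hi
  by_cases h : i < p
  · rw [Gp_low f i h]
    exact hf i h (by omega)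
  · exact Gp_high f i (by omega)

private lemma Gp_mul {p : ℕ} [Fact p.Prime] (t s : ℕ) (f q : (ZMod p)[X]) (ht : p ≤ t)
    (hf : Gap p t f) (hq : q.natDegree ≤ s) (hts : t + s < 2 * p) :
    (f * q) /ₘ (X ^ p) = (f /ₘ (X ^ p)) * q ∧ (f * q) %ₘ (X ^ p) = (f %ₘ (X ^ p)) * q := by
  have hm : (X ^ p : (ZMod p)[X]).Monic := monic_X_pow p
  refine div_modByMonic_unique _ _ hm ⟨?_, ?_⟩
  · have h := modByMonic_add_div f (X ^ p : (ZMod p)[X])
    calc f %ₘ X ^ p * q + X ^ p * (f /ₘ X ^ p * q)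
        = (f %ₘ X ^ p + X ^ p * (f /ₘ X ^ p)) * q := by ring
      _ = f * q := by rw [h]
  · rw [degree_X_pow]
    have h1 := Gp_deg t f ht hf
    have h2 : ((f %ₘ (X ^ p)) * q).natDegree ≤ (t - p) + s :=
      natDegree_mul_le.trans (Nat.add_le_add h1 hq)
    refine lt_of_le_of_lt degree_le_natDegree ?_
    have : ((f %ₘ (X ^ p)) * q).natDegree < p := by omega
    exact_mod_cast this

private lemma Gp_monic {p : ℕ} [Fact p.Prime] (M : Multiset (ZMod p)) : (Pm M).Monic :=
  monic_multiset_prod_of_monic M _ (fun c _ => monic_X_sub_C c)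

private lemma Gp_card {p : ℕ} [Fact p.Prime] (M : Multiset (ZMod p)) :
    (Pm M).natDegree = M.card := by
  unfold Pm
  exact natDegree_multiset_prod_X_sub_C_eq_card M

private lemma Gp_ge {p : ℕ} [Fact p.Prime] (M : Multiset (ZMod p)) (h : Gap p M.card (Pm M)) :
    p ≤ M.card := by
  by_contra hc
  push Not at hc
  have hp : 0 < p := (Fact.out : p.Prime).pos
  have h1 := h M.card hc (by omega)
  have h2 := (Gp_monic M).coeff_natDegree
  rw [Gp_card] at h2
  rw [h1] at h2
  exact zero_ne_one h2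

private lemma Gp_erase {p : ℕ} [Fact p.Prime] (M : Multiset (ZMod p)) (c : ZMod p) (hc : c ∈ M) :
    Pm M = Pm (M.erase c) * (X - C c) := by
  conv_lhs => rw [← Multiset.cons_erase hc]
  unfold Pm
  rw [Multiset.map_cons, Multiset.prod_cons, mul_comm]

private lemma Gp_add {p : ℕ} [Fact p.Prime] (M N : Multiset (ZMod p)) :
    Pm (M + N) = Pm M * Pm N := by
  unfold Pm
  rw [Multiset.map_add, Multiset.prod_add]

private lemma Gp_ndvd {p : ℕ} [Fact p.Prime] (E : Multiset (ZMod p)) (c : ZMod p) (hc : c ∉ E) :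
    ¬ (X - C c) ∣ Pm E := by
  intro h
  rw [dvd_iff_isRoot, IsRoot.def] at h
  unfold Pm at h
  rw [eval_multiset_prod, Multiset.prod_eq_zero_iff] at h
  rw [Multiset.map_map, Multiset.mem_map] at h
  obtain ⟨a, ha, h0⟩ := h
  simp only [Function.comp, eval_sub, eval_X, eval_C] at h0
  rw [sub_eq_zero] at h0
  exact hc (h0 ▸ ha)

theorem thm_Gp : St_Gp := by
  intro hWr p _ M hcnt hcard hgap
  classical
  have hp2 : 2 ≤ p := (Fact.out : p.Prime).two_le
  -- minimal sub-multiset
  let P : ℕ → Prop := fun n => ∃ N : Multiset (ZMod p), N ≤ M ∧ N.card = n ∧ Gap p N.card (Pm N)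
  have hex : ∃ n, P n := ⟨M.card, M, le_refl _, rfl, hgap⟩
  obtain ⟨N, hNM, hNc, hNg⟩ := Nat.find_spec hex
  have hmin : ∀ N' : Multiset (ZMod p), N' ≤ M → N'.card < N.card → ¬ Gap p N'.card (Pm N') := by
    intro N' h1 h2 h3
    rw [hNc] at h2
    exact Nat.find_min hex h2 ⟨N', h1, rfl, h3⟩
  obtain ⟨E, hE⟩ := Multiset.le_iff_exists_add.mp hNM
  have hcardM : M.card = N.card + E.card := by rw [hE, Multiset.card_add]
  have hNge : p ≤ N.card := Gp_ge N hNg
  have hwr := hWr N (fun c => (Multiset.count_le_of_le c hNM).trans (hcnt c)) (by omega) hNg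
  have hNt : N.toFinset.card ≤ p := by
    calc N.toFinset.card ≤ (univ : Finset (ZMod p)).card := card_le_card (subset_univ _)
      _ = p := by rw [card_univ, ZMod.card]
  refine ⟨N.toFinset \ E.toFinset, ?_, ?_⟩
  · intro c hc
    rw [mem_sdiff, Multiset.mem_toFinset, Multiset.mem_toFinset] at hc
    obtain ⟨hcN, hcE⟩ := hc
    have hcM : c ∈ M := Multiset.mem_of_le hNM hcN
    refine ⟨hcM, fun hG => ?_⟩
    have hprime : Prime (X - C c : (ZMod p)[X]) := prime_X_sub_C c
    have e1 : Pm M = Pm N * Pm E := by rw [hE, Gp_add]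
    have e2 : Pm M = Pm (M.erase c) * (X - C c) := Gp_erase M c hcM
    obtain ⟨d1, m1⟩ := Gp_mul N.card E.card (Pm N) (Pm E) hNge hNg (Gp_card E).le (by omega)
    obtain ⟨d2, m2⟩ := Gp_mul (M.card - 1) 1 (Pm (M.erase c)) (X - C c) (by omega) hG
      (natDegree_X_sub_C c).le (by omega)
    rw [← e1] at d1 m1
    rw [← e2] at d2 m2
    have hd : (X - C c) ∣ (Pm N /ₘ X ^ p) := by
      have : (X - C c) ∣ (Pm N /ₘ X ^ p) * Pm E := by
        rw [← d1, d2]
        exact dvd_mul_left _ _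
      exact (hprime.dvd_or_dvd this).resolve_right (Gp_ndvd E c hcE)
    have hm : (X - C c) ∣ (Pm N %ₘ X ^ p) := by
      have : (X - C c) ∣ (Pm N %ₘ X ^ p) * Pm E := by
        rw [← m1, m2]
        exact dvd_mul_left _ _
      exact (hprime.dvd_or_dvd this).resolve_right (Gp_ndvd E c hcE)
    obtain ⟨g1, hg1⟩ := hd
    obtain ⟨h1, hh1⟩ := hm
    have hdec := modByMonic_add_div (Pm N) (X ^ p : (ZMod p)[X])
    rw [hg1, hh1] at hdec
    have e3 : Pm N = Pm (N.erase c) * (X - C c) := Gp_erase N c hcN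
    have hne : (X - C c : (ZMod p)[X]) ≠ 0 := X_sub_C_ne_zero c
    have e4 : Pm (N.erase c) = X ^ p * g1 + h1 := by
      apply mul_right_cancel₀ hne
      rw [← e3, ← hdec]
      ring
    have hcardE : (N.erase c).card = N.card - 1 := by
      rw [Multiset.card_erase_of_mem hcN]; rfl
    apply hmin (N.erase c) ((Multiset.erase_le c N).trans hNM) (by omega)
    intro i hi hi2
    rw [e4, coeff_add, coeff_X_pow_mul', if_neg (by omega), zero_add]
    by_cases h0 : h1 = 0
    · rw [h0, coeff_zero]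
    · apply coeff_eq_zero_of_natDegree_lt
      have hdeg := Gp_deg N.card (Pm N) hNge hNg
      rw [hh1, natDegree_mul hne h0, natDegree_X_sub_C] at hdeg
      omega
  · have h1 : N.toFinset.card - E.toFinset.card ≤ (N.toFinset \ E.toFinset).card :=
      le_card_sdiff _ _
    have h2 : E.toFinset.card ≤ E.card := Multiset.toFinset_card_le E
    omega

end Pool.Agent.ZPP
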