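import Pool.Agent.ZPP.St

/-!
# Campaign ZPP, module Lin: restriction to lines, periodic functions (Lean: helper34)
-/

set_option autoImplicit false

open Finset Polynomial

namespace Pool.Agent.ZPP

private theorem Lin_eval {p : ℕ} [Fact p.Prime] (d : ℕ) (e : ℕ → ZMod p) :
    ∃ q : (ZMod p)[X], q.natDegree ≤ d ∧ ∀ z : ZMod p,
      ∑ i ∈ range (d + 1), e i * z ^ i = q.eval z := by
  refine ⟨∑ i ∈ range (d + 1), C (e i) * X ^ i, ?_, ?_⟩
  · apply natDegree_sum_le_of_forall_le
    intro i hi
    exact (natDegree_C_mul_X_pow_le (e i) i).trans (by have := mem_range.1 hi; omega)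
  · intro z
    rw [eval_finsetSum]
    apply sum_congr rfl
    intro i _
    simp

theorem thm_Lin : St_Lin := by
  intro hA p _ d f hf
  have h1 : ∀ u v : V p, ∃ q : (ZMod p)[X], q.natDegree ≤ d ∧
      ∀ z : ZMod p, f (u + z • v) = q.eval z := by
    intro u v
    have h2 := (@hA p _ d d).2.2.1 f hf v 0 u
    obtain ⟨c, hc⟩ := (@hA p _ d d).2.2.2 _ h2
    obtain ⟨q, hq, hqe⟩ := Lin_eval d (fun i => ∑ j ∈ range (d + 1 - i), c i j * (0 : ZMod p) ^ j)
    refine ⟨q, hq, ?_⟩
    intro z
    rw [← hqe z]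
    have h3 := hc (z, 0)
    simp only at h3
    rw [smul_zero, add_zero, add_comm (z • v) u] at h3
    rw [h3]
    apply sum_congr rfl
    intro i _
    rw [sum_mul]
    apply sum_congr rfl
    intro j _
    ring
  refine ⟨h1, ?_⟩
  intro a ha hper
  have hk : ∀ (k : ℕ) (g : V p), f (g + (k : ZMod p) • a) = f g := by
    intro k
    induction k with
    | zero =>
      intro g
      simp
    | succ k ih =>
      intro g
      have h2 : g + ((k + 1 : ℕ) : ZMod p) • a = (g + (k : ZMod p) • a) + a := by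
        rw [Nat.cast_add, Nat.cast_one, add_smul, one_smul, add_assoc]
      rw [h2, hper, ih]
  have hz : ∀ (z : ZMod p) (g : V p), f (g + z • a) = f g := by
    intro z g
    have h2 := hk z.val g
    rwa [ZMod.natCast_zmod_val] at h2
  obtain ⟨b, hb⟩ : ∃ b : V p, dt a b = 1 := by
    by_cases h2 : a.1 = 0
    · have h3 : a.2 ≠ 0 := by
        intro h3
        exact ha (Prod.ext h2 h3)
      refine ⟨(-a.2⁻¹, 0), ?_⟩
      unfold dt
      simp only
      field_simp
      ring
    · refine ⟨(0, a.1⁻¹), ?_⟩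
      unfold dt
      simp only
      field_simp
      ring
  obtain ⟨q, hq, hqe⟩ := h1 0 b
  refine ⟨q, hq, ?_⟩
  intro g
  rw [← hqe (dt a g), ← hz (dt g b) (0 + dt a g • b)]
  congr 1
  unfold dt at hb ⊢
  apply Prod.ext
  · simp only [Prod.fst_add, Prod.smul_fst, smul_eq_mul, Prod.fst_zero]
    linear_combination (-g.1) * hb
  · simp only [Prod.snd_add, Prod.smul_snd, smul_eq_mul, Prod.snd_zero]
    linear_combination (-g.2) * hb

end Pool.Agent.ZPP
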