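import Pool.Agent.ZPP.St

/-!
# Campaign ZPP: the bound for `t ≤ 2 p - 3` (`St_Low`)
-/

set_option autoImplicit false

open Finset Polynomial

namespace Pool.Agent.ZPP

private lemma Low_period {p : ℕ} [Fact p.Prime] (hp : p ≠ 2) (f : V p → ZMod p) (w : V p)
    (h : ∀ g, f (g + w) - f (g - w) = 0) : ∀ g, f (g + w) = f g := by
  have h2 : ∀ g, f (g + (w + w)) = f g := by
    intro g
    have := h (g + w)
    have e1 : g + w + w = g + (w + w) := by abel
    have e2 : g + w - w = g := by abel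
    rw [e1, e2] at this
    exact sub_eq_zero.mp this
  have h3 : ∀ (k : ℕ) (g : V p), f (g + k • (w + w)) = f g := by
    intro k
    induction k with
    | zero => intro g; simp
    | succ k ih =>
      intro g
      have e : g + (k + 1) • (w + w) = (g + k • (w + w)) + (w + w) := by
        rw [succ_nsmul]; abel
      rw [e, h2, ih]
  intro g
  have hodd : Odd p := (Fact.out : p.Prime).odd_of_ne_two hp
  obtain ⟨k, hk⟩ := hodd
  have e : (k + 1) • (w + w) = w := by
    have e1 : (k + 1) • (w + w) = (2 * k + 1) • w + w := by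
      rw [← two_nsmul, ← mul_nsmul', ← succ_nsmul]
      have : (k + 1) * 2 = 2 * k + 1 + 1 := by ring
      rw [this]
    rw [e1, ← hk]
    have e2 : p • w = 0 := by
      ext
      · simp
      · simp
    rw [e2, zero_add]
  have := h3 (k + 1) g
  rw [e] at this
  exact this

private lemma Low_dir (hRec : St_Rec) (hPf : PfCC) (hLin : LinC) {p : ℕ} [Fact p.Prime]
    (hp : p ≠ 2) (A : Finset (V p)) (h0 : (0 : V p) ∉ A) (h1 : 1 ≤ A.card)
    (h2 : A.card ≤ 2 * p - 2) (hA : ∀ g, fc A g = 0) (w : V p) (hw : w ∈ A)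
    (hne : ∃ g, fc (A.erase w) g ≠ 0) :
    ∃ q : (ZMod p)[X], q ≠ 0 ∧ q.natDegree ≤ 2 * p - 2 - (A.card - 1) ∧
      ∀ g, g ∉ SS A → q.eval (dt w g) = 0 := by
  obtain ⟨-, hR2, hR3, -, -, hR6, -, -⟩ := @hRec p _
  have hins : insert w (A.erase w) = A := insert_erase hw
  have hnot : w ∉ A.erase w := by simp
  have hper : ∀ g, fc (A.erase w) (g + w) = fc (A.erase w) g := by
    apply Low_period hp
    intro g
    have := hR2 (A.erase w) w hnot g
    rw [hins] at this
    rw [← this]
    exact hA g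
  have hcard : (A.erase w).card = A.card - 1 := card_erase_of_mem hw
  have hmem : fc (A.erase w) ∈ Pf p (2 * p - 2 - (A.card - 1)) := by
    rw [← hcard]
    apply hPf
    omega
  have hw0 : w ≠ 0 := fun h => h0 (h ▸ hw)
  obtain ⟨q, hq1, hq2⟩ := (hLin _ _ hmem).2 w hw0 hper
  refine ⟨q, ?_, hq1, ?_⟩
  · rintro rfl
    obtain ⟨g, hg⟩ := hne
    apply hg
    rw [hq2]
    simp
  · intro g hg
    rw [← hq2]
    by_contra hcon
    apply hg
    rw [← hins, hR3 _ _ hnot]
    left
    apply hR6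
    rw [hper]
    exact hcon

/-- (Low) -/
theorem thm_Low : St_Low := by
  intro hRec hPf hSZ hLin hDir p _ hp A h0 hlow hhigh
  have hp2 : 2 ≤ p := (Fact.out : p.Prime).two_le
  by_cases hne : ∃ g, fc A g ≠ 0
  · have hmem : fc A ∈ Pf p (2 * p - 2 - A.card) := hPf A (by omega)
    have h1 := hSZ _ _ hmem (by omega) hne
    have h2 : (univ.filter fun g : V p => fc A g ≠ 0) ⊆ SS A := by
      intro g hg
      rw [mem_filter] at hg
      exact (@hRec p _).2.2.2.2.2.1 A g hg.2
    have h3 : A.card + 2 - p = p - (2 * p - 2 - A.card) := by omega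
    rw [h3]
    exact h1.trans (card_le_card h2)
  · push Not at hne
    obtain ⟨W, hWA, hWp, hWn, hWc⟩ := hDir hp A h0 (by omega) hne
    have hWle : W.card ≤ A.card := card_le_card hWA
    have h1W : 1 < W.card := by omega
    obtain ⟨w₁, hw₁, w₂, hw₂, hww⟩ := one_lt_card.mp h1W
    have hdt := hWp w₁ hw₁ w₂ hw₂ hww
    obtain ⟨q₁, hq₁, hd₁, he₁⟩ := Low_dir hRec hPf hLin hp A h0 (by omega) (by omega) hne w₁
      (hWA hw₁) (hWn w₁ hw₁)
    obtain ⟨q₂, hq₂, hd₂, he₂⟩ := Low_dir hRec hPf hLin hp A h0 (by omega) (by omega) hne w₂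
      (hWA hw₂) (hWn w₂ hw₂)
    have hcompl : ((SS A)ᶜ).card ≤ (q₁.roots.toFinset ×ˢ q₂.roots.toFinset).card := by
      apply card_le_card_of_injOn (fun g => (dt w₁ g, dt w₂ g))
      · intro g hg
        rw [mem_coe, mem_compl] at hg
        simp only [coe_product, Set.mem_prod, mem_coe, Multiset.mem_toFinset]
        exact ⟨(mem_roots hq₁).mpr (he₁ g hg), (mem_roots hq₂).mpr (he₂ g hg)⟩
      · intro g _ h _ hgh
        simp only [Prod.mk.injEq] at hgh
        obtain ⟨ha, hb⟩ := hgh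
        simp only [dt] at ha hb hdt
        have e1 : (w₁.1 * w₂.2 - w₁.2 * w₂.1) * (g.1 - h.1) = 0 := by
          linear_combination (w₂.1) * ha - (w₁.1) * hb
        have e2 : (w₁.1 * w₂.2 - w₁.2 * w₂.1) * (g.2 - h.2) = 0 := by
          linear_combination (w₂.2) * ha - (w₁.2) * hb
        have f1 := (mul_eq_zero.mp e1).resolve_left hdt
        have f2 := (mul_eq_zero.mp e2).resolve_left hdt
        exact Prod.ext (sub_eq_zero.mp f1) (sub_eq_zero.mp f2)
    have hc1 : q₁.roots.toFinset.card ≤ 2 * p - 2 - (A.card - 1) :=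
      (Multiset.toFinset_card_le _).trans ((card_roots' q₁).trans hd₁)
    have hc2 : q₂.roots.toFinset.card ≤ 2 * p - 2 - (A.card - 1) :=
      (Multiset.toFinset_card_le _).trans ((card_roots' q₂).trans hd₂)
    rw [card_product] at hcompl
    have hV : ((SS A)ᶜ).card + (SS A).card = p * p := by
      rw [card_compl_add_card]
      simp [ZMod.card]
    obtain ⟨r, hr⟩ : ∃ r, A.card + r = 2 * p - 2 := ⟨2 * p - 2 - A.card, by omega⟩
    have hr1 : 1 ≤ r := by omega
    obtain ⟨s, hs⟩ : ∃ s, p = r + 3 + s := ⟨p - r - 3, by omega⟩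
    have e1 : 2 * p - 2 - (A.card - 1) = r + 1 := by omega
    rw [e1] at hc1 hc2
    have e2 : A.card + 2 - p = p - r := by omega
    have e3 : p - r = 3 + s := by omega
    rw [e2, e3]
    have hcc : ((SS A)ᶜ).card ≤ (r + 1) * (r + 1) := hcompl.trans (Nat.mul_le_mul hc1 hc2)
    have hfin : p * (3 + s) + (r + 1) * (r + 1) ≤ p * p := by
      rw [hs]
      nlinarith
    omega

end Pool.Agent.ZPP
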