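import Pool.Agent.ZPP.St

/-!
# Campaign ZPP, module Nz: `fc S = 0` and the coefficients of `Pl`
-/

set_option autoImplicit false

open Finset Polynomial

namespace Pool.Agent.ZPP

/-- change of variables -/
theorem Nz_E {p : ℕ} [Fact p.Prime] (S : Finset (V p)) (φ : V p → ZMod p) :
    ∑ B ∈ S.powerset, (-1 : ZMod p) ^ B.card * φ (sg S B) = ∑ g : V p, fc S g * φ g := by
  classical
  unfold fc
  simp only [Finset.sum_mul]
  rw [Finset.sum_comm]
  refine Finset.sum_congr rfl fun B _ => ?_
  rw [Finset.sum_eq_single (sg S B)]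
  · rw [if_pos rfl]
  · intro g _ hg
    rw [if_neg (Ne.symm hg), zero_mul]
  · intro h
    exact absurd (Finset.mem_univ _) h

private theorem Nz_deg {p : ℕ} [Fact p.Prime] (m m' : V p) (S : Finset (V p)) :
    (Pl m m' S).natDegree ≤ S.card := by
  unfold Pl
  refine (Polynomial.natDegree_prod_le _ _).trans ?_
  refine (Finset.sum_le_sum (g := fun _ => 1) fun a _ => ?_).trans ?_
  · exact Polynomial.natDegree_linear_le
  · simp

private theorem Nz_fac {p : ℕ} [Fact p.Prime] {i : ℕ} (h : i < p) :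
    ((i.factorial : ℕ) : ZMod p) ≠ 0 := by
  intro h0
  rw [ZMod.natCast_eq_zero_iff] at h0
  have := ((Fact.out : p.Prime).dvd_factorial).1 h0
  omega

private theorem Nz_two {p : ℕ} [Fact p.Prime] (h : p ≠ 2) : (2 : ZMod p) ≠ 0 := by
  intro h0
  have h1 : ((2 : ℕ) : ZMod p) = 0 := by exact_mod_cast h0
  rw [ZMod.natCast_eq_zero_iff] at h1
  have h2 := (Nat.prime_dvd_prime_iff_eq (Fact.out : p.Prime) Nat.prime_two).1 h1
  exact h h2

private theorem Nz_sum1 {p : ℕ} [Fact p.Prime] : ∑ x : ZMod p, x ^ (p - 1) = -1 := by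
  classical
  have hp := (Fact.out : p.Prime).two_le
  have h1 : ∀ x : ZMod p, x ^ (p - 1) = 1 - if x = 0 then 1 else 0 := by
    intro x
    by_cases hx : x = 0
    · rw [if_pos hx, hx, zero_pow (by omega), sub_self]
    · rw [if_neg hx, ZMod.pow_card_sub_one_eq_one hx, sub_zero]
  rw [Finset.sum_congr rfl fun x _ => h1 x, Finset.sum_sub_distrib]
  simp

private theorem Nz_sum2 {p : ℕ} [Fact p.Prime] (i : ℕ) (h : i < p - 1) :
    ∑ x : ZMod p, x ^ i = 0 := by
  have := FiniteField.sum_pow_lt_card_sub_one (ZMod p) i (by rw [ZMod.card]; exact h)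
  exact this

private theorem Nz_sum3 {p : ℕ} [Fact p.Prime] (h2 : p ≠ 2) : ∑ x : ZMod p, x ^ p = 0 := by
  have hp := (Fact.out : p.Prime).two_le
  have h := Nz_sum2 (p := p) 1 (by omega)
  rw [← h]
  refine Finset.sum_congr rfl fun x _ => ?_
  rw [ZMod.pow_card, pow_one]

private theorem Nz_prod {p : ℕ} [Fact p.Prime] (i j : ℕ) :
    ∑ g : V p, g.1 ^ i * g.2 ^ j = (∑ x : ZMod p, x ^ i) * ∑ y : ZMod p, y ^ j := by
  rw [Finset.sum_mul_sum, Fintype.sum_prod_type]

/-- (Nz) -/
theorem thm_Nz : St_Nz := by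
  intro hRec hPfA hPfB hPfC hPar p _ h2
  have hp := (Fact.out : p.Prime).two_le
  have hp3 : 3 ≤ p := by omega
  refine ⟨?_, ?_⟩
  · intro m m' S hS i hi hSi
    by_cases hc : S.card < i
    · exact Polynomial.coeff_eq_zero_of_natDegree_lt ((Nz_deg m m' S).trans_lt hc)
    · have hj : i + (S.card - i) = S.card := by omega
      have h := (hPar m m' S i (S.card - i)).2 hj
      have hE := Nz_E S (fun g => dt m g ^ i * dt m' g ^ (S.card - i))
      rw [h] at hE
      have h0 : ∑ g : V p, fc S g * (dt m g ^ i * dt m' g ^ (S.card - i)) = 0 :=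
        Finset.sum_eq_zero fun g _ => by rw [hS g, zero_mul]
      rw [h0] at hE
      have hneg : ((-2 : ZMod p)) ^ S.card ≠ 0 := pow_ne_zero _ (neg_ne_zero.2 (Nz_two h2))
      have hf1 := Nz_fac hi
      have hf2 := Nz_fac (p := p) (i := S.card - i) (by omega)
      exact (mul_eq_zero.1 hE).resolve_left (mul_ne_zero (mul_ne_zero hneg hf1) hf2)
  · intro S hcard hGap
    have hPf : fc S ∈ Pf p 1 := by
      have h := hPfC hRec hPfA hPfB S (by omega)
      have he : 2 * p - 2 - S.card = 1 := by omega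
      rw [he] at h
      exact h
    obtain ⟨c, hc⟩ := (hPfA (p := p) 1 0).2.2.2 (fc S) hPf
    have hc' : ∀ g : V p, fc S g = c 0 0 + c 0 1 * g.2 + c 1 0 * g.1 := by
      intro g
      rw [hc g]
      simp [Finset.sum_range_succ]
    have hodd : ∀ g, fc S (-g) = - fc S g := by
      intro g
      have h := (hRec (p := p)).2.2.2.1 S g
      have ho : Odd S.card := by rw [hcard]; exact ⟨p - 2, by omega⟩
      rw [h, ho.neg_one_pow, neg_one_mul]
    have h00 : c 0 0 = 0 := by
      have h := hodd 0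
      rw [neg_zero, hc' 0] at h
      simp only [Prod.snd_zero, Prod.fst_zero, mul_zero, add_zero] at h
      have h3 : (2 : ZMod p) * c 0 0 = 0 := by linear_combination h
      exact (mul_eq_zero.1 h3).resolve_left (Nz_two h2)
    have hmain : ∀ i j : ℕ, i + j = 2 * p - 3 → i < p → 2 * p - 3 < i + p →
        ∑ g : V p, fc S g * (g.1 ^ i * g.2 ^ j) = 0 := by
      intro i j hij hi hi2
      have h := (hPar (0, -1) (1, 0) S i j).2 (by omega)
      have hE := Nz_E S (fun g => dt (0, -1) g ^ i * dt (1, 0) g ^ j)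
      rw [h, hGap i hi (by omega), mul_zero] at hE
      have h3 : ∀ g : V p, fc S g * (dt (0, -1) g ^ i * dt (1, 0) g ^ j) =
          fc S g * (g.1 ^ i * g.2 ^ j) := by
        intro g
        have e1 : dt ((0 : ZMod p), (-1 : ZMod p)) g = g.1 := by unfold dt; ring
        have e2 : dt ((1 : ZMod p), (0 : ZMod p)) g = g.2 := by unfold dt; ring
        rw [e1, e2]
      rw [Finset.sum_congr rfl fun g _ => h3 g] at hE
      exact hE.symm
    have hexp : ∀ i j : ℕ, ∑ g : V p, fc S g * (g.1 ^ i * g.2 ^ j) =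
        c 0 1 * ((∑ x : ZMod p, x ^ i) * ∑ y : ZMod p, y ^ (j + 1)) +
        c 1 0 * ((∑ x : ZMod p, x ^ (i + 1)) * ∑ y : ZMod p, y ^ j) := by
      intro i j
      rw [← Nz_prod, ← Nz_prod, Finset.mul_sum, Finset.mul_sum, ← Finset.sum_add_distrib]
      refine Finset.sum_congr rfl fun g _ => ?_
      rw [hc' g, h00]
      ring
    have h10 : c 1 0 = 0 := by
      have h := hmain (p - 2) (p - 1) (by omega) (by omega) (by omega)
      rw [hexp] at h
      have e1 : p - 2 + 1 = p - 1 := by omega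
      have e2 : p - 1 + 1 = p := by omega
      rw [e1, e2, Nz_sum3 h2, Nz_sum1] at h
      linear_combination h
    have h01 : c 0 1 = 0 := by
      have h := hmain (p - 1) (p - 2) (by omega) (by omega) (by omega)
      rw [hexp] at h
      have e1 : p - 2 + 1 = p - 1 := by omega
      have e2 : p - 1 + 1 = p := by omega
      rw [e1, e2, Nz_sum3 h2, Nz_sum1] at h
      linear_combination h
    intro g
    rw [hc' g, h00, h01, h10]
    ring

end Pool.Agent.ZPP
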