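import Pool.Agent.ZPP.St

/-!
# Campaign ZPP: the moments of order `|S|` (`St_Par`)
-/

set_option autoImplicit false

open Finset Polynomial

namespace Pool.Agent.ZPP

private def Par_D {p : ℕ} (m m' : V p) (S : Finset (V p)) (i j : ℕ) : ZMod p :=
  ∑ B ∈ S.powerset, (-1 : ZMod p) ^ B.card * (dt m (sg S B) ^ i * dt m' (sg S B) ^ j)

private lemma Par_dt_add {p : ℕ} (m a b : V p) : dt m (a + b) = dt m a + dt m b := by
  simp only [dt, Prod.fst_add, Prod.snd_add]; ring

private lemma Par_dt_neg {p : ℕ} (m a : V p) : dt m (-a) = - dt m a := by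
  simp only [dt, Prod.fst_neg, Prod.snd_neg]; ring

private lemma Par_sg1 {p : ℕ} (S B : Finset (V p)) (a : V p) (ha : a ∉ S) :
    sg (insert a S) B = sg S B + (-a) := by
  unfold sg
  rw [Finset.sum_insert ha]; abel

private lemma Par_sg2 {p : ℕ} (S B : Finset (V p)) (a : V p) (ha : a ∉ S) (hB : B ⊆ S) :
    sg (insert a S) (insert a B) = sg S B + a := by
  unfold sg
  rw [Finset.sum_insert ha, Finset.sum_insert (fun h => ha (hB h))]; abel

private lemma Par_ins {p : ℕ} (m m' : V p) (S : Finset (V p)) (a : V p) (ha : a ∉ S) (i j : ℕ) :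
    Par_D m m' (insert a S) i j = ∑ k ∈ range (i + 1), ∑ l ∈ range (j + 1),
      ((i.choose k : ZMod p) * (j.choose l : ZMod p) *
        ((- dt m a) ^ (i - k) * (- dt m' a) ^ (j - l) - (dt m a) ^ (i - k) * (dt m' a) ^ (j - l))) *
        Par_D m m' S k l := by
  have h1 : Par_D m m' (insert a S) i j = ∑ B ∈ S.powerset, (-1 : ZMod p) ^ B.card *
      ((dt m (sg S B) + (- dt m a)) ^ i * (dt m' (sg S B) + (- dt m' a)) ^ j -
        (dt m (sg S B) + dt m a) ^ i * (dt m' (sg S B) + dt m' a) ^ j) := by
    unfold Par_D
    rw [Finset.sum_powerset_insert ha, ← Finset.sum_add_distrib]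
    refine Finset.sum_congr rfl fun B hB => ?_
    have hB' := Finset.mem_powerset.mp hB
    rw [Par_sg1 S B a ha, Par_sg2 S B a ha hB',
      Finset.card_insert_of_notMem (fun h => ha (hB' h))]
    simp only [Par_dt_add, Par_dt_neg]
    ring
  rw [h1]
  have h2 : ∀ x y u v : ZMod p, (x + u) ^ i * (y + v) ^ j =
      ∑ k ∈ range (i + 1), ∑ l ∈ range (j + 1),
        ((i.choose k : ZMod p) * (j.choose l : ZMod p) * (u ^ (i - k) * v ^ (j - l))) *
          (x ^ k * y ^ l) := by
    intro x y u v
    rw [add_pow, add_pow, Finset.sum_mul_sum]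
    refine Finset.sum_congr rfl fun k _ => Finset.sum_congr rfl fun l _ => ?_
    ring
  have h3 : ∀ B ∈ S.powerset, (-1 : ZMod p) ^ B.card *
      ((dt m (sg S B) + (- dt m a)) ^ i * (dt m' (sg S B) + (- dt m' a)) ^ j -
        (dt m (sg S B) + dt m a) ^ i * (dt m' (sg S B) + dt m' a) ^ j) =
      ∑ k ∈ range (i + 1), ∑ l ∈ range (j + 1),
        ((i.choose k : ZMod p) * (j.choose l : ZMod p) *
        ((- dt m a) ^ (i - k) * (- dt m' a) ^ (j - l) - (dt m a) ^ (i - k) * (dt m' a) ^ (j - l))) *
        ((-1 : ZMod p) ^ B.card * (dt m (sg S B) ^ k * dt m' (sg S B) ^ l)) := by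
    intro B _
    rw [h2, h2, ← Finset.sum_sub_distrib, Finset.mul_sum]
    refine Finset.sum_congr rfl fun k _ => ?_
    rw [← Finset.sum_sub_distrib, Finset.mul_sum]
    refine Finset.sum_congr rfl fun l _ => ?_
    ring
  rw [Finset.sum_congr rfl h3, Finset.sum_comm]
  refine Finset.sum_congr rfl fun k _ => ?_
  rw [Finset.sum_comm]
  refine Finset.sum_congr rfl fun l _ => ?_
  rw [Par_D, Finset.mul_sum]

private lemma Par_key {p : ℕ} (m m' : V p) (S : Finset (V p)) (a : V p) (ha : a ∉ S)
    (h0 : ∀ k l, k + l < S.card → Par_D m m' S k l = 0) (i j : ℕ) (hij : i + j ≤ S.card + 1) :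
    Par_D m m' (insert a S) i j =
      -2 * (i : ZMod p) * dt m a * Par_D m m' S (i - 1) j -
      2 * (j : ZMod p) * dt m' a * Par_D m m' S i (j - 1) := by
  rw [Par_ins m m' S a ha i j]
  have h1 : ∀ k ∈ range (i + 1), ∀ l ∈ range (j + 1),
      ((i.choose k : ZMod p) * (j.choose l : ZMod p) *
        ((- dt m a) ^ (i - k) * (- dt m' a) ^ (j - l) - (dt m a) ^ (i - k) * (dt m' a) ^ (j - l))) *
        Par_D m m' S k l =
      (if k = i - 1 then (if l = j then
        -2 * (i : ZMod p) * dt m a * Par_D m m' S (i - 1) j else 0) else 0) +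
      (if k = i then (if l = j - 1 then
        - (2 * (j : ZMod p) * dt m' a * Par_D m m' S i (j - 1)) else 0) else 0) := by
    intro k hk l hl
    have hk' : k ≤ i := Nat.lt_succ_iff.mp (Finset.mem_range.mp hk)
    have hl' : l ≤ j := Nat.lt_succ_iff.mp (Finset.mem_range.mp hl)
    by_cases hs : k + l < S.card
    · rw [h0 k l hs, mul_zero]
      by_cases hk1 : k = i - 1 ∧ l = j
      · obtain ⟨rfl, rfl⟩ := hk1
        rw [h0 (i - 1) l hs, mul_zero]
        by_cases hk2 : i - 1 = i ∧ l = l - 1
        · have h1 : i = 0 := by omega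
          have h2 : l = 0 := by omega
          subst h1; subst h2; simp
        · have : ¬ (i - 1 = i) ∨ ¬ (l = l - 1) := by tauto
          rcases this with h | h <;> simp [h]
      · by_cases hk2 : k = i ∧ l = j - 1
        · obtain ⟨rfl, rfl⟩ := hk2
          rw [h0 k (j - 1) hs, mul_zero]
          have : ¬ (k = k - 1) ∨ ¬ (j - 1 = j) := by tauto
          rcases this with h | h <;> simp [h]
        · have h3 : ¬ (k = i - 1) ∨ ¬ (l = j) := by tauto
          have h4 : ¬ (k = i) ∨ ¬ (l = j - 1) := by tauto
          rcases h3 with h | h <;> rcases h4 with h' | h' <;> simp [h, h']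
    · have hc : (k = i ∧ l = j) ∨ (k + 1 = i ∧ l = j) ∨ (k = i ∧ l + 1 = j) := by omega
      rcases hc with ⟨rfl, rfl⟩ | ⟨rfl, rfl⟩ | ⟨rfl, rfl⟩
      · have e1 : (if k = k - 1 then (if l = l then
          -2 * (k : ZMod p) * dt m a * Par_D m m' S (k - 1) l else 0) else 0) = 0 := by
          by_cases h : k = k - 1
          · have : k = 0 := by omega
            subst this; simp
          · simp [h]
        have e2 : (if k = k then (if l = l - 1 then
          - (2 * (l : ZMod p) * dt m' a * Par_D m m' S k (l - 1)) else 0) else 0) = 0 := by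
          by_cases h : l = l - 1
          · have : l = 0 := by omega
            subst this; simp
          · simp [h]
        rw [e1, e2]; simp
      · have e1 : k = k + 1 - 1 := by omega
        have e2 : ¬ (k = k + 1) := by omega
        have e3 : k + 1 - k = 1 := by omega
        rw [if_pos e1, if_pos rfl, if_neg e2, e3, Nat.sub_self, Nat.choose_self,
          Nat.choose_succ_self_right]
        simp only [Nat.add_sub_cancel]
        push_cast
        ring
      · have e1 : l = l + 1 - 1 := by omega
        have e2 : ¬ (l = l + 1) := by omega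
        have e3 : l + 1 - l = 1 := by omega
        have e4 : (if k = k - 1 then (if l = l + 1 then
          -2 * (k : ZMod p) * dt m a * Par_D m m' S (k - 1) (l + 1) else 0) else 0) = 0 := by
          rw [if_neg e2]; simp
        rw [e4, if_pos rfl, if_pos e1, e3, Nat.sub_self, Nat.choose_self,
          Nat.choose_succ_self_right]
        simp only [Nat.add_sub_cancel]
        push_cast
        ring
  rw [Finset.sum_congr rfl fun k hk => Finset.sum_congr rfl fun l hl => h1 k hk l hl]
  simp only [Finset.sum_add_distrib]
  have s1 : (∑ k ∈ range (i + 1), ∑ l ∈ range (j + 1), (if k = i - 1 then (if l = j then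
        -2 * (i : ZMod p) * dt m a * Par_D m m' S (i - 1) j else 0) else 0)) =
        -2 * (i : ZMod p) * dt m a * Par_D m m' S (i - 1) j := by
    rw [Finset.sum_eq_single (i - 1)]
    · rw [Finset.sum_eq_single j]
      · simp
      · intro l _ hl; simp [hl]
      · intro h; exact absurd (Finset.mem_range.mpr (Nat.lt_succ_self j)) h
    · intro k _ hk; simp [hk]
    · intro h; exact absurd (Finset.mem_range.mpr (by omega)) h
  have s2 : (∑ k ∈ range (i + 1), ∑ l ∈ range (j + 1), (if k = i then (if l = j - 1 then
        - (2 * (j : ZMod p) * dt m' a * Par_D m m' S i (j - 1)) else 0) else 0)) =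
        - (2 * (j : ZMod p) * dt m' a * Par_D m m' S i (j - 1)) := by
    rw [Finset.sum_eq_single i]
    · rw [Finset.sum_eq_single (j - 1)]
      · simp
      · intro l _ hl; simp [hl]
      · intro h; exact absurd (Finset.mem_range.mpr (by omega)) h
    · intro k _ hk; simp [hk]
    · intro h; exact absurd (Finset.mem_range.mpr (Nat.lt_succ_self i)) h
  rw [s1, s2]
  ring

private lemma Par_deg {p : ℕ} (m m' : V p) (S : Finset (V p)) :
    (Pl m m' S).natDegree ≤ S.card := by
  unfold Pl
  refine le_trans (Polynomial.natDegree_prod_le _ _) ?_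
  refine le_trans (Finset.sum_le_card_nsmul S _ 1 ?_) (by simp)
  intro a _
  exact Polynomial.natDegree_linear_le

private lemma Par_all {p : ℕ} (m m' : V p) (S : Finset (V p)) : ∀ i j : ℕ,
    (i + j < S.card → Par_D m m' S i j = 0) ∧
    (i + j = S.card → Par_D m m' S i j =
      (-2) ^ S.card * i.factorial * j.factorial * (Pl m m' S).coeff i) := by
  classical
  induction S using Finset.induction_on with
  | empty =>
    intro i j
    refine ⟨fun h => absurd h (by simp), fun h => ?_⟩
    have hi : i = 0 := by simp at h; omega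
    have hj : j = 0 := by simp at h; omega
    subst hi; subst hj
    simp [Par_D, Pl]
  | insert a S ha ih =>
    intro i j
    have h0 : ∀ k l, k + l < S.card → Par_D m m' S k l = 0 := fun k l h => (ih k l).1 h
    rw [Finset.card_insert_of_notMem ha]
    refine ⟨fun h => ?_, fun h => ?_⟩
    · rw [Par_key m m' S a ha h0 i j (by omega)]
      rcases Nat.eq_zero_or_pos i with hi | hi
      · rcases Nat.eq_zero_or_pos j with hj | hj
        · subst hi; subst hj; simp
        · rw [h0 i (j - 1) (by omega)]; subst hi; simp
      · rw [h0 (i - 1) j (by omega)]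
        rcases Nat.eq_zero_or_pos j with hj | hj
        · subst hj; simp
        · rw [h0 i (j - 1) (by omega)]; simp
    · rw [Par_key m m' S a ha h0 i j (by omega)]
      have hP : Pl m m' (insert a S) = (C (dt m a) * X + C (dt m' a)) * Pl m m' S := by
        unfold Pl; rw [Finset.prod_insert ha]
      rw [hP]
      cases i with
      | zero =>
        cases j with
        | zero => omega
        | succ j =>
          have e1 := (ih 0 j).2 (by omega)
          have e2 : ((C (dt m a) * X + C (dt m' a)) * Pl m m' S).coeff 0 =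
              dt m' a * (Pl m m' S).coeff 0 := by
            rw [Polynomial.mul_coeff_zero]; simp
          rw [e2]
          simp only [Nat.add_sub_cancel]
          rw [e1, Nat.factorial_succ]
          push_cast
          ring
      | succ i =>
        have e2 : ((C (dt m a) * X + C (dt m' a)) * Pl m m' S).coeff (i + 1) =
              dt m a * (Pl m m' S).coeff i + dt m' a * (Pl m m' S).coeff (i + 1) := by
          rw [add_mul, mul_assoc, Polynomial.coeff_add, Polynomial.coeff_C_mul,
            Polynomial.coeff_X_mul, Polynomial.coeff_C_mul]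
        rw [e2]
        cases j with
        | zero =>
          have e1 := (ih i 0).2 (by omega)
          have e3 : (Pl m m' S).coeff (i + 1) = 0 := by
            apply Polynomial.coeff_eq_zero_of_natDegree_lt
            have := Par_deg m m' S
            omega
          simp only [Nat.add_sub_cancel]
          rw [e1, e3, Nat.factorial_succ i]
          push_cast
          ring
        | succ j =>
          have e1 := (ih i (j + 1)).2 (by omega)
          have e3 := (ih (i + 1) j).2 (by omega)
          simp only [Nat.add_sub_cancel]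
          rw [e1, e3, Nat.factorial_succ i, Nat.factorial_succ j]
          push_cast
          ring

theorem thm_Par : St_Par := by
  intro p _ m m' S i j
  exact Par_all m m' S i j

end Pool.Agent.ZPP
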