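import Pool.Agent.ZPP.St

/-!
# Calculus of polynomial functions
-/

set_option autoImplicit false

open Finset Polynomial

namespace Pool.Agent.ZPP

private theorem mono_mem {p : ℕ} {d i j : ℕ} (h : i + j ≤ d) :
    (fun g : V p => g.1 ^ i * g.2 ^ j) ∈ Pf p d :=
  Submodule.subset_span ⟨i, j, h, rfl⟩

private theorem Pf_mono {p : ℕ} {d e : ℕ} (h : d ≤ e) : Pf p d ≤ Pf p e := by
  unfold Pf
  apply Submodule.span_mono
  rintro f ⟨i, j, hij, rfl⟩
  exact ⟨i, j, hij.trans h, rfl⟩

private theorem Pf_mul {p : ℕ} {d e : ℕ} {f h : V p → ZMod p} (hf : f ∈ Pf p d)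
    (hh : h ∈ Pf p e) : (fun g => f g * h g) ∈ Pf p (d + e) := by
  have key : Pf p d * Pf p e ≤ Pf p (d + e) := by
    unfold Pf
    rw [Submodule.span_mul_span, Submodule.span_le]
    rintro _ ⟨a, ⟨i, j, hij, rfl⟩, b, ⟨k, l, hkl, rfl⟩, rfl⟩
    have h1 : ((fun g : V p => g.1 ^ i * g.2 ^ j) * fun g : V p => g.1 ^ k * g.2 ^ l) =
        fun g : V p => g.1 ^ (i + k) * g.2 ^ (j + l) := by
      funext g
      simp only [Pi.mul_apply, pow_add]
      ring
    show ((fun g : V p => g.1 ^ i * g.2 ^ j) * fun g : V p => g.1 ^ k * g.2 ^ l) ∈ Pf p (d + e)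
    rw [h1]
    exact mono_mem (by omega)
  exact key (Submodule.mul_mem_mul hf hh)

private theorem Pf_const {p : ℕ} (c : ZMod p) : (fun _ : V p => c) ∈ Pf p 0 := by
  have h1 : (fun g : V p => g.1 ^ 0 * g.2 ^ 0) ∈ Pf p 0 := mono_mem le_rfl
  have h2 := Submodule.smul_mem (Pf p 0) c h1
  have h3 : (c • fun g : V p => g.1 ^ 0 * g.2 ^ 0) = fun _ : V p => c := by
    funext g
    simp
  rwa [h3] at h2

private theorem Pf_lin {p : ℕ} (a b c : ZMod p) :
    (fun g : V p => g.1 * a + g.2 * b + c) ∈ Pf p 1 := by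
  have h1 : (fun g : V p => g.1 ^ 1 * g.2 ^ 0) ∈ Pf p 1 := mono_mem le_rfl
  have h2 : (fun g : V p => g.1 ^ 0 * g.2 ^ 1) ∈ Pf p 1 := mono_mem le_rfl
  have h3 : (fun _ : V p => c) ∈ Pf p 1 := Pf_mono (Nat.zero_le 1) (Pf_const c)
  have h4 := Submodule.add_mem _ (Submodule.add_mem _ (Submodule.smul_mem _ a h1)
    (Submodule.smul_mem _ b h2)) h3
  have h5 : (((a • fun g : V p => g.1 ^ 1 * g.2 ^ 0) + b • fun g : V p => g.1 ^ 0 * g.2 ^ 1) +
      fun _ : V p => c) = fun g : V p => g.1 * a + g.2 * b + c := by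
    funext g
    simp only [Pi.add_apply, Pi.smul_apply, smul_eq_mul, pow_one, pow_zero, mul_one, one_mul]
    ring
  rwa [h5] at h4

private theorem Pf_pow {p : ℕ} {f : V p → ZMod p} (hf : f ∈ Pf p 1) (n : ℕ) :
    (fun g => f g ^ n) ∈ Pf p n := by
  induction n with
  | zero =>
    simp only [pow_zero]
    exact Pf_const 1
  | succ n ih =>
    have := Pf_mul ih hf
    simpa only [pow_succ] using this

private theorem Pf_comp {p : ℕ} {d : ℕ} {f : V p → ZMod p} (hf : f ∈ Pf p d) (u v w : V p) :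
    (fun g : V p => f (g.1 • u + g.2 • v + w)) ∈ Pf p d := by
  unfold Pf at hf
  induction hf using Submodule.span_induction with
  | mem x hx =>
    obtain ⟨i, j, hij, rfl⟩ := hx
    have h1 := Pf_pow (Pf_lin u.1 v.1 w.1) i
    have h2 := Pf_pow (Pf_lin u.2 v.2 w.2) j
    exact Pf_mono hij (Pf_mul h1 h2)
  | zero => exact Submodule.zero_mem _
  | add x y _ _ hx hy => exact Submodule.add_mem _ hx hy
  | smul a x _ hx => exact Submodule.smul_mem _ a hx

private theorem Pf_coeff {p : ℕ} {d : ℕ} {f : V p → ZMod p} (hf : f ∈ Pf p d) :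
    ∃ c : ℕ → ℕ → ZMod p, ∀ g : V p,
      f g = ∑ i ∈ range (d + 1), ∑ j ∈ range (d + 1 - i), c i j * g.1 ^ i * g.2 ^ j := by
  unfold Pf at hf
  induction hf using Submodule.span_induction with
  | mem x hx =>
    obtain ⟨k, l, hkl, rfl⟩ := hx
    refine ⟨fun i j => if i = k ∧ j = l then 1 else 0, fun g => ?_⟩
    rw [Finset.sum_eq_single k, Finset.sum_eq_single l]
    · simp
    · intro j _ hj
      simp [hj]
    · intro h
      exfalso
      apply h
      rw [Finset.mem_range]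
      omega
    · intro i _ hi
      apply Finset.sum_eq_zero
      intro j _
      simp [hi]
    · intro h
      exfalso
      apply h
      rw [Finset.mem_range]
      omega
  | zero => exact ⟨fun _ _ => 0, fun g => by simp⟩
  | add x y _ _ hx hy =>
    obtain ⟨c, hc⟩ := hx
    obtain ⟨c', hc'⟩ := hy
    refine ⟨fun i j => c i j + c' i j, fun g => ?_⟩
    rw [Pi.add_apply, hc, hc', ← Finset.sum_add_distrib]
    apply Finset.sum_congr rfl
    intro i _
    rw [← Finset.sum_add_distrib]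
    apply Finset.sum_congr rfl
    intro j _
    ring
  | smul a x _ hx =>
    obtain ⟨c, hc⟩ := hx
    refine ⟨fun i j => a * c i j, fun g => ?_⟩
    rw [Pi.smul_apply, hc, smul_eq_mul, Finset.mul_sum]
    apply Finset.sum_congr rfl
    intro i _
    rw [Finset.mul_sum]
    apply Finset.sum_congr rfl
    intro j _
    ring

theorem thm_PfA : St_PfA := by
  intro p _ d e
  exact ⟨Pf_mono, fun f hf h hh => Pf_mul hf hh, fun f hf u v w => Pf_comp hf u v w,
    fun f hf => Pf_coeff hf⟩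

end Pool.Agent.ZPP
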