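import Pool.Agent.ZPP.St

/-!
# Campaign ZPP, module PfB: differences of polynomial functions
-/

set_option autoImplicit false

open Finset Polynomial

namespace Pool.Agent.ZPP

private theorem PfB_mono {p : ℕ} (i j d : ℕ) (h : i + j ≤ d) : (fun g : V p => g.1 ^ i * g.2 ^ j) ∈ Pf p d :=
  Submodule.subset_span ⟨i, j, h, rfl⟩

private theorem PfB_trans (hA : St_PfA) {p : ℕ} [Fact p.Prime] (d : ℕ) (f : V p → ZMod p) (hf : f ∈ Pf p d) (a : V p) :
    (fun g => f (g + a)) ∈ Pf p d := by
  have h := (hA (p := p) d d).2.2.1 f hf (1, 0) (0, 1) a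
  have e : (fun g : V p => f (g.1 • ((1, 0) : V p) + g.2 • ((0, 1) : V p) + a)) = fun g => f (g + a) := by
    funext g
    congr 2
    ext <;> simp
  rwa [e] at h

private theorem PfB_le (hA : St_PfA) {p : ℕ} [Fact p.Prime] {d e : ℕ} (h : d ≤ e) {f : V p → ZMod p} (hf : f ∈ Pf p d) :
    f ∈ Pf p e := (hA (p := p) d e).1 h hf

private theorem PfB_mul (hA : St_PfA) {p : ℕ} [Fact p.Prime] {d e n : ℕ} (h : d + e ≤ n) {f k : V p → ZMod p}
    (hf : f ∈ Pf p d) (hk : k ∈ Pf p e) : (fun g => f g * k g) ∈ Pf p n :=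
  PfB_le hA h ((hA (p := p) d e).2.1 f hf k hk)

private theorem PfB_one (hA : St_PfA) {p : ℕ} [Fact p.Prime] (i : ℕ) (a : V p) :
    (fun g : V p => (g.1 + a.1) ^ (i + 1) - g.1 ^ (i + 1)) ∈ Pf p i := by
  have hx : ∀ k, (fun g : V p => g.1 ^ k) ∈ Pf p k := fun k => by
    have := PfB_mono (p := p) k 0 k (by omega)
    simpa using this
  have hxa : ∀ k, (fun g : V p => (g.1 + a.1) ^ k) ∈ Pf p k := fun k => PfB_trans hA k _ (hx k) a
  have e : (fun g : V p => (g.1 + a.1) ^ (i + 1) - g.1 ^ (i + 1)) =
      a.1 • ∑ k ∈ range (i + 1), fun g : V p => (g.1 + a.1) ^ k * g.1 ^ (i - k) := by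
    funext g
    simp only [Pi.smul_apply, Finset.sum_apply, smul_eq_mul]
    have h := (Commute.all (g.1 + a.1) g.1).mul_geom_sum₂ (i + 1)
    rw [← h]
    congr 1
    ring
  rw [e]
  refine Submodule.smul_mem _ _ (Submodule.sum_mem _ (fun k hk => ?_))
  have hk' := Finset.mem_range.1 hk
  exact PfB_mul hA (by omega : k + (i - k) ≤ i) (hxa k) (hx (i - k))

private theorem PfB_two (hA : St_PfA) {p : ℕ} [Fact p.Prime] (i : ℕ) (a : V p) :
    (fun g : V p => (g.2 + a.2) ^ (i + 1) - g.2 ^ (i + 1)) ∈ Pf p i := by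
  have hx : ∀ k, (fun g : V p => g.2 ^ k) ∈ Pf p k := fun k => by
    have := PfB_mono (p := p) 0 k k (by omega)
    simpa using this
  have hxa : ∀ k, (fun g : V p => (g.2 + a.2) ^ k) ∈ Pf p k := fun k => PfB_trans hA k _ (hx k) a
  have e : (fun g : V p => (g.2 + a.2) ^ (i + 1) - g.2 ^ (i + 1)) =
      a.2 • ∑ k ∈ range (i + 1), fun g : V p => (g.2 + a.2) ^ k * g.2 ^ (i - k) := by
    funext g
    simp only [Pi.smul_apply, Finset.sum_apply, smul_eq_mul]
    have h := (Commute.all (g.2 + a.2) g.2).mul_geom_sum₂ (i + 1)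
    rw [← h]
    congr 1
    ring
  rw [e]
  refine Submodule.smul_mem _ _ (Submodule.sum_mem _ (fun k hk => ?_))
  have hk' := Finset.mem_range.1 hk
  exact PfB_mul hA (by omega : k + (i - k) ≤ i) (hxa k) (hx (i - k))

private theorem PfB_diff (hA : St_PfA) {p : ℕ} [Fact p.Prime] (d : ℕ) (f : V p → ZMod p) (hf : f ∈ Pf p (d + 1)) (a : V p) :
    (fun g => f (g + a) - f g) ∈ Pf p d := by
  refine Submodule.span_induction (p := fun f _ => (fun g => f (g + a) - f g) ∈ Pf p d) ?_ ?_ ?_ ?_ hf
  · rintro _ ⟨i, j, hij, rfl⟩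
    have e : (fun g : V p => (g + a).1 ^ i * (g + a).2 ^ j - g.1 ^ i * g.2 ^ j) =
        (fun g : V p => ((g.1 + a.1) ^ i - g.1 ^ i) * (g.2 + a.2) ^ j) +
        (fun g : V p => g.1 ^ i * ((g.2 + a.2) ^ j - g.2 ^ j)) := by
      funext g
      simp only [Pi.add_apply, Prod.fst_add, Prod.snd_add]
      ring
    show (fun g : V p => (g + a).1 ^ i * (g + a).2 ^ j - g.1 ^ i * g.2 ^ j) ∈ Pf p d
    rw [e]
    refine Submodule.add_mem _ ?_ ?_
    · rcases i with _ | i
      · have : (fun g : V p => ((g.1 + a.1) ^ 0 - g.1 ^ 0) * (g.2 + a.2) ^ j) = 0 := by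
          funext g
          simp
        rw [this]
        exact Submodule.zero_mem _
      · have hy : (fun g : V p => (g.2 + a.2) ^ j) ∈ Pf p j := by
          have h0 : (fun g : V p => g.2 ^ j) ∈ Pf p j := by
            have := PfB_mono (p := p) 0 j j (by omega)
            simpa using this
          exact PfB_trans hA j _ h0 a
        exact PfB_mul hA (by omega : i + j ≤ d) (PfB_one hA i a) hy
    · rcases j with _ | j
      · have : (fun g : V p => g.1 ^ i * ((g.2 + a.2) ^ 0 - g.2 ^ 0)) = 0 := by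
          funext g
          simp
        rw [this]
        exact Submodule.zero_mem _
      · have hy : (fun g : V p => g.1 ^ i) ∈ Pf p i := by
          have := PfB_mono (p := p) i 0 i (by omega)
          simpa using this
        exact PfB_mul hA (by omega : i + j ≤ d) hy (PfB_two hA j a)
  · have : (fun g : V p => (0 : V p → ZMod p) (g + a) - (0 : V p → ZMod p) g) = 0 := by
      funext g
      simp
    show (fun g : V p => (0 : V p → ZMod p) (g + a) - (0 : V p → ZMod p) g) ∈ Pf p d
    rw [this]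
    exact Submodule.zero_mem _
  · intro f k _ _ hf hk
    have : (fun g : V p => (f + k) (g + a) - (f + k) g) = (fun g => f (g + a) - f g) + (fun g => k (g + a) - k g) := by
      funext g
      simp only [Pi.add_apply]
      ring
    show (fun g : V p => (f + k) (g + a) - (f + k) g) ∈ Pf p d
    rw [this]
    exact Submodule.add_mem _ hf hk
  · intro c f _ hf
    have : (fun g : V p => (c • f) (g + a) - (c • f) g) = c • (fun g => f (g + a) - f g) := by
      funext g
      simp only [Pi.smul_apply, smul_eq_mul]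
      ring
    show (fun g : V p => (c • f) (g + a) - (c • f) g) ∈ Pf p d
    rw [this]
    exact Submodule.smul_mem _ _ hf

theorem thm_PfB : St_PfB := by
  intro hA p _
  refine ⟨?_, ?_, ?_⟩
  · intro d f hf a
    have h1 := PfB_diff hA d f hf a
    have h2 := PfB_diff hA d f hf (-a)
    have e : (fun g => f (g + a) - f (g - a)) = (fun g => f (g + a) - f g) - (fun g => f (g + -a) - f g) := by
      funext g
      simp only [Pi.sub_apply, sub_eq_add_neg g a]
      ring
    rw [e]
    exact Submodule.sub_mem _ h1 h2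
  · intro f hf
    refine Submodule.span_induction (p := fun f _ => ∀ g h : V p, f g = f h) ?_ ?_ ?_ ?_ hf
    · rintro _ ⟨i, j, hij, rfl⟩ g h
      have hi : i = 0 := by omega
      have hj : j = 0 := by omega
      subst hi hj
      simp
    · intro g h
      rfl
    · intro f k _ _ hf hk g h
      simp only [Pi.add_apply]
      rw [hf g h, hk g h]
    · intro c f _ hf g h
      simp only [Pi.smul_apply]
      rw [hf g h]
  · have hp : 1 < p := (Fact.out : p.Prime).one_lt
    have key : ∀ x : ZMod p, 1 - x ^ (p - 1) = if x = 0 then (1 : ZMod p) else 0 := by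
      intro x
      by_cases hx : x = 0
      · subst hx
        rw [zero_pow (by omega)]
        simp
      · rw [ZMod.pow_card_sub_one_eq_one hx]
        simp [hx]
    have e : (fun g : V p => if g = 0 then (1 : ZMod p) else 0) =
        fun g : V p => (1 - g.1 ^ (p - 1)) * (1 - g.2 ^ (p - 1)) := by
      funext g
      rw [key, key]
      by_cases h1 : g.1 = 0
      · by_cases h2 : g.2 = 0
        · have : g = 0 := Prod.ext h1 h2
          simp [this]
        · have : g ≠ 0 := fun h => h2 (by rw [h]; rfl)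
          simp [this, h2]
      · have : g ≠ 0 := fun h => h1 (by rw [h]; rfl)
        simp [this, h1]
    rw [e]
    have c1 : (fun _ : V p => (1 : ZMod p)) ∈ Pf p (p - 1) := by
      have := PfB_mono (p := p) 0 0 (p - 1) (by omega)
      simpa using this
    have m1 : (fun g : V p => 1 - g.1 ^ (p - 1)) ∈ Pf p (p - 1) := by
      have h0 : (fun g : V p => g.1 ^ (p - 1)) ∈ Pf p (p - 1) := by
        have := PfB_mono (p := p) (p - 1) 0 (p - 1) (by omega)
        simpa using this
      exact Submodule.sub_mem _ c1 h0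
    have m2 : (fun g : V p => 1 - g.2 ^ (p - 1)) ∈ Pf p (p - 1) := by
      have h0 : (fun g : V p => g.2 ^ (p - 1)) ∈ Pf p (p - 1) := by
        have := PfB_mono (p := p) 0 (p - 1) (p - 1) (by omega)
        simpa using this
      exact Submodule.sub_mem _ c1 h0
    exact PfB_mul hA (by omega : (p - 1) + (p - 1) ≤ 2 * p - 2) m1 m2

end Pool.Agent.ZPP
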