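import Pool.Agent.ZPP.St

/-!
# Campaign ZPP: `fc S` is a polynomial function

Helper65 (offer 16111 of helper91), for MP_ec93d3_co.
-/

set_option autoImplicit false

open Finset Polynomial

namespace Pool.Agent.ZPP

theorem thm_PfC : St_PfC := by
  intro hR hA hB p _ S
  obtain ⟨h0, hins, -⟩ := hR (p := p)
  obtain ⟨hdiff, -, hind⟩ := hB hA (p := p)
  induction S using Finset.induction_on with
  | empty =>
    intro _
    have e : fc (∅ : Finset (V p)) = fun g : V p => if g = 0 then (1 : ZMod p) else 0 :=
      funext h0
    rw [e, Finset.card_empty]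
    exact hind
  | insert a S ha ih =>
    intro hc
    rw [Finset.card_insert_of_notMem ha] at hc ⊢
    have h1 := ih (by omega)
    have e1 : 2 * p - 2 - S.card = (2 * p - 2 - (S.card + 1)) + 1 := by omega
    rw [e1] at h1
    have h2 := hdiff _ _ h1 a
    have e : fc (insert a S) = fun g : V p => fc S (g + a) - fc S (g - a) :=
      funext fun g => hins S a ha g
    rw [e]
    exact h2

end Pool.Agent.ZPP
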