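import Pool.Agent.ZPP.St

/-!
# ZPP: the roots of `Pl`

Helper2, for MP_ec93d3_co (statement of helper91, `ZPP.St_Pl`).
-/

set_option autoImplicit false

open Finset Polynomial

namespace Pool.Agent.ZPP

/-- (2) -/
theorem Pl_two {p : ℕ} [Fact p.Prime] (m m' a : V p) (c : ZMod p) (h : dt m a ≠ 0) :
    - dt m' a / dt m a = c ↔ dt (m' + c • m) a = 0 := by
  have e : dt (m' + c • m) a = dt m' a + c * dt m a := by
    unfold dt
    simp only [Prod.fst_add, Prod.snd_add, Prod.smul_fst, Prod.smul_snd, smul_eq_mul]
    ring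
  rw [e, div_eq_iff h]
  constructor
  · intro h1
    linear_combination -h1
  · intro h1
    linear_combination -h1

/-- (4) -/
theorem Pl_four {p : ℕ} [Fact p.Prime] (m m' : V p) (hm : dt m m' ≠ 0) (a b : V p)
    (ha : dt m a ≠ 0) (hb : dt m b ≠ 0) :
    - dt m' a / dt m a = - dt m' b / dt m b ↔ dt a b = 0 := by
  rw [div_eq_div_iff ha hb]
  have e : - dt m' a * dt m b - - dt m' b * dt m a = dt m m' * dt a b := by
    unfold dt
    ring
  constructor
  · intro h
    have h1 : dt m m' * dt a b = 0 := by
      linear_combination h - e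
    rcases mul_eq_zero.1 h1 with h2 | h2
    · exact absurd h2 hm
    · exact h2
  · intro h
    rw [h, mul_zero] at e
    linear_combination e

/-- (1) -/
theorem Pl_one {p : ℕ} [Fact p.Prime] (m m' : V p) (S : Finset (V p)) (hm : dt m m' ≠ 0)
    (h0 : (0 : V p) ∉ S) : ∃ κ : ZMod p, κ ≠ 0 ∧ Pl m m' S = C κ * Pm (Ro m m' S) := by
  refine ⟨(∏ a ∈ S.filter (fun a => dt m a ≠ 0), dt m a) *
    ∏ a ∈ S.filter (fun a => ¬ dt m a ≠ 0), dt m' a, ?_, ?_⟩
  · refine mul_ne_zero ?_ ?_
    · rw [prod_ne_zero_iff]
      intro a ha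
      exact (mem_filter.1 ha).2
    · rw [prod_ne_zero_iff]
      intro a ha h
      obtain ⟨haS, h1⟩ := mem_filter.1 ha
      push Not at h1
      apply h0
      have h2 : dt m m' * a.1 = 0 := by
        have e : dt m m' * a.1 = m'.1 * dt m a - m.1 * dt m' a := by
          unfold dt
          ring
        rw [e, h1, h]
        ring
      have h3 : dt m m' * a.2 = 0 := by
        have e : dt m m' * a.2 = m'.2 * dt m a - m.2 * dt m' a := by
          unfold dt
          ring
        rw [e, h1, h]
        ring
      have h4 : a = 0 := by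
        refine Prod.ext ?_ ?_
        · exact (mul_eq_zero.1 h2).resolve_left hm
        · exact (mul_eq_zero.1 h3).resolve_left hm
      rw [← h4]
      exact haS
  · have e1 : Pm (Ro m m' S) =
        ∏ a ∈ S.filter (fun a => dt m a ≠ 0), (X - C (- dt m' a / dt m a)) := by
      unfold Pm Ro
      rw [Multiset.map_map]
      rfl
    rw [e1]
    unfold Pl
    rw [← prod_filter_mul_prod_filter_not S (fun a => dt m a ≠ 0), map_mul, map_prod, map_prod,
      mul_right_comm, ← prod_mul_distrib]
    congr 1
    · refine prod_congr rfl fun a ha => ?_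
      have h1 : dt m a ≠ 0 := (mem_filter.1 ha).2
      rw [mul_sub, ← C_mul, mul_div_cancel₀ _ h1, C_neg, sub_neg_eq_add]
    · refine prod_congr rfl fun a ha => ?_
      have h1 : ¬ dt m a ≠ 0 := (mem_filter.1 ha).2
      push Not at h1
      rw [h1, C_0, zero_mul, zero_add]

/-- (3) -/
theorem Pl_three {p : ℕ} [Fact p.Prime] (m m' : V p) (S : Finset (V p)) (hm : dt m m' ≠ 0)
    (c : ZMod p) : (Ro m m' S).count c ≤ p - 1 := by
  classical
  unfold Ro
  rw [Multiset.count_map]
  have hn : dt m (m' + c • m) ≠ 0 := by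
    have e : dt m (m' + c • m) = dt m m' := by
      unfold dt
      simp only [Prod.fst_add, Prod.snd_add, Prod.smul_fst, Prod.smul_snd, smul_eq_mul]
      ring
    rw [e]
    exact hm
  have h1 : ((S.filter fun a => dt m a ≠ 0).filter fun a => c = - dt m' a / dt m a) ⊆
      ((univ : Finset (ZMod p)).erase 0).image (fun l => l • (m' + c • m)) := by
    intro a ha
    obtain ⟨ha1, ha2⟩ := mem_filter.1 ha
    obtain ⟨haS, ha3⟩ := mem_filter.1 ha1
    have h2 : dt (m' + c • m) a = 0 := (Pl_two m m' a c ha3).1 ha2.symm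
    rw [mem_image]
    set n : V p := m' + c • m with hn'
    refine ⟨dt m a / dt m n, ?_, ?_⟩
    · rw [mem_erase]
      exact ⟨div_ne_zero ha3 hn, mem_univ _⟩
    · refine Prod.ext ?_ ?_
      · rw [Prod.smul_fst, smul_eq_mul, div_mul_eq_mul_div, div_eq_iff hn]
        have e : dt m a * n.1 - a.1 * dt m n = m.1 * dt n a := by
          unfold dt
          ring
        rw [h2] at e
        linear_combination e
      · rw [Prod.smul_snd, smul_eq_mul, div_mul_eq_mul_div, div_eq_iff hn]
        have e : dt m a * n.2 - a.2 * dt m n = m.2 * dt n a := by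
          unfold dt
          ring
        rw [h2] at e
        linear_combination e
  have h2 := card_le_card h1
  have h3 : (((univ : Finset (ZMod p)).erase 0).image (fun l => l • (m' + c • m))).card ≤ p - 1 := by
    refine le_trans card_image_le ?_
    rw [card_erase_of_mem (mem_univ _), card_univ, ZMod.card]
  exact le_trans h2 h3

/-- **Pl** -/
theorem thm_Pl : St_Pl := by
  intro p _ m m' S hm h0
  exact ⟨Pl_one m m' S hm h0, fun a c h => Pl_two m m' a c h, Pl_three m m' S hm,
    fun a b ha hb => Pl_four m m' hm a b ha hb⟩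

end Pool.Agent.ZPP
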