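import Pool.Agent.ZPP.St

/-!
# Campaign ZPP, module Rec: calculus of `fc` and `SS`
-/

set_option autoImplicit false

open Finset Polynomial

namespace Pool.Agent.ZPP

private lemma Rec_sgi {p : ℕ} (S B : Finset (V p)) (a : V p) (ha : a ∉ S) : sg (insert a S) B = sg S B - a := by
  unfold sg
  rw [Finset.sum_insert ha]
  abel

private lemma Rec_sgii {p : ℕ} (S B : Finset (V p)) (a : V p) (ha : a ∉ S) (hB : B ⊆ S) :
    sg (insert a S) (insert a B) = sg S B + a := by
  unfold sg
  rw [Finset.sum_insert ha, Finset.sum_insert (fun h => ha (hB h))]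
  abel

private lemma Rec_sgc {p : ℕ} (S B : Finset (V p)) (hB : B ⊆ S) : sg S (S \ B) = - sg S B := by
  unfold sg
  have h := Finset.sum_sdiff (f := fun b : V p => b) hB
  have h' : ∑ b ∈ S \ B, b = ∑ b ∈ S, b - ∑ b ∈ B, b := by
    rw [← h]
    abel
  rw [h']
  abel

private lemma Rec_ins {p : ℕ} (S : Finset (V p)) (a : V p) (ha : a ∉ S) (g : V p) :
    fc (insert a S) g = fc S (g + a) - fc S (g - a) := by
  unfold fc
  rw [Finset.sum_powerset_insert ha, sub_eq_add_neg, ← Finset.sum_neg_distrib]
  congr 1
  · refine Finset.sum_congr rfl (fun B hB => ?_)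
    rw [Rec_sgi S B a ha]
    simp only [sub_eq_iff_eq_add]
  · refine Finset.sum_congr rfl (fun B hB => ?_)
    have hBS := Finset.mem_powerset.1 hB
    rw [Rec_sgii S B a ha hBS, Finset.card_insert_of_notMem (fun h => ha (hBS h))]
    by_cases h : sg S B + a = g
    · rw [if_pos h, if_pos (eq_sub_of_add_eq h), pow_succ]
      ring
    · rw [if_neg h, if_neg (fun h' => h (by rw [h']; abel))]
      simp

theorem thm_Rec : St_Rec := by
  intro p _
  refine ⟨?_, ?_, ?_, ?_, ?_, ?_, ?_, ?_⟩
  · intro g
    unfold fc sg
    simp [eq_comm]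
  · intro S a ha g
    exact Rec_ins S a ha g
  · intro S a ha g
    unfold SS
    simp only [Finset.mem_image, Finset.mem_powerset]
    constructor
    · rintro ⟨B, hB, rfl⟩
      by_cases haB : a ∈ B
      · right
        refine ⟨B.erase a, ?_, ?_⟩
        · intro b hb
          rw [Finset.mem_erase] at hb
          exact (Finset.mem_insert.1 (hB hb.2)).resolve_left hb.1
        · have hs : B.erase a ⊆ S := by
            intro b hb
            rw [Finset.mem_erase] at hb
            exact (Finset.mem_insert.1 (hB hb.2)).resolve_left hb.1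
          have h := Rec_sgii S (B.erase a) a ha hs
          rw [Finset.insert_erase haB] at h
          rw [h]
          abel
      · left
        refine ⟨B, ?_, ?_⟩
        · intro b hb
          exact (Finset.mem_insert.1 (hB hb)).resolve_left (fun h => haB (h ▸ hb))
        · rw [Rec_sgi S B a ha]
          abel
    · rintro (⟨B, hB, h⟩ | ⟨B, hB, h⟩)
      · refine ⟨B, fun b hb => Finset.mem_insert_of_mem (hB hb), ?_⟩
        rw [Rec_sgi S B a ha, h]
        abel
      · refine ⟨insert a B, Finset.insert_subset_insert a hB, ?_⟩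
        rw [Rec_sgii S B a ha hB, h]
        abel
  · intro S g
    unfold fc
    rw [Finset.mul_sum]
    refine Finset.sum_nbij' (fun B => S \ B) (fun B => S \ B) ?_ ?_ ?_ ?_ ?_
    · intro B _
      exact Finset.mem_powerset.2 Finset.sdiff_subset
    · intro B _
      exact Finset.mem_powerset.2 Finset.sdiff_subset
    · intro B hB
      exact Finset.sdiff_sdiff_eq_self (Finset.mem_powerset.1 hB)
    · intro B hB
      exact Finset.sdiff_sdiff_eq_self (Finset.mem_powerset.1 hB)
    · intro B hB
      have hBS := Finset.mem_powerset.1 hB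
      rw [Rec_sgc S B hBS]
      by_cases h : sg S B = -g
      · rw [if_pos h, if_pos (by rw [h]; simp)]
        have hc : (S \ B).card + B.card = S.card := Finset.card_sdiff_add_card_eq_card hBS
        rw [← hc, pow_add, mul_comm ((-1 : ZMod p) ^ (S \ B).card), mul_assoc, ← pow_add, ← two_mul, pow_mul]
        simp
      · rw [if_neg h, if_neg (fun h' => h (by rw [← h']; simp))]
        simp
  · intro S g hg
    unfold SS at hg ⊢
    simp only [Finset.mem_image, Finset.mem_powerset] at hg ⊢
    obtain ⟨B, hB, rfl⟩ := hg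
    exact ⟨S \ B, Finset.sdiff_subset, Rec_sgc S B hB⟩
  · intro S g hg
    by_contra h
    apply hg
    unfold fc
    refine Finset.sum_eq_zero (fun B hB => ?_)
    rw [if_neg]
    intro hBg
    exact h (Finset.mem_image.2 ⟨B, hB, hBg⟩)
  · intro S C hC c hc d hd
    unfold SS at hc hd ⊢
    simp only [Finset.mem_image, Finset.mem_powerset] at hc hd ⊢
    obtain ⟨B, hB, rfl⟩ := hc
    obtain ⟨B', hB', rfl⟩ := hd
    refine ⟨B ∪ B', Finset.union_subset (hB.trans hC) (hB'.trans Finset.sdiff_subset), ?_⟩
    have hdis : Disjoint B B' := by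
      rw [Finset.disjoint_left]
      intro b hb hb'
      exact (Finset.mem_sdiff.1 (hB' hb')).2 (hB hb)
    unfold sg
    rw [Finset.sum_union hdis, ← Finset.sum_sdiff (f := fun b : V p => b) hC]
    abel
  · intro S u hu hnu hne g
    have h1 : S.erase (-u) = insert u ((S.erase u).erase (-u)) := by
      rw [Finset.erase_right_comm, Finset.insert_erase]
      exact Finset.mem_erase.2 ⟨hne, hu⟩
    have h2 : S.erase u = insert (-u) ((S.erase u).erase (-u)) := by
      rw [Finset.insert_erase]
      exact Finset.mem_erase.2 ⟨fun h => hne h.symm, hnu⟩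
    have hu' : u ∉ (S.erase u).erase (-u) := by
      intro h
      exact (Finset.mem_erase.1 (Finset.mem_erase.1 h).2).1 rfl
    have hnu' : -u ∉ (S.erase u).erase (-u) := fun h => (Finset.mem_erase.1 h).1 rfl
    have e1 : fc (S.erase (-u)) g = fc ((S.erase u).erase (-u)) (g + u) - fc ((S.erase u).erase (-u)) (g - u) := by
      rw [h1]
      exact Rec_ins _ u hu' g
    have e2 : fc (S.erase u) g = fc ((S.erase u).erase (-u)) (g + -u) - fc ((S.erase u).erase (-u)) (g - -u) := by
      conv_lhs => rw [h2]
      exact Rec_ins _ (-u) hnu' g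
    rw [e1, e2, sub_neg_eq_add, ← sub_eq_add_neg]
    ring

end Pool.Agent.ZPP
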