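import Pool.Agent.ZPP.St

/-!
# Campaign ZPP, module SZ: the number of places where a polynomial function does not vanish
-/

set_option autoImplicit false

open Finset Polynomial

namespace Pool.Agent.ZPP

private lemma SZ_poly {p : ℕ} [Fact p.Prime] (d : ℕ) (f : V p → ZMod p) (hf : f ∈ Pf p d) :
    ∃ P : MvPolynomial (Fin 2) (ZMod p), P.totalDegree ≤ d ∧
      ∀ g : V p, f g = MvPolynomial.eval ![g.1, g.2] P := by
  unfold Pf at hf
  refine Submodule.span_induction ?_ ?_ ?_ ?_ hf
  · rintro h ⟨i, j, hij, rfl⟩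
    refine ⟨MvPolynomial.X 0 ^ i * MvPolynomial.X 1 ^ j, ?_, ?_⟩
    · refine (MvPolynomial.totalDegree_mul _ _).trans ?_
      rw [MvPolynomial.totalDegree_X_pow, MvPolynomial.totalDegree_X_pow]
      exact hij
    · intro g
      simp
  · exact ⟨0, by simp, fun g => by simp⟩
  · rintro x y - - ⟨P, hP, hP'⟩ ⟨Q, hQ, hQ'⟩
    refine ⟨P + Q, (MvPolynomial.totalDegree_add _ _).trans (max_le hP hQ), ?_⟩
    intro g
    simp [hP' g, hQ' g]
  · rintro a x - ⟨P, hP, hP'⟩
    refine ⟨a • P, (MvPolynomial.totalDegree_smul_le _ _).trans hP, ?_⟩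
    intro g
    simp [hP' g, MvPolynomial.smul_eval]

theorem thm_SZ : St_SZ := by
  intro _ p _ d f hf hd hne
  obtain ⟨P, hPd, hP⟩ := SZ_poly d f hf
  have hpos : 0 < p := (Fact.out : p.Prime).pos
  have hP0 : P ≠ 0 := by
    rintro rfl
    obtain ⟨g, hg⟩ := hne
    exact hg (by rw [hP g]; simp)
  have hsz := MvPolynomial.schwartz_zippel_totalDegree hP0 (univ : Finset (ZMod p))
  have hcard : (univ : Finset (ZMod p)).card = p := by
    rw [Finset.card_univ, ZMod.card]
  rw [hcard] at hsz
  set Z : ℕ := (Finset.card {h ∈ Fintype.piFinset fun _ : Fin 2 => (univ : Finset (ZMod p)) |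
    MvPolynomial.eval h P = 0}) with hZ
  have hZle : Z ≤ d * p := by
    have hp' : (0 : ℚ≥0) < p := by exact_mod_cast hpos
    have h1 : (Z : ℚ≥0) ≤ (P.totalDegree : ℚ≥0) / p * (p : ℚ≥0) ^ 2 := by
      rwa [div_le_iff₀ (by positivity)] at hsz
    have h2 : (P.totalDegree : ℚ≥0) / p * (p : ℚ≥0) ^ 2 = ((P.totalDegree * p : ℕ) : ℚ≥0) := by
      push_cast
      field_simp
    rw [h2] at h1
    have h3 : Z ≤ P.totalDegree * p := by exact_mod_cast h1
    exact h3.trans (Nat.mul_le_mul_right _ hPd)
  have hZeq : (univ.filter fun g : V p => f g = 0).card = Z := by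
    rw [hZ]
    refine Finset.card_bij (fun g _ => ![g.1, g.2]) ?_ ?_ ?_
    · intro g hg
      simp only [mem_filter, mem_univ, true_and] at hg
      simp only [mem_filter, Fintype.mem_piFinset, mem_univ, implies_true, true_and]
      rw [← hP g, hg]
    · intro g _ g' _ h
      have h0 := congrFun h 0
      have h1 := congrFun h 1
      simp at h0 h1
      exact Prod.ext h0 h1
    · intro h hh
      simp only [mem_filter, Fintype.mem_piFinset, mem_univ, implies_true, true_and] at hh
      refine ⟨(h 0, h 1), ?_, ?_⟩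
      · simp only [mem_filter, mem_univ, true_and]
        rw [hP]
        rw [← hh]
        congr 1
        simp only
        congr 1
        funext i
        fin_cases i <;> rfl
      · funext i
        fin_cases i <;> rfl
  have hsum := Finset.card_filter_add_card_filter_not (s := (univ : Finset (V p))) (fun g => f g = 0)
  have hV : (univ : Finset (V p)).card = p * p := by
    rw [Finset.card_univ, Fintype.card_prod, ZMod.card]
  rw [hV, hZeq] at hsum
  have hgoal : (univ.filter fun g : V p => f g ≠ 0).card = (univ.filter fun g : V p => ¬ f g = 0).card := rfl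
  rw [hgoal]
  have h5 : p * (p - d) = p * p - d * p := by
    rw [Nat.mul_sub, Nat.mul_comm p d]
  rw [h5]
  omega

end Pool.Agent.ZPP
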