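import Pool.Agent.ZPP.St

/-!
# Campaign ZPP: the Wronskian (`St_Wr`)
-/

set_option autoImplicit false

open Finset Polynomial

namespace Pool.Agent.ZPP

private lemma Wr_coeffXD {F : Type*} [CommRing F] (f : F[X]) (k : ℕ) :
    (X * derivative f).coeff k = (k : F) * f.coeff k := by
  rcases k with _ | k
  · simp
  · rw [coeff_X_mul, coeff_derivative]
    push_cast
    ring

private lemma Wr_natDegXD {F : Type*} [CommRing F] (f : F[X]) (n : ℕ) (h : f.natDegree ≤ n) :
    (X * derivative f).natDegree ≤ n := by
  rw [natDegree_le_iff_coeff_eq_zero]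
  intro N hN
  rw [Wr_coeffXD, coeff_eq_zero_of_natDegree_lt (lt_of_le_of_lt h hN), mul_zero]

/-- The coefficient of the Wronskian. -/
private lemma Wr_main {F : Type*} [Field F] (g h : F[X]) (m k : ℕ) (hg : g.natDegree ≤ m)
    (hg1 : g.coeff m = 1) (hh : h.natDegree = k) (h0 : h ≠ 0) (hk : k < m)
    (hc : ((k : F) - (m : F)) ≠ 0) :
    g * derivative h - derivative g * h ≠ 0 ∧
      (g * derivative h - derivative g * h).natDegree + 2 ≤ 2 * m := by
  have hlc : h.coeff k ≠ 0 := by
    rw [← hh]
    exact mt leadingCoeff_eq_zero.1 h0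
  have hX : X * (g * derivative h - derivative g * h) =
      g * (X * derivative h) - (X * derivative g) * h := by ring
  have e1 : (g * (X * derivative h)).coeff (m + k) = (k : F) * h.coeff k := by
    rw [coeff_mul_add_eq_of_natDegree_le hg (Wr_natDegXD h k hh.le), hg1, Wr_coeffXD, one_mul]
  have e2 : ((X * derivative g) * h).coeff (m + k) = (m : F) * h.coeff k := by
    rw [coeff_mul_add_eq_of_natDegree_le (Wr_natDegXD g m hg) hh.le, Wr_coeffXD, hg1, mul_one]
  have e3 : (X * (g * derivative h - derivative g * h)).coeff (m + k) =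
      ((k : F) - (m : F)) * h.coeff k := by
    rw [hX, coeff_sub, e1, e2]
    ring
  have hne : g * derivative h - derivative g * h ≠ 0 := by
    intro hz
    rw [hz] at e3
    simp only [mul_zero, coeff_zero] at e3
    exact (mul_ne_zero hc hlc) e3.symm
  refine ⟨hne, ?_⟩
  have hd : (X * (g * derivative h - derivative g * h)).natDegree ≤ m + k := by
    rw [hX]
    refine (natDegree_sub_le _ _).trans (max_le ?_ ?_)
    · exact natDegree_mul_le.trans (add_le_add hg (Wr_natDegXD h k hh.le))
    · exact natDegree_mul_le.trans (add_le_add (Wr_natDegXD g m hg) hh.le)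
  have hd2 : (X * (g * derivative h - derivative g * h)).natDegree =
      (g * derivative h - derivative g * h).natDegree + 1 := by
    rw [natDegree_mul X_ne_zero hne, natDegree_X]
    ring
  omega

private lemma Wr_Pm_monic {p : ℕ} (M : Multiset (ZMod p)) : (Pm M).Monic := by
  unfold Pm
  exact monic_multiset_prod_of_monic M (fun c => X - C c) (fun c _ => monic_X_sub_C c)

private lemma Wr_Pm_natDegree {p : ℕ} [Fact p.Prime] (M : Multiset (ZMod p)) :
    (Pm M).natDegree = M.card := by
  unfold Pm
  exact natDegree_multiset_prod_X_sub_C_eq_card M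

private lemma Wr_Pm_roots {p : ℕ} [Fact p.Prime] (M : Multiset (ZMod p)) :
    (Pm M).roots = M := by
  unfold Pm
  exact roots_multiset_prod_X_sub_C M

private lemma Wr_pow_dvd {p : ℕ} [Fact p.Prime] (M : Multiset (ZMod p)) (c : ZMod p) (n : ℕ) :
    (X - C c) ^ n ∣ Pm M ↔ n ≤ M.count c := by
  rw [← le_rootMultiplicity_iff (Wr_Pm_monic M).ne_zero, ← count_roots, Wr_Pm_roots]

/-- The Wronskian. -/
theorem thm_Wr : St_Wr := by
  intro p hp M hM hcard hgap
  have hp1 : 1 < p := hp.out.one_lt
  set P := Pm M with hP
  have hPmon : P.Monic := Wr_Pm_monic M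
  have hPdeg : P.natDegree = M.card := Wr_Pm_natDegree M
  have hPt : P.coeff M.card = 1 := by
    rw [← hPdeg]
    exact hPmon
  -- the degree is at least `p`
  have htp : p ≤ M.card := by
    by_contra hlt
    have hlt' : M.card < p := not_le.1 hlt
    have := hgap M.card hlt' (by omega)
    rw [hPt] at this
    exact one_ne_zero this
  obtain ⟨m, hm⟩ := Nat.exists_eq_add_of_le htp
  -- division by `X ^ p`
  have hXmon : (X ^ p : (ZMod p)[X]).Monic := monic_X_pow p
  set g := P /ₘ (X ^ p) with hg
  set h := P %ₘ (X ^ p) with hh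
  have hdiv : P = X ^ p * g + h := by
    rw [hg, hh, add_comm]
    exact (modByMonic_add_div P (X ^ p)).symm
  have hhdeg : ∀ i, p ≤ i → h.coeff i = 0 := by
    intro i hi
    apply coeff_eq_zero_of_degree_lt
    refine lt_of_lt_of_le (degree_modByMonic_lt P hXmon) ?_
    rw [degree_X_pow]
    exact_mod_cast hi
  have hcg : ∀ j, g.coeff j = P.coeff (j + p) := by
    intro j
    have e := congrArg (fun f => coeff f (j + p)) hdiv
    simp only [coeff_add, coeff_X_pow_mul] at e
    rw [e, hhdeg (j + p) (by omega), add_zero]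
  have hch : ∀ i, m < i → h.coeff i = 0 := by
    intro i hi
    by_cases hip : p ≤ i
    · exact hhdeg i hip
    · have hip' : i < p := not_le.1 hip
      have e := congrArg (fun f => coeff f i) hdiv
      simp only [coeff_add] at e
      rw [coeff_X_pow_mul', if_neg hip, zero_add] at e
      rw [← e]
      exact hgap i hip' (by omega)
  have hgm : g.coeff m = 1 := by
    rw [hcg, add_comm m p, ← hm, hPt]
  have hgdeg : g.natDegree ≤ m := by
    rw [natDegree_le_iff_coeff_eq_zero]
    intro N hN
    rw [hcg]
    exact coeff_eq_zero_of_natDegree_lt (by rw [hPdeg]; omega)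
  -- the Wronskian in terms of `P`
  have hdX : derivative (X ^ p : (ZMod p)[X]) = 0 := by
    rw [derivative_X_pow]
    simp
  have hW : g * derivative h - derivative g * h = g * derivative P - derivative g * P := by
    have hdP : derivative P = X ^ p * derivative g + derivative h := by
      conv_lhs => rw [hdiv]
      rw [derivative_add, derivative_mul, hdX]
      ring
    rw [hdP]
    conv_rhs => rw [hdiv]
    ring
  set κ := h.coeff m with hκ
  set h₁ := h - C κ * g with hh₁
  have hc1 : ∀ i, m ≤ i → h₁.coeff i = 0 := by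
    intro i hi
    rw [hh₁, coeff_sub, coeff_C_mul]
    rcases hi.eq_or_lt with rfl | hlt
    · rw [hgm, mul_one, hκ, sub_self]
    · rw [hch i hlt, coeff_eq_zero_of_natDegree_lt (lt_of_le_of_lt hgdeg hlt), mul_zero, sub_zero]
  have hW1 : g * derivative h₁ - derivative g * h₁ = g * derivative h - derivative g * h := by
    rw [hh₁, derivative_sub, derivative_C_mul]
    ring
  by_cases h10 : h₁ = 0
  · exfalso
    have hh' : h = C κ * g := sub_eq_zero.1 (hh₁ ▸ h10)
    have hfac : P = (X - C (-κ)) ^ p * g := by
      have e : (X - C (-κ)) ^ p = (X ^ p + C κ : (ZMod p)[X]) := by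
        have : (X - C (-κ) : (ZMod p)[X]) = X + C κ := by
          rw [C_neg, sub_neg_eq_add]
        rw [this, add_pow_char, ← C_pow, ZMod.pow_card]
      rw [e, hdiv]
      conv_lhs => rw [hh']
      ring
    have hdvd : (X - C (-κ)) ^ p ∣ Pm M := ⟨g, hfac⟩
    rw [Wr_pow_dvd] at hdvd
    have := hM (-κ)
    omega
  · have hkm : h₁.natDegree < m := by
      by_contra hcon
      have h2 := hc1 _ (not_lt.1 hcon)
      exact h10 (leadingCoeff_eq_zero.1 h2)
    have hne : ((h₁.natDegree : ZMod p) - (m : ZMod p)) ≠ 0 := by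
      intro hz
      have hz' : (m : ZMod p) = (h₁.natDegree : ZMod p) := (sub_eq_zero.1 hz).symm
      rw [ZMod.natCast_eq_natCast_iff'] at hz'
      rw [Nat.mod_eq_of_lt (by omega), Nat.mod_eq_of_lt (by omega)] at hz'
      omega
    obtain ⟨hw0, hwd⟩ := Wr_main g h₁ m h₁.natDegree hgdeg hgm rfl h10 hkm hne
    rw [hW1, hW] at hw0 hwd
    -- the product of the prime powers divides
    have hD : ∏ c ∈ M.toFinset, (X - C c) ^ (M.count c - 1) ∣
        g * derivative P - derivative g * P := by
      apply Finset.prod_dvd_of_coprime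
      · intro c _ d _ hcd
        exact IsCoprime.pow (pairwise_coprime_X_sub_C Function.injective_id hcd)
      · intro c _
        have h1 : (X - C c) ^ (M.count c) ∣ P := (Wr_pow_dvd M c _).2 le_rfl
        have h2 : (X - C c) ^ (M.count c - 1) ∣ P := dvd_trans (pow_dvd_pow _ (Nat.sub_le _ _)) h1
        have h3 : (X - C c) ^ (M.count c - 1) ∣ derivative P :=
          pow_sub_one_dvd_derivative_of_pow_dvd h1
        exact dvd_sub (h3.mul_left _) (h2.mul_left _)
    have hdeg := natDegree_le_of_dvd hD hw0
    rw [natDegree_prod_of_monic _ _ (fun c _ => (monic_X_sub_C c).pow _)] at hdeg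
    simp only [natDegree_pow, natDegree_X_sub_C, mul_one] at hdeg
    have hsum : ∑ c ∈ M.toFinset, (M.count c - 1) + M.toFinset.card = M.card := by
      rw [← Multiset.toFinset_sum_count_eq M, Finset.card_eq_sum_ones, ← Finset.sum_add_distrib]
      apply Finset.sum_congr rfl
      intro c hc
      have : 0 < M.count c := Multiset.count_pos.2 (Multiset.mem_toFinset.1 hc)
      omega
    omega

end Pool.Agent.ZPP
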