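import Pool.Agent.ZPP.NFa
import Pool.Agent.ZPP.Rec
import Pool.Agent.ZPP.PfA
import Pool.Agent.ZPP.PfB
import Pool.Agent.ZPP.PfC
import Pool.Agent.ZPP.SZ
import Pool.Agent.ZPP.Lin
import Pool.Agent.ZPP.Par
import Pool.Agent.ZPP.Nz
import Pool.Agent.ZPP.Pl
import Pool.Agent.ZPP.Wr
import Pool.Agent.ZPP.Gp
import Pool.Agent.ZPP.Al
import Pool.Agent.ZPP.Dir
import Pool.Agent.ZPP.Low
import Pool.Agent.ZPP.Cen
import Pool.Agent.ZPP.Alp
import Pool.Agent.ZPP.Cub
import Pool.Agent.ZPP.Bet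
import Pool.Agent.ZPP.Fin

/-!
# ZPP: assembly (helper91)

`low_all`, `fin_all`: signed sums in the plane over a field with `p` elements.
-/

set_option autoImplicit false

namespace Pool.Agent.ZPP

theorem pfC_all : PfCC := thm_PfC thm_Rec thm_PfA thm_PfB

theorem lin_all : LinC := thm_Lin thm_PfA

theorem nz_all : NzC := thm_Nz thm_Rec thm_PfA thm_PfB thm_PfC thm_Par

theorem dir_all : DirC :=
  thm_Dir (fun {_} _ h2 => (nz_all h2).1) thm_Wr thm_Gp thm_Al thm_Pl

theorem low_all : LowC :=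
  thm_Low thm_Rec pfC_all (thm_SZ thm_PfA) lin_all dir_all

theorem cen_all : CenC :=
  thm_Cen thm_Rec pfC_all lin_all dir_all (fun {_} _ => (thm_PfB thm_PfA).2.1)

theorem alp_all : AlpC := thm_Alp thm_Rec pfC_all lin_all dir_all

theorem bet_all : BetC := thm_Bet thm_Rec pfC_all thm_PfA thm_Cub

theorem fin_all : FinC :=
  thm_Fin thm_Rec nz_all thm_Al thm_Pl dir_all cen_all alp_all bet_all

end Pool.Agent.ZPP
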