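import Pool.Agent.ZPP.St

/-!
# Campaign ZPP, Bet: from the identity for cubic functions to sets (Lean: helper6)
-/

set_option autoImplicit false

open Finset Polynomial

namespace Pool.Agent.ZPP

private theorem Bet_ne {p : ℕ} {a b : V p} (h : dt a b ≠ 0) : a ≠ b := by
  rintro rfl
  apply h
  unfold dt
  ring

theorem thm_Bet : St_Bet := by
  intro hRec hPf hA hCub p _ hp A hcard h0 hfc u hu v hv w hw huv huw hvw hEu hEv hEw
  obtain ⟨-, r2, r3, r4, -, r6, r7, -⟩ := hRec (p := p)
  have nuv : u ≠ v := Bet_ne huv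
  have nuw : u ≠ w := Bet_ne huw
  have nvw : v ≠ w := Bet_ne hvw
  obtain ⟨S, hS⟩ : ∃ S : Finset (V p), S = A \ {u, v, w} := ⟨_, rfl⟩
  have hsub : ({u, v, w} : Finset (V p)) ⊆ A := by
    intro x hx
    simp only [mem_insert, mem_singleton] at hx
    rcases hx with rfl | rfl | rfl <;> assumption
  have hc3 : ({u, v, w} : Finset (V p)).card = 3 := card_eq_three.2 ⟨u, v, w, nuv, nuw, nvw, rfl⟩
  have hSc : S.card = 2 * p - 5 := by
    rw [hS, card_sdiff_of_subset hsub, hcard, hc3]
    omega
  have huS : u ∉ S := by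
    rw [hS]
    simp
  have hvS : v ∉ S := by
    rw [hS]
    simp
  have hwS : w ∉ S := by
    rw [hS]
    simp
  have hF : fc S ∈ Pf p 3 := by
    have h1 := hPf S (by omega)
    have h2 : 2 * p - 2 - S.card = 3 := by omega
    rwa [h2] at h1
  have hodd : ∀ g, fc S (-g) = -fc S g := by
    intro g
    have h2 : Odd S.card := by
      rw [hSc]
      exact ⟨p - 3, by omega⟩
    rw [r4, h2.neg_one_pow, neg_one_mul]
  -- the sets
  have e1 : A.erase u = insert v (insert w S) := by
    ext x
    simp only [hS, mem_erase, mem_insert, mem_sdiff, mem_singleton, not_or]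
    constructor
    · rintro ⟨h1, h2⟩
      by_cases h3 : x = v
      · exact Or.inl h3
      by_cases h4 : x = w
      · exact Or.inr (Or.inl h4)
      exact Or.inr (Or.inr ⟨h2, h1, h3, h4⟩)
    · rintro (rfl | rfl | ⟨h1, h2, -, -⟩)
      · exact ⟨nuv.symm, hv⟩
      · exact ⟨nuw.symm, hw⟩
      · exact ⟨h2, h1⟩
  have e2 : A.erase v = insert u (insert w S) := by
    ext x
    simp only [hS, mem_erase, mem_insert, mem_sdiff, mem_singleton, not_or]
    constructor
    · rintro ⟨h1, h2⟩
      by_cases h3 : x = u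
      · exact Or.inl h3
      by_cases h4 : x = w
      · exact Or.inr (Or.inl h4)
      exact Or.inr (Or.inr ⟨h2, h3, h1, h4⟩)
    · rintro (rfl | rfl | ⟨h1, -, h2, -⟩)
      · exact ⟨nuv, hu⟩
      · exact ⟨nvw.symm, hw⟩
      · exact ⟨h2, h1⟩
  have e3 : A.erase w = insert u (insert v S) := by
    ext x
    simp only [hS, mem_erase, mem_insert, mem_sdiff, mem_singleton, not_or]
    constructor
    · rintro ⟨h1, h2⟩
      by_cases h3 : x = u
      · exact Or.inl h3
      by_cases h4 : x = v
      · exact Or.inr (Or.inl h4)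
      exact Or.inr (Or.inr ⟨h2, h3, h4, h1⟩)
    · rintro (rfl | rfl | ⟨h1, -, -, h2⟩)
      · exact ⟨nuw, hu⟩
      · exact ⟨nvw, hv⟩
      · exact ⟨h2, h1⟩
  have e4 : A = insert w (insert u (insert v S)) := by
    rw [← e3, insert_erase hw]
  have m1 : v ∉ insert w S := by
    rw [mem_insert]
    rintro (h | h)
    · exact nvw h
    · exact hvS h
  have m2 : u ∉ insert w S := by
    rw [mem_insert]
    rintro (h | h)
    · exact nuw h
    · exact huS h
  have m3 : u ∉ insert v S := by
    rw [mem_insert]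
    rintro (h | h)
    · exact nuv h
    · exact huS h
  have m4 : w ∉ insert u (insert v S) := by
    rw [mem_insert, mem_insert]
    rintro (h | h | h)
    · exact nuw h.symm
    · exact nvw h.symm
    · exact hwS h
  -- differences
  have d1 : ∀ g, fc S (g + v + w) - fc S (g + v - w) - fc S (g - v + w) + fc S (g - v - w) = 0 := by
    intro g
    have h := hEu g
    rw [e1, r2 _ _ m1, r2 _ _ hwS, r2 _ _ hwS] at h
    rw [← h]
    ring
  have d2 : ∀ g, fc S (g + u + w) - fc S (g + u - w) - fc S (g - u + w) + fc S (g - u - w) = 0 := by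
    intro g
    have h := hEv g
    rw [e2, r2 _ _ m2, r2 _ _ hwS, r2 _ _ hwS] at h
    rw [← h]
    ring
  have d3 : ∀ g, fc (A.erase w) g =
      fc S (g + u + v) - fc S (g + u - v) - fc S (g - u + v) + fc S (g - u - v) := by
    intro g
    rw [e3, r2 _ _ m3, r2 _ _ hvS, r2 _ _ hvS]
    ring
  have d4 : ∀ g, (fc S (g + w + u + v) - fc S (g + w + u - v) - fc S (g + w - u + v) +
      fc S (g + w - u - v)) - (fc S (g - w + u + v) - fc S (g - w + u - v) - fc S (g - w - u + v) +
      fc S (g - w - u - v)) = 0 := by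
    intro g
    have h := hfc g
    rw [e4, r2 _ _ m4, ← e3, d3, d3] at h
    exact h
  -- the values
  have hemp : (0 : V p) ∈ SS (∅ : Finset (V p)) := by
    unfold SS
    rw [mem_image]
    exact ⟨∅, by simp, by simp [sg]⟩
  have hw0 : w ∉ (∅ : Finset (V p)) := notMem_empty _
  have hvw' : v ∉ insert w (∅ : Finset (V p)) := by
    rw [mem_insert]
    rintro (h | h)
    · exact nvw h
    · exact absurd h (notMem_empty _)
  have huvw : u ∉ insert v (insert w (∅ : Finset (V p))) := by
    rw [mem_insert, mem_insert]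
    rintro (h | h | h)
    · exact nuv h
    · exact nuw h
    · exact absurd h (notMem_empty _)
  have hset : ({u, v, w} : Finset (V p)) = insert u (insert v (insert w ∅)) := rfl
  have hval : ∀ x, -x ∈ SS ({u, v, w} : Finset (V p)) → fc S x = 0 := by
    intro x hx
    by_contra hne
    have h1 := r6 S x hne
    rw [hS] at h1
    have h2 := r7 A {u, v, w} hsub _ hx _ h1
    rw [neg_add_cancel] at h2
    exact h0 h2
  have v1 : fc S (u + v + w) = 0 := by
    apply hval
    rw [hset, r3 _ _ huvw]
    left
    rw [r3 _ _ hvw']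
    left
    rw [r3 _ _ hw0]
    left
    have : -(u + v + w) + u + v + w = 0 := by abel
    rw [this]
    exact hemp
  have v2 : fc S (u - v + w) = 0 := by
    apply hval
    rw [hset, r3 _ _ huvw]
    left
    rw [r3 _ _ hvw']
    right
    rw [r3 _ _ hw0]
    left
    have : -(u - v + w) + u - v + w = 0 := by abel
    rw [this]
    exact hemp
  have v3 : fc S (-u + v + w) = 0 := by
    apply hval
    rw [hset, r3 _ _ huvw]
    right
    rw [r3 _ _ hvw']
    left
    rw [r3 _ _ hw0]
    left
    have : -(-u + v + w) - u + v + w = 0 := by abel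
    rw [this]
    exact hemp
  have v4 : fc S (-u - v + w) = 0 := by
    apply hval
    rw [hset, r3 _ _ huvw]
    right
    rw [r3 _ _ hvw']
    right
    rw [r3 _ _ hw0]
    left
    have : -(-u - v + w) - u - v + w = 0 := by abel
    rw [this]
    exact hemp
  rcases hCub hA hp (fc S) hF hodd u v w huv huw hvw v1 v2 v3 v4 d1 d2 d4 with h | h | h
  · exfalso
    obtain ⟨g, hg⟩ := hEw
    apply hg
    rw [d3]
    exact h g
  · exact Or.inl h
  · exact Or.inr h

end Pool.Agent.ZPP
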