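import Mathlib

/-!
# Campaign ZPP: definitions (subset sums in the plane over a field with `p` elements)

Only Mathlib.  `V p` is the plane, `dt` the determinant.  Signed sums `± a₁ ± a₂ ⋯` are used instead of subset sums
(the map `x ↦ 2 x - ∑ S` is a bijection between them).
-/

set_option autoImplicit false

open Finset Polynomial

namespace Pool.Agent.ZPP

/-- the plane -/
abbrev V (p : ℕ) : Type := ZMod p × ZMod p

/-- the determinant -/
def dt {p : ℕ} (a b : V p) : ZMod p := a.1 * b.2 - a.2 * b.1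

/-- the signed sum `∑_{b ∈ B} b - ∑_{b ∈ S, b ∉ B} b` for `B ⊆ S` -/
def sg {p : ℕ} (S B : Finset (V p)) : V p := ∑ b ∈ B, b + ∑ b ∈ B, b - ∑ b ∈ S, b

/-- the set of the signed sums -/
def SS {p : ℕ} (S : Finset (V p)) : Finset (V p) := S.powerset.image (sg S)

/-- the coefficients of `∏_{a ∈ S} (X^a - X^{-a})`, up to a sign -/
def fc {p : ℕ} (S : Finset (V p)) (g : V p) : ZMod p :=
  ∑ B ∈ S.powerset, if sg S B = g then (-1) ^ B.card else 0

/-- the polynomial functions of degree at most `d` -/
def Pf (p d : ℕ) : Submodule (ZMod p) (V p → ZMod p) :=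
  Submodule.span (ZMod p) {f | ∃ i j : ℕ, i + j ≤ d ∧ f = fun g => g.1 ^ i * g.2 ^ j}

/-- the monic polynomial with the roots `M` -/
noncomputable def Pm {p : ℕ} (M : Multiset (ZMod p)) : (ZMod p)[X] := (M.map fun c => X - C c).prod

/-- the coefficients of `f` at the places `i` with `t - p < i < p` vanish -/
def Gap (p t : ℕ) (f : (ZMod p)[X]) : Prop := ∀ i, i < p → t < i + p → f.coeff i = 0

/-- the product of the linear forms -/
noncomputable def Pl {p : ℕ} (m m' : V p) (S : Finset (V p)) : (ZMod p)[X] :=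
  ∏ a ∈ S, (C (dt m a) * X + C (dt m' a))

/-- the roots of `Pl m m' S` -/
def Ro {p : ℕ} [Fact p.Prime] (m m' : V p) (S : Finset (V p)) : Multiset (ZMod p) :=
  (S.filter fun a => dt m a ≠ 0).val.map fun a => - dt m' a / dt m a

end Pool.Agent.ZPP
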