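import Pool.Agent.ZPP.St
import Pool.Agent.Helper64.Rho.Sums

/-!
# ZPP, module NFa (helper91): groups of order `p ^ 2` and the plane
-/

set_option autoImplicit false

open Finset

namespace Pool.Agent.ZPP

/-- the conclusion of `St_Low` -/
def LowC : Prop := ∀ {p : ℕ} [Fact p.Prime], p ≠ 2 → ∀ A : Finset (V p), (0 : V p) ∉ A →
  p - 1 ≤ A.card → A.card ≤ 2 * p - 3 → p * (A.card + 2 - p) ≤ (SS A).card

/-- the conclusion of `St_Fin` -/
def FinC : Prop := ∀ {p : ℕ} [Fact p.Prime], 5 ≤ p → ∀ A : Finset (V p), (0 : V p) ∉ A →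
  A.card = 2 * p - 2 → ∀ g, g ∈ SS A

theorem NFa_two {p : ℕ} [Fact p.Prime] (hp : p ≠ 2) (x y : V p) (h : x + x = y + y) : x = y := by
  have h2 : (2 : ZMod p) ≠ 0 := by
    intro h0
    have h1 : ((2 : ℕ) : ZMod p) = 0 := by exact_mod_cast h0
    rw [ZMod.natCast_eq_zero_iff] at h1
    exact hp ((Nat.prime_dvd_prime_iff_eq Fact.out Nat.prime_two).1 h1)
  have e1 : x.1 + x.1 = y.1 + y.1 := congrArg Prod.fst h
  have e2 : x.2 + x.2 = y.2 + y.2 := congrArg Prod.snd h
  rw [← two_mul, ← two_mul] at e1 e2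
  exact Prod.ext (mul_left_cancel₀ h2 e1) (mul_left_cancel₀ h2 e2)

theorem NFa_mod {p : ℕ} [hp : Fact p.Prime] (G : Type) [AddCommGroup G] [Finite G]
    [Module (ZMod p) G] (hc : Nat.card G = p ^ 2) : Nonempty (G ≃+ V p) := by
  have hfin : Module.Finite (ZMod p) G := Module.Finite.of_finite
  have hf : Module.finrank (ZMod p) G = 2 := by
    have h1 := Module.natCard_eq_pow_finrank (K := ZMod p) (V := G)
    rw [hc, Nat.card_zmod] at h1
    exact (Nat.pow_right_injective hp.out.two_le h1).symm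
  have hf2 : Module.finrank (ZMod p) (V p) = 2 := by
    rw [Module.finrank_prod, Module.finrank_self]
  exact ⟨(LinearEquiv.ofFinrankEq (R := ZMod p) G (V p) (hf.trans hf2.symm)).toAddEquiv⟩

/-- a group of order `p ^ 2` which is not cyclic is the plane -/
theorem NFa_iso {p : ℕ} [hp : Fact p.Prime] (G : Type) [AddCommGroup G] [Finite G]
    (hc : Nat.card G = p ^ 2) (hn : ¬ IsAddCyclic G) : Nonempty (G ≃+ V p) := by
  have hk : ∀ g : G, p • g = 0 := by
    intro g
    have h1 : addOrderOf g ∣ p ^ 2 := by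
      rw [← hc]
      exact addOrderOf_dvd_natCard g
    obtain ⟨k, hk, he⟩ := (Nat.dvd_prime_pow hp.out).1 h1
    have hk2 : k ≠ 2 := by
      rintro rfl
      apply hn
      exact isAddCyclic_of_addOrderOf_eq_card g (by rw [he, hc])
    have h2 : addOrderOf g ∣ p := by
      rw [he]
      calc p ^ k ∣ p ^ 1 := pow_dvd_pow p (by omega)
        _ = p := pow_one p
    exact addOrderOf_dvd_iff_nsmul_eq_zero.1 h2
  exact @NFa_mod p hp G _ _ (AddCommGroup.zmodModule hk) hc

/-- signed sums and subset sums -/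
theorem NFa_card {p : ℕ} [Fact p.Prime] (hp : p ≠ 2) (G : Type) [AddCommGroup G] [DecidableEq G]
    (e : G ≃+ V p) (A : Finset G) :
    (SS (A.map e.toEquiv.toEmbedding)).card = (Helper64.Rho.FS A id).card := by
  have h1 : SS (A.map e.toEquiv.toEmbedding) = (Helper64.Rho.FS A id).image
      (fun x => e x + e x - ∑ b ∈ A.map e.toEquiv.toEmbedding, b) := by
    ext g
    unfold SS
    rw [mem_image, mem_image]
    constructor
    · rintro ⟨B, hB, rfl⟩
      rw [mem_powerset, subset_map_iff] at hB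
      obtain ⟨B', hB', rfl⟩ := hB
      refine ⟨∑ b ∈ B', b, Helper64.Rho.mem_FS.2 ⟨B', hB', rfl⟩, ?_⟩
      unfold sg
      rw [map_sum, sum_map B']
      rfl
    · rintro ⟨x, hx, rfl⟩
      obtain ⟨B', hB', rfl⟩ := Helper64.Rho.mem_FS.1 hx
      refine ⟨B'.map e.toEquiv.toEmbedding, mem_powerset.2 (map_subset_map.2 hB'), ?_⟩
      unfold sg
      rw [map_sum, sum_map B']
      rfl
  rw [h1, card_image_of_injective]
  intro x y hxy
  have h2 : e x + e x = e y + e y := sub_left_injective hxy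
  exact e.injective (NFa_two hp _ _ h2)

theorem NFa_zero {p : ℕ} (G : Type) [AddCommGroup G]
    (e : G ≃+ V p) (A : Finset G) (h0 : (0 : G) ∉ A) :
    (0 : V p) ∉ A.map e.toEquiv.toEmbedding := by
  intro h
  obtain ⟨x, hx, he⟩ := mem_map.1 h
  have : e x = 0 := he
  rw [(map_eq_zero_iff e e.injective).1 this] at hx
  exact h0 hx

/-- the bound for `p - 1 ≤ |A| ≤ 2 p - 3` -/
theorem NFa_low (hLow : LowC) {p : ℕ} [hp : Fact p.Prime] (hp2 : p ≠ 2) (G : Type) [AddCommGroup G]
    [Finite G] [DecidableEq G] (hc : Nat.card G = p ^ 2) (hn : ¬ IsAddCyclic G) (A : Finset G)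
    (h0 : (0 : G) ∉ A) (h1 : p - 1 ≤ A.card) (h2 : A.card ≤ 2 * p - 3) :
    p * (A.card + 2 - p) ≤ (Helper64.Rho.FS A id).card := by
  obtain ⟨e⟩ := NFa_iso G hc hn
  have h := hLow hp2 (A.map e.toEquiv.toEmbedding) (NFa_zero G e A h0)
    (by rwa [card_map]) (by rwa [card_map])
  rwa [NFa_card hp2 G e A, card_map] at h

/-- everything is a sum for `2 p - 2 ≤ |A|` -/
theorem NFa_fin (hFin : FinC) {p : ℕ} [hp : Fact p.Prime] (hp5 : 5 ≤ p) (G : Type) [AddCommGroup G]
    [Finite G] [DecidableEq G] (hc : Nat.card G = p ^ 2) (hn : ¬ IsAddCyclic G) (A : Finset G)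
    (h0 : (0 : G) ∉ A) (h1 : 2 * p - 2 ≤ A.card) :
    (Helper64.Rho.FS A id).card = Nat.card G := by
  obtain ⟨e⟩ := NFa_iso G hc hn
  obtain ⟨B, hBA, hB⟩ := exists_subset_card_eq h1
  have h2 := hFin hp5 (B.map e.toEquiv.toEmbedding)
    (NFa_zero G e B fun h => h0 (hBA h)) (by rwa [card_map])
  have h3 : SS (B.map e.toEquiv.toEmbedding) = univ := eq_univ_iff_forall.2 h2
  have h4 := NFa_card (p := p) (by omega) G e B
  rw [h3, card_univ, ← Nat.card_eq_fintype_card, ← Nat.card_congr e.toEquiv] at h4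
  have h5 : (Helper64.Rho.FS B id).card ≤ (Helper64.Rho.FS A id).card :=
    card_le_card (Helper64.Rho.FS_mono hBA id)
  have h6 : (Helper64.Rho.FS A id).card ≤ Nat.card G := by
    have : Fintype G := Fintype.ofFinite G
    rw [Nat.card_eq_fintype_card]
    exact card_le_univ _
  omega

end Pool.Agent.ZPP
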