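import Pool.Agent.ZPP.Defs

/-!
# Campaign ZPP: statements (subset sums in the plane over a field with `p` elements)

Aim: `A ⊆ V p` a set of `t` nonzero vectors, `p` odd.  `p - 1 ≤ t ≤ 2 p - 3` implies at least `p (t + 2 - p)` (signed) sums
(`St_Low`), and `t = 2 p - 2`, `p ≥ 5` implies that everything is a sum (`St_Fin`).  Needed for MP_ec93d3 (near-full case of
the group of order `p ^ 2`).

Idea.  `fc A` is a polynomial function of degree at most `2 p - 2 - t`, zero off `SS A`.  If it is not zero: Schwartz-Zippel.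
If it is zero, then for many directions `w` of `A` the function `fc (A.erase w)` is not zero (`St_Dir`, from a Wronskian),
and it is constant along `w`; the missing sums lie on few parallels to `w` for each of these `w`.

Every `St_X` is a statement with its proof in the docstring.  A module proves `thm_X : St_A → St_B → ... → St_X`
(or `thm_X : St_X` if it is a single definition with the hypotheses inside, as here).
-/

set_option autoImplicit false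

open Finset Polynomial

namespace Pool.Agent.ZPP

/-! ### Signed sums -/

/-- (Rec) Calculus of `fc` and `SS`.
Proof.  (2) `sum_powerset_insert`; `sg (insert a S) B = sg S B - a`, `sg (insert a S) (insert a B) = sg S B + a` for `B ⊆ S`.  (3) The same.
(4), (5) The involution `B ↦ S \ B` of the power set, `sg S (S \ B) = - sg S B`, `|S \ B| = |S| - |B|`.  (6) If no `B` has
`sg S B = g` all the terms vanish.  (7) `sg C B + sg (S \ C) B' = sg S (B ∪ B')`.  (8) `S = insert u (insert (-u) S')`; (2) for `S.erase (-u) = insert u S'` and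
`S.erase u = insert (-u) S'`. -/
def St_Rec : Prop := ∀ {p : ℕ} [Fact p.Prime],
  (∀ g : V p, fc (∅ : Finset (V p)) g = if g = 0 then 1 else 0) ∧
  (∀ (S : Finset (V p)) (a : V p), a ∉ S → ∀ g, fc (insert a S) g = fc S (g + a) - fc S (g - a)) ∧
  (∀ (S : Finset (V p)) (a : V p), a ∉ S → ∀ g, g ∈ SS (insert a S) ↔ g + a ∈ SS S ∨ g - a ∈ SS S) ∧
  (∀ (S : Finset (V p)) (g : V p), fc S (-g) = (-1) ^ S.card * fc S g) ∧
  (∀ (S : Finset (V p)) (g : V p), g ∈ SS S → -g ∈ SS S) ∧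
  (∀ (S : Finset (V p)) (g : V p), fc S g ≠ 0 → g ∈ SS S) ∧
  (∀ (S C : Finset (V p)), C ⊆ S → ∀ c ∈ SS C, ∀ d ∈ SS (S \ C), c + d ∈ SS S) ∧
  (∀ (S : Finset (V p)) (u : V p), u ∈ S → -u ∈ S → u ≠ -u →
    ∀ g, fc (S.erase (-u)) g = - fc (S.erase u) g)

/-! ### Polynomial functions -/

/-- (PfA) Calculus of polynomial functions.
Proof.  `Submodule.span_induction` everywhere.  (2) monomials.  (3) The function `g ↦ g.1 * u.1 + g.2 * v.1 + w.1` lies in `Pf p 1`, the same for the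
second coordinate; with (2) (induction on the exponent) its powers `i` lie in `Pf p i`, and the products in `Pf p (i + j)`.  (4) For a monomial
`c` is the indicator function of `(i, j)`; sums and multiples are clear. -/
def St_PfA : Prop := ∀ {p : ℕ} [Fact p.Prime] (d e : ℕ),
  (d ≤ e → Pf p d ≤ Pf p e) ∧
  (∀ f ∈ Pf p d, ∀ h ∈ Pf p e, (fun g => f g * h g) ∈ Pf p (d + e)) ∧
  (∀ f ∈ Pf p d, ∀ u v w : V p, (fun g : V p => f (g.1 • u + g.2 • v + w)) ∈ Pf p d) ∧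
  (∀ f ∈ Pf p d, ∃ c : ℕ → ℕ → ZMod p, ∀ g : V p,
    f g = ∑ i ∈ range (d + 1), ∑ j ∈ range (d + 1 - i), c i j * g.1 ^ i * g.2 ^ j)

/-- (PfB) Differences of polynomial functions.
Proof.  (2) `i + j ≤ 0`.  (1) It is enough to show `(fun g => f (g + a) - f g) ∈ Pf p d` for `f ∈ Pf p (d + 1)` (for `a` and for `-a`, subtract), and this for a monomial `f` of degree
exactly `n + 1 ≤ d + 1` with `Pf p n`, by induction on `n` (a constant has difference `0`): `f = x * f'` (or `y * f'`), `f (g + a) - f g = x (g) * (f' (g + a) - f' g) + a.1 * f' (g + a)`, and `f' (g + a)` is in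
`Pf p n` by `St_PfA` (3) (`u = (1, 0)`, `v = (0, 1)`, `w = a`).  (3) The function is `(1 - g.1 ^ (p - 1)) * (1 - g.2 ^ (p - 1))` (`ZMod.pow_card_sub_one_eq_one`). -/
def St_PfB : Prop := St_PfA → ∀ {p : ℕ} [Fact p.Prime],
  (∀ d, ∀ f ∈ Pf p (d + 1), ∀ a : V p, (fun g => f (g + a) - f (g - a)) ∈ Pf p d) ∧
  (∀ f ∈ Pf p 0, ∀ g h : V p, f g = f h) ∧
  (fun g : V p => if g = 0 then (1 : ZMod p) else 0) ∈ Pf p (2 * p - 2)

/-- (PfC) `fc S` is a polynomial function.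
Proof.  Induction on `S` (`Finset.induction_on`), `St_Rec` (1), (2), `St_PfB` (3), (1). -/
def St_PfC : Prop := St_Rec → St_PfA → St_PfB → ∀ {p : ℕ} [Fact p.Prime] (S : Finset (V p)),
  S.card ≤ 2 * p - 2 → fc S ∈ Pf p (2 * p - 2 - S.card)

/-- (SZ) Number of the places where a polynomial function does not vanish.
Proof.  By (4) of `St_PfA` (or directly, `span_induction`) there is `P : MvPolynomial (Fin 2) (ZMod p)` with total degree at most `d` and `f g = eval ![g.1, g.2] P`; `P ≠ 0`.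
`MvPolynomial.schwartz_zippel_totalDegree` with `S = univ` : at most `d p` zeros of `p ^ 2` points.  (Or directly: let `j` be maximal such that the coefficient `F_j (x)` of `y ^ j`, a polynomial
in `x` of degree at most `d - j` and of degree at most `p - 1` after reduction, is not zero...) -/
def St_SZ : Prop := St_PfA → ∀ {p : ℕ} [Fact p.Prime] (d : ℕ), ∀ f ∈ Pf p d, d ≤ p →
  (∃ g, f g ≠ 0) → p * (p - d) ≤ (univ.filter fun g : V p => f g ≠ 0).card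

/-- (Lin) Restriction to lines; periodic functions.
Proof.  (1) `St_PfA` (3) (with `v = 0`) and (4): `f (u + z • v)` is a sum of `c i j * z ^ i * 0 ^ j`.  (2) `f (g + z • a) = f g` for all `z` (`z = (k : ZMod p)`, induction on `k`).  Choose `b` with `dt a b = 1`; `g = x • a + dt a g • b` for some `x`, so
`f g = f (0 + dt a g • b)`, and (1). -/
def St_Lin : Prop := St_PfA → ∀ {p : ℕ} [Fact p.Prime] (d : ℕ), ∀ f ∈ Pf p d,
  (∀ u v : V p, ∃ q : (ZMod p)[X], q.natDegree ≤ d ∧ ∀ z : ZMod p, f (u + z • v) = q.eval z) ∧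
  (∀ a : V p, a ≠ 0 → (∀ g, f (g + a) = f g) →
    ∃ q : (ZMod p)[X], q.natDegree ≤ d ∧ ∀ g, f g = q.eval (dt a g))

/-! ### Leading coefficients -/

/-- (Par) The moments of order `|S|`.
Proof.  Write `D S i j` for the sum, `x = dt m`, `y = dt m'`.  Induction on `S`, for all `i, j`.  For `a ∉ S` (`sum_powerset_insert`) `D (insert a S) i j = ∑_(B ⊆ S) (-1) ^ |B| ((x s - x a) ^ i (y s - y a) ^ j - (x s + x a) ^ i (y s + y a) ^ j)`, `s = sg S B`.
Expand with the binomial theorem (`add_pow`): a combination of the `D S k l`, `k ≤ i`, `l ≤ j`, `(k, l) ≠ (i, j)` (the terms `(i, j)` cancel).  If `i + j ≤ |S|` all of them have `k + l < |S|` and vanish.  If `i + j = |S| + 1` only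
`(k, l) = (i - 1, j)`, `(i, j - 1)` remain: `D (insert a S) i j = - 2 i (x a) D S (i - 1) j - 2 j (y a) D S i (j - 1)`, and
`(Pl m m' (insert a S)).coeff i = (x a) (Pl m m' S).coeff (i - 1) + (y a) (Pl m m' S).coeff i`. -/
def St_Par : Prop := ∀ {p : ℕ} [Fact p.Prime] (m m' : V p) (S : Finset (V p)) (i j : ℕ),
  (i + j < S.card → ∑ B ∈ S.powerset,
    (-1 : ZMod p) ^ B.card * (dt m (sg S B) ^ i * dt m' (sg S B) ^ j) = 0) ∧
  (i + j = S.card → ∑ B ∈ S.powerset,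
    (-1 : ZMod p) ^ B.card * (dt m (sg S B) ^ i * dt m' (sg S B) ^ j) =
      (-2) ^ S.card * i.factorial * j.factorial * (Pl m m' S).coeff i)

/-- (Nz) `fc S = 0` and the coefficients of `Pl`.
Proof.  For every `φ`: `∑_(B ⊆ S) (-1) ^ |B| φ (sg S B) = ∑_g fc S g * φ g`  (E).  (1) `i < p`, `|S| < i + p`.  If `i > |S|` the coefficient is zero (`natDegree` of `Pl` is at most `|S|`).  Otherwise `j = |S| - i < p`, (E) and `St_Par` give
`0 = (-2) ^ |S| i! j! coeff`, and `i!, j!, 2` are not zero in `ZMod p`.  (2) `fc S ∈ Pf p 1` (`St_PfC`), so `fc S g = c₀ + c₁ g.1 + c₂ g.2` (`St_PfA` (4)); `fc S (-g) = - fc S g` gives `c₀ = 0`.  `dt (0, -1) g = g.1`, `dt (1, 0) g = g.2`.  `St_Par` for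
`(i, j) = (p - 2, p - 1)` and (E): `0 = ∑_g (c₁ g.1 + c₂ g.2) g.1 ^ (p - 2) g.2 ^ (p - 1) = c₁ (∑_x x ^ (p - 1)) (∑_y y ^ (p - 1)) + c₂ (∑_x x ^ (p - 2)) (∑_y y ^ p) = c₁` (`∑ x ^ (p - 1) = -1`, `∑_y y ^ p = ∑ y = 0`).  In the same way `c₂ = 0` from `(p - 1, p - 2)`. -/
def St_Nz : Prop := St_Rec → St_PfA → St_PfB → St_PfC → St_Par → ∀ {p : ℕ} [Fact p.Prime], p ≠ 2 →
  (∀ (m m' : V p) (S : Finset (V p)), (∀ g, fc S g = 0) → Gap p S.card (Pl m m' S)) ∧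
  (∀ S : Finset (V p), S.card = 2 * p - 3 → Gap p S.card (Pl (0, -1) (1, 0) S) → ∀ g, fc S g = 0)

/-- (Pl) The roots of `Pl`.
Proof.  (1) `κ = ∏ dt m a` over the `a ∈ S` with `dt m a ≠ 0` times `∏ dt m' a` over the other ones; `dt m a = dt m' a = 0`, `dt m m' ≠ 0` would imply `a = 0`.  (2) `- dt m' a / dt m a = c` iff `dt (m' + c • m) a = 0`.  (3) By (2) the number is at most the number of the nonzero
multiples of a vector `≠ 0` (`m' + c • m ≠ 0`).  (4) `- dt m' a / dt m a = - dt m' b / dt m b` iff `dt m' a * dt m b = dt m' b * dt m a`, and `dt m' b * dt m a - dt m' a * dt m b = dt m' m * dt b a` up to a sign (Pluecker, `ring`). -/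
def St_Pl : Prop := ∀ {p : ℕ} [Fact p.Prime] (m m' : V p) (S : Finset (V p)), dt m m' ≠ 0 →
  (0 : V p) ∉ S →
  (∃ κ : ZMod p, κ ≠ 0 ∧ Pl m m' S = C κ * Pm (Ro m m' S)) ∧
  (∀ (a : V p) (c : ZMod p), dt m a ≠ 0 → (- dt m' a / dt m a = c ↔ dt (m' + c • m) a = 0)) ∧
  (∀ c : ZMod p, (Ro m m' S).count c ≤ p - 1) ∧
  (∀ a b : V p, dt m a ≠ 0 → dt m b ≠ 0 → (- dt m' a / dt m a = - dt m' b / dt m b ↔ dt a b = 0))

/-! ### Polynomials in one variable with a gap -/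

/-- (Wr) The Wronskian.
Proof.  `t = |M|`, `Π = Pm M` monic of degree `t`.  `t ≥ p`: otherwise `i = t` contradicts `Gap`.  So `Π = X ^ p * g + h` with `m = t - p ≤ p - 2`, `g` monic of degree `m`, degree of `h` at most `m` (`Gap`; `h` is the part of the terms with exponents below `p`).
`κ = h.coeff m`, `h₁ = h - κ g`, degree less than `m`.  If `h₁ = 0` then `Π = g * (X ^ p + κ) = g * (X + C κ) ^ p` (`κ ^ p = κ`), so `M.count (-κ) ≥ p`: contradiction.  So `h₁ ≠ 0`; `k` its degree, `k < m < p`, and `w = g * h₁' - g' * h₁` has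
the coefficient `(k - m) * lc ≠ 0` at `m + k - 1` and degree `m + k - 1 ≤ 2 m - 2` (here `m ≥ 1`; `m + k - 1 ≥ 0`: `m ≥ 1`).  `w = g * h' - g' * h = g * Π' - g' * Π` (the derivative of `X ^ p` is `0`).  For a root `c` of multiplicity `n_c` in `M`: `(X - c) ^ (n_c - 1)` divides `Π` and `Π'`, so `w`.
So `∑_c (n_c - 1) ≤ 2 m - 2` (the sum over the different roots; `Polynomial.card_roots'`, `rootMultiplicity`), that is `t - |M.toFinset| ≤ 2 (t - p) - 2`. -/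
def St_Wr : Prop := ∀ {p : ℕ} [Fact p.Prime] (M : Multiset (ZMod p)), (∀ c, M.count c ≤ p - 1) →
  M.card ≤ 2 * p - 2 → Gap p M.card (Pm M) → 2 * p + 2 ≤ M.card + M.toFinset.card

/-- (Gp) Many roots whose removal destroys the gap.
Proof.  Let `N ≤ M` be minimal with `Gap p N.card (Pm N)` (well-founded induction on the cardinality), `E = M - N`.  `St_Wr` for `N`: `|N.toFinset| ≥ 2 p + 2 - |N|`.  `W` is the set of the `c ∈ N.toFinset` with `c ∉ E`: at least `2 p + 2 - |N| - |E| = 2 p + 2 - |M|` elements.  Let `c ∈ W` and suppose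
`Gap p (|M| - 1) (Pm (M.erase c))`.  `Pm N = X ^ p * g + h`, degree of `h` at most `|N| - p`; `Pm M = Pm N * Pm E = X ^ p * (g * Pm E) + h * Pm E` and the degree of `h * Pm E` is at most `|M| - p < p`.  `Pm (M.erase c) = X ^ p * g' + h'`, degree of `h'` at most `|M| - 1 - p`, and
`Pm M = X ^ p * ((X - c) * g') + (X - c) * h'`.  By uniqueness (`X ^ p` has degree `p`) `(X - c) * h' = h * Pm E`, `(X - c) * g' = g * Pm E`; `Pm E` does not vanish at `c`, so `g` and `h` vanish at `c`: `g = (X - c) g₁`, `h = (X - c) h₁`, `Pm (N.erase c) = X ^ p * g₁ + h₁` and the degree of `h₁`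
is at most `|N| - 1 - p`: `Gap` for `N.erase c`, against the minimality.  (`|N| ≥ p + 1`: `|N| ≥ p` as in `St_Wr`, and `|N.toFinset| ≤ p` with `St_Wr`.) -/
def St_Gp : Prop := St_Wr → ∀ {p : ℕ} [Fact p.Prime] (M : Multiset (ZMod p)),
  (∀ c, M.count c ≤ p - 1) → M.card ≤ 2 * p - 2 → Gap p M.card (Pm M) →
  ∃ W : Finset (ZMod p), (∀ c ∈ W, c ∈ M ∧ ¬ Gap p (M.card - 1) (Pm (M.erase c))) ∧
    2 * p + 2 ≤ W.card + M.card

/-- (Al) Special root systems.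
Proof.  `∏_c (X - c) = X ^ p - X` (`FiniteField.X_pow_card_sub_X_...`, `ZMod`).  (1), (2) `univ.val ≤ M`, so `Pm M = (X ^ p - X) * q`, `q` monic of degree `k = |M| - p`.  The coefficient at `i < p` is `- q.coeff (i - 1)` (`0` for `i = 0`).  (1) `i = k + 1`: the coefficient is `-1`.  (2) `k ≤ p - 4`, `i ≥ p - 2`, `i - 1 > k`.
(3) Suppose `Gap`.  `M ≤ 2 • univ.val`, `{β, β'} = 2 • univ.val - M`, `q = (X - β) * (X - β')`, `q * Pm M = (X ^ p - X) ^ 2`.  `Pm M = X ^ p * g + h`, degree of `h` at most `p - 2`.  `η = h.coeff (p - 2)`: `q * h = η X ^ p + h₂` with `h₂` of degree less than `p`.  So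
`X ^ p * (q * g + η) + h₂ = X ^ p * (X ^ p - 2 X) + X ^ 2` and (uniqueness, `2 < p`) `q * g + η = X ^ p - 2 X`.  At `β`, `β'`: `η = β - 2 β = - β` and `η = - β'`, so `β = β'`.  Then the derivative at `β`: `0 = - 2`, contradiction. -/
def St_Al : Prop := ∀ {p : ℕ} [Fact p.Prime] (M : Multiset (ZMod p)),
  ((∀ c, c ∈ M) → M.card ≤ 2 * p - 2 → ¬ Gap p M.card (Pm M)) ∧
  ((∀ c, c ∈ M) → M.card + 4 ≤ 2 * p → Gap p (2 * p - 3) (Pm M)) ∧
  (p ≠ 2 → (∀ c, M.count c ≤ 2) → M.card = 2 * p - 2 → ¬ Gap p M.card (Pm M))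

/-! ### The plane -/

/-- (Dir) Many directions `w` with `fc (A.erase w) ≠ 0`.
Proof.  Case 1: there is `m ≠ 0` with `dt m a ≠ 0` for all `a ∈ A`.  Choose `m'` with `dt m m' ≠ 0`.  `M = Ro m m' A` (the filter is everything, `|M| = |A|`).  `St_Nz` (1), `St_Pl` (1): `Gap p |A| (Pm M)`.  `St_Gp` gives `W₀`; for `c ∈ W₀` choose `a_c ∈ A` with the root `c`; `M.erase c = Ro m m' (A.erase a_c)`, so by
`St_Nz` (1) `fc (A.erase a_c)` is not zero.  `W = {a_c}`; for `c ≠ c'` `dt a_c a_c' ≠ 0` by `St_Pl` (4).  Case 2: for every `m ≠ 0` there is `a ∈ A` with `dt m a = 0`.  `W = {w ∈ A | ∀ a ∈ A, dt w a = 0 → a = w}`.  Count: `R = {(1, c)} ∪ {(0, 1)}`, `|R| = p + 1`, every nonzero vector is parallel to exactly one `r ∈ R`;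
`A_r = {a ∈ A | dt r a = 0}` is not empty, `|A| = ∑ |A_r| ≥ 2 (p + 1) - #{r | |A_r| = 1}` and `|W| = #{r | |A_r| = 1}`.  Let `w ∈ W`, `w'` with `dt w w' ≠ 0`, `S = A.erase w`: `dt w a ≠ 0` for `a ∈ S`; every `c : ZMod p` is in `Ro w w' S` (`w' + c • w ≠ 0`, so `dt (w' + c • w) a = 0` for some
`a ∈ A`, `a ≠ w` since `dt (w' + c • w) w ≠ 0`; `St_Pl` (2)).  `|Ro w w' S| = |A| - 1 ≤ 2 p - 2`; `St_Al` (1), `St_Pl` (1) and `St_Nz` (1): `fc S` is not zero. -/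
def St_Dir : Prop := (∀ {p : ℕ} [Fact p.Prime], p ≠ 2 →
    ∀ (m m' : V p) (S : Finset (V p)), (∀ g, fc S g = 0) → Gap p S.card (Pl m m' S)) →
  St_Wr → St_Gp → St_Al → St_Pl → ∀ {p : ℕ} [Fact p.Prime], p ≠ 2 → ∀ A : Finset (V p),
  (0 : V p) ∉ A → A.card ≤ 2 * p - 2 → (∀ g, fc A g = 0) →
  ∃ W ⊆ A, (∀ w ∈ W, ∀ w' ∈ W, w ≠ w' → dt w w' ≠ 0) ∧
    (∀ w ∈ W, ∃ g, fc (A.erase w) g ≠ 0) ∧ 2 * p + 2 ≤ W.card + A.card

/-- The conclusion of `St_Dir`. -/
def DirC : Prop := ∀ {p : ℕ} [Fact p.Prime], p ≠ 2 → ∀ A : Finset (V p),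
  (0 : V p) ∉ A → A.card ≤ 2 * p - 2 → (∀ g, fc A g = 0) →
  ∃ W ⊆ A, (∀ w ∈ W, ∀ w' ∈ W, w ≠ w' → dt w w' ≠ 0) ∧
    (∀ w ∈ W, ∃ g, fc (A.erase w) g ≠ 0) ∧ 2 * p + 2 ≤ W.card + A.card

/-- The conclusion of `St_PfC`. -/
def PfCC : Prop := ∀ {p : ℕ} [Fact p.Prime] (S : Finset (V p)),
  S.card ≤ 2 * p - 2 → fc S ∈ Pf p (2 * p - 2 - S.card)

/-- The conclusion of `St_Lin`. -/
def LinC : Prop := ∀ {p : ℕ} [Fact p.Prime] (d : ℕ), ∀ f ∈ Pf p d,
  (∀ u v : V p, ∃ q : (ZMod p)[X], q.natDegree ≤ d ∧ ∀ z : ZMod p, f (u + z • v) = q.eval z) ∧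
  (∀ a : V p, a ≠ 0 → (∀ g, f (g + a) = f g) →
    ∃ q : (ZMod p)[X], q.natDegree ≤ d ∧ ∀ g, f g = q.eval (dt a g))

/-- (Low) The bound for `t ≤ 2 p - 3`.
Proof.  `t = |A|`, `r = 2 p - 2 - t ≤ p - 1`.  If `fc A ≠ 0`: `SZ` with `d = r` (`p (p - r) = p (t + 2 - p)`), `St_Rec` (6).  Otherwise `DirC`: `W ⊆ A`, so `t ≥ p + 1`, `r ≤ p - 3`, and there are `w₁ ≠ w₂` in `W` (`|W| ≥ 5`).  For `w = w₁, w₂`: `0 = fc A g = fc (A.erase w) (g + w) - fc (A.erase w) (g - w)`, so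
`fc (A.erase w)` has the period `2 w`, so `w` (`p` odd), it is in `Pf p (r + 1)`, so `fc (A.erase w) g = q_w.eval (dt w g)`, `q_w ≠ 0` with at most `r + 1` roots.  If `g ∉ SS A` then `g + w ∉ SS (A.erase w)` (`St_Rec` (3)), so `fc (A.erase w) (g + w) = 0`, `q_w.eval (dt w g) = 0`.  The map
`g ↦ (dt w₁ g, dt w₂ g)` is injective: at most `(r + 1) ^ 2` missing sums, and `(r + 1) ^ 2 ≤ r p` for `1 ≤ r ≤ p - 3`. -/
def St_Low : Prop := St_Rec → PfCC →
  (∀ {p : ℕ} [Fact p.Prime] (d : ℕ), ∀ f ∈ Pf p d, d ≤ p →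
    (∃ g, f g ≠ 0) → p * (p - d) ≤ (univ.filter fun g : V p => f g ≠ 0).card) →
  LinC → DirC → ∀ {p : ℕ} [Fact p.Prime], p ≠ 2 → ∀ A : Finset (V p), (0 : V p) ∉ A →
  p - 1 ≤ A.card → A.card ≤ 2 * p - 3 → p * (A.card + 2 - p) ≤ (SS A).card

/-- (Cen) `t = 2 p - 2`: the missing sum is `0`.
Proof.  `fc A ∈ Pf p 0` is constant (`hc`) and `fc A g₀ = 0` (`St_Rec` (6)).  `DirC`: `w₁ ≠ w₂` in `W` (`|W| ≥ 4`).  As in `St_Low` `fc (A.erase w) g = q.eval (dt w g)` with `q` of degree at most `1`, `q.eval (dt w g₀) = 0`; `|A.erase w| = 2 p - 3` is odd, so `q.eval (- x) = - q.eval x` for all `x`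
(`dt w` is onto), so `q = C c * X`, `c ≠ 0`, and `dt w g₀ = 0`.  For `w₁`, `w₂`: `g₀ = 0`. -/
def St_Cen : Prop := St_Rec → PfCC → LinC → DirC →
  (∀ {p : ℕ} [Fact p.Prime], ∀ f ∈ Pf p 0, ∀ g h : V p, f g = f h) →
  ∀ {p : ℕ} [Fact p.Prime], p ≠ 2 → ∀ A : Finset (V p), (0 : V p) ∉ A → A.card = 2 * p - 2 →
  ∀ g₀, g₀ ∉ SS A → g₀ = 0 ∧ ∀ g, fc A g = 0

/-- (Alp) `t = 2 p - 2`, `0` is missing: parallel elements of `A` are equal up to sign.
Proof.  Suppose `a, a' ∈ A`, `a' = l • a`, `l ≠ 1, -1` (and `l ≠ 0`).  `DirC`: among four pairwise nonparallel elements of `W` there is `b` with `dt a b ≠ 0`, `fc (A.erase b) ≠ 0`.  `S = A \ {a, a', b}`, `|S| = 2 p - 5`, `fc S ∈ Pf p 3`.  `h z = fc S (b + z • a)` is a polynomial of degree at most `3` (`LinC` (1)).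
For all signs `fc S (± a ± a' + b) = 0`: otherwise (`St_Rec` (6)) it is in `SS S`, and the opposite vector is in `SS {a, a', b}`, so `0 ∈ SS A` (`St_Rec` (7)).  So `h` vanishes at the four different places `± 1 ± l`, `h = 0`.  `fc (A.erase b) = ` the double difference of `fc S` for `a`, `a'` (`St_Rec` (2)), so it vanishes at all
`b + z • a`.  `fc A = 0` gives the period `2 b`, so `b`; every `g` is `x • a + y • b`, so `fc (A.erase b) = 0`: contradiction. -/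
def St_Alp : Prop := St_Rec → PfCC → LinC → DirC → ∀ {p : ℕ} [Fact p.Prime], 5 ≤ p →
  ∀ A : Finset (V p), (0 : V p) ∉ A → A.card = 2 * p - 2 → (0 : V p) ∉ SS A → (∀ g, fc A g = 0) →
  ∀ a ∈ A, ∀ a' ∈ A, dt a a' = 0 → a' = a ∨ a' = -a

/-- (Cub) An identity for cubic functions.
Proof.  `w = α • u + β • v`, `α, β ≠ 0`.  By `St_PfA` (3), (4) and `F (-g) = - F g` (take the odd part, divide by `2`): `F (x • u + y • v) = k₁ x³ + k₂ x² y + k₃ x y² + k₄ y³ + k₅ x + k₆ y`.  Double difference for `u`, `v`: `8 (k₂ x + k₃ y)`.  Triple difference: `16 (α k₂ + β k₃) = 0`.  Double difference for `v`, `w`: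
`8 (α k₂ + β k₃) x + 8 (α k₃ + 3 β k₄) y`, so `α k₃ + 3 β k₄ = 0`.  For `u`, `w`: `β k₂ + 3 α k₁ = 0`.  The values `F (± u ± v + w) = 0`: (coefficients of `1`, `ε₁`, `ε₂`)
`k₁ (3 α + α³) + k₂ β (1 + α²) + k₃ α (1 + β²) + k₄ (3 β + β³) + k₅ α + k₆ β = 0`, `k₁ (1 + 3 α²) + 2 k₂ α β + k₃ (1 + β²) + k₅ = 0`, `k₂ (1 + α²) + 2 k₃ α β + k₄ (1 + 3 β²) + k₆ = 0`.  The first minus `α` times the second minus `β` times the third:
`2 α (1 - α²) k₁ + 2 β (1 - β²) k₄ - 2 α β (α k₂ + β k₃) = 0`.  Times `3` and with the other relations: `- (1 - α²) β k₂ - (1 - β²) α k₃ = 0`; times `α`: `(β² - α²) k₃ = 0`.  If `k₃ = 0` then `k₂ = 0` and the double difference for `u`, `v` is zero.  If `β = ± α` then `w` is parallel to `u ± v`. -/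
def St_Cub : Prop := St_PfA → ∀ {p : ℕ} [Fact p.Prime], 5 ≤ p → ∀ F ∈ Pf p 3,
  (∀ g, F (-g) = - F g) → ∀ u v w : V p, dt u v ≠ 0 → dt u w ≠ 0 → dt v w ≠ 0 →
  F (u + v + w) = 0 → F (u - v + w) = 0 → F (-u + v + w) = 0 → F (-u - v + w) = 0 →
  (∀ g, F (g + v + w) - F (g + v - w) - F (g - v + w) + F (g - v - w) = 0) →
  (∀ g, F (g + u + w) - F (g + u - w) - F (g - u + w) + F (g - u - w) = 0) →
  (∀ g, (F (g + w + u + v) - F (g + w + u - v) - F (g + w - u + v) + F (g + w - u - v)) -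
    (F (g - w + u + v) - F (g - w + u - v) - F (g - w - u + v) + F (g - w - u - v)) = 0) →
  (∀ g, F (g + u + v) - F (g + u - v) - F (g - u + v) + F (g - u - v) = 0) ∨
    dt w (u + v) = 0 ∨ dt w (u - v) = 0

/-- (Bet) `t = 2 p - 2`, `0` is missing.
Proof.  `S = A \ {u, v, w}`, `F = fc S ∈ Pf p 3`, odd (`|S| = 2 p - 5`).  `F (± u ± v + w) = 0` as in `St_Alp`.  By `St_Rec` (2) `fc (A.erase u)`, `fc (A.erase v)`, `fc (A.erase w)` are the double differences and `fc A` the triple difference.  `St_Cub`. -/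
def St_Bet : Prop := St_Rec → PfCC → St_PfA → St_Cub → ∀ {p : ℕ} [Fact p.Prime], 5 ≤ p →
  ∀ A : Finset (V p), A.card = 2 * p - 2 → (0 : V p) ∉ SS A → (∀ g, fc A g = 0) →
  ∀ u ∈ A, ∀ v ∈ A, ∀ w ∈ A, dt u v ≠ 0 → dt u w ≠ 0 → dt v w ≠ 0 →
  (∀ g, fc (A.erase u) g = 0) → (∀ g, fc (A.erase v) g = 0) → (∃ g, fc (A.erase w) g ≠ 0) →
  dt w (u + v) = 0 ∨ dt w (u - v) = 0

/-- The conclusion of `St_Nz`. -/
def NzC : Prop := ∀ {p : ℕ} [Fact p.Prime], p ≠ 2 →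
  (∀ (m m' : V p) (S : Finset (V p)), (∀ g, fc S g = 0) → Gap p S.card (Pl m m' S)) ∧
  (∀ S : Finset (V p), S.card = 2 * p - 3 → Gap p S.card (Pl (0, -1) (1, 0) S) → ∀ g, fc S g = 0)

/-- The conclusion of `St_Cen`. -/
def CenC : Prop := ∀ {p : ℕ} [Fact p.Prime], p ≠ 2 → ∀ A : Finset (V p), (0 : V p) ∉ A →
  A.card = 2 * p - 2 → ∀ g₀, g₀ ∉ SS A → g₀ = 0 ∧ ∀ g, fc A g = 0

/-- The conclusion of `St_Alp`. -/
def AlpC : Prop := ∀ {p : ℕ} [Fact p.Prime], 5 ≤ p →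
  ∀ A : Finset (V p), (0 : V p) ∉ A → A.card = 2 * p - 2 → (0 : V p) ∉ SS A → (∀ g, fc A g = 0) →
  ∀ a ∈ A, ∀ a' ∈ A, dt a a' = 0 → a' = a ∨ a' = -a

/-- The conclusion of `St_Bet`. -/
def BetC : Prop := ∀ {p : ℕ} [Fact p.Prime], 5 ≤ p →
  ∀ A : Finset (V p), A.card = 2 * p - 2 → (0 : V p) ∉ SS A → (∀ g, fc A g = 0) →
  ∀ u ∈ A, ∀ v ∈ A, ∀ w ∈ A, dt u v ≠ 0 → dt u w ≠ 0 → dt v w ≠ 0 →
  (∀ g, fc (A.erase u) g = 0) → (∀ g, fc (A.erase v) g = 0) → (∃ g, fc (A.erase w) g ≠ 0) →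
  dt w (u + v) = 0 ∨ dt w (u - v) = 0

/-- (Fin) `t = 2 p - 2`: everything is a sum.
Proof.  Suppose `g₀ ∉ SS A`.  `CenC`: `g₀ = 0`, `fc A = 0`.  `DirC`: `W`, `|W| ≥ 4`.  `AlpC`.  Case 1: there is `m ≠ 0` with `dt m a ≠ 0` for all `a ∈ A`; choose `m'` with `dt m m' ≠ 0`; `M = Ro m m' A`, `|M| = 2 p - 2`, counts at most `2` (`St_Pl` (4), `AlpC`), so `St_Al` (3) contradicts `NzC` (1), `St_Pl` (1).
Case 2: for all `m ≠ 0` there is `a ∈ A` with `dt m a = 0`.  There are `u, v ∈ A` with `-u, -v ∈ A`, `dt u v ≠ 0`: the classes `A_r`, `r ∈ R` (`p + 1` directions, see `St_Dir`) have at most two elements and `2 p - 2 ≥ (p + 1) + 2`.  `fc (A.erase u) = 0`: `S = A.erase u` meets all directions (`-u ∈ S`), `St_Pl` (1), (2) for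
`m = (0, -1)`, `m' = (1, 0)` : `Ro m m' S` contains every `c`, has at most `|S| - 1 = 2 p - 4` elements (some `a ∈ S` has `dt m a = a.1 = 0`), `St_Al` (2) and `NzC` (2).  The same for `v`.  For `w ∈ W`: `dt u w ≠ 0`, since otherwise `w = u` or `w = -u` (`AlpC`) and `fc (A.erase w) = 0` (`St_Rec` (8)); `dt v w ≠ 0`.  `BetC`: each `w ∈ W` is parallel
to `u + v ≠ 0` or to `u - v ≠ 0`; of four (three) pairwise nonparallel vectors two are parallel to the same nonzero vector: contradiction. -/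
def St_Fin : Prop := St_Rec → NzC → St_Al → St_Pl → DirC → CenC → AlpC → BetC →
  ∀ {p : ℕ} [Fact p.Prime], 5 ≤ p → ∀ A : Finset (V p), (0 : V p) ∉ A → A.card = 2 * p - 2 →
  ∀ g, g ∈ SS A

end Pool.Agent.ZPP
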